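import Pool.Agent.U746.RH.Det
import Pool.Agent.U746.GM.Surv

set_option autoImplicit false

/-! # The exponent sums over the primes up to `y` -/

open Finset Filter Topology

namespace Pool.Agent.U746.RH

open Pool.Agent.U839.Sv (Pr mem_Pr)
open Pool.Agent.U839.Thin (tlog)
open Pool.Agent.U746.GM (pc_tendsto)

theorem card_Pr (y : ℕ) : (Pr y).card = y.primeCounting := by
  have h : Pr y = (range (y + 1)).filter Nat.Prime := by
    ext p
    rw [mem_Pr, mem_filter, mem_range]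
    constructor
    · rintro ⟨h1, h2⟩
      exact ⟨by omega, h1⟩
    · rintro ⟨h1, h2⟩
      exact ⟨h2, by omega⟩
  rw [h, Nat.primeCounting, Nat.primeCounting', Nat.count_eq_card_filter_range]

/-- Chebyshev's lower bound -/
theorem Fs_low (σ : ℝ) (h0 : 0 ≤ σ) : ∀ᶠ y : ℕ in atTop,
    (y : ℝ) ^ (1 - σ) / (2 * Real.log y) ≤ Fs (Pr y) σ := by
  filter_upwards [pc_tendsto.eventually_const_lt (show (1 : ℝ) / 2 < 1 by norm_num), tlog.eventually_gt_atTop 0,
    eventually_gt_atTop 1] with y h1 h2 h3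
  have hy : (0 : ℝ) < y := by exact_mod_cast (by omega : 0 < y)
  have h4 : (y : ℝ) / (2 * Real.log y) ≤ y.primeCounting := by
    rw [div_le_iff₀ (by positivity)]
    rw [lt_div_iff₀ hy] at h1
    linarith
  calc (y : ℝ) ^ (1 - σ) / (2 * Real.log y) = (y : ℝ) / (2 * Real.log y) * (y : ℝ) ^ (-σ) := by
        rw [sub_eq_add_neg, Real.rpow_add hy, Real.rpow_one]
        ring
    _ ≤ y.primeCounting * (y : ℝ) ^ (-σ) := mul_le_mul_of_nonneg_right h4 (Real.rpow_nonneg hy.le _)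
    _ = ∑ p ∈ Pr y, (y : ℝ) ^ (-σ) := by rw [Finset.sum_const, nsmul_eq_mul, card_Pr]
    _ ≤ Fs (Pr y) σ := by
        unfold Fs
        apply Finset.sum_le_sum
        intro p hp
        rw [mem_Pr] at hp
        have hp0 : (0 : ℝ) < p := by exact_mod_cast hp.1.pos
        apply Real.rpow_le_rpow_of_nonpos hp0 (by exact_mod_cast hp.2) (by linarith)

/-- powers of `log y` are small -/
theorem pow_log (c K : ℝ) (hc : 0 < c) (r : ℕ) : ∀ᶠ y : ℕ in atTop, K * (Real.log y) ^ r ≤ (y : ℝ) ^ c := by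
  rcases le_or_gt K 0 with hK | hK
  · filter_upwards [tlog.eventually_gt_atTop 0] with y h
    have h1 : K * (Real.log y) ^ r ≤ 0 := mul_nonpos_of_nonpos_of_nonneg hK (by positivity)
    exact h1.trans (Real.rpow_nonneg (Nat.cast_nonneg _) _)
  · have h1 := (isLittleO_log_rpow_rpow_atTop (r := r) (s := c) hc).bound (show (0 : ℝ) < 1 / K by positivity)
    filter_upwards [tendsto_natCast_atTop_atTop.eventually h1, tlog.eventually_gt_atTop 0] with y k1 k2
    rw [Real.norm_of_nonneg (by positivity), Real.norm_of_nonneg (by positivity), Real.rpow_natCast] at k1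
    calc K * (Real.log y) ^ r ≤ K * (1 / K * (y : ℝ) ^ c) := mul_le_mul_of_nonneg_left k1 hK.le
      _ = (y : ℝ) ^ c := by field_simp

/-- the exponent sum is large -/
theorem Fs_big (σ K : ℝ) (h0 : 0 ≤ σ) (h1 : σ < 1) (r : ℕ) : ∀ᶠ y : ℕ in atTop, K * (Real.log y) ^ r ≤ Fs (Pr y) σ := by
  filter_upwards [Fs_low σ h0, pow_log (1 - σ) (2 * K) (by linarith) (r + 1), tlog.eventually_gt_atTop 0] with y k1 k2 k3
  refine le_trans ?_ k1
  rw [le_div_iff₀ (by positivity)]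
  calc K * (Real.log y) ^ r * (2 * Real.log y) = 2 * K * (Real.log y) ^ (r + 1) := by ring
    _ ≤ _ := k2

/-- the small primes -/
noncomputable def SP (δ : ℝ) (y : ℕ) : Finset ℕ := (Pr y).filter (fun p => (p : ℝ) ≤ (y : ℝ) ^ (1 - δ))

/-- the large primes -/
noncomputable def LP (δ : ℝ) (y : ℕ) : Finset ℕ := (Pr y).filter (fun p => ¬ (p : ℝ) ≤ (y : ℝ) ^ (1 - δ))

theorem SL (δ : ℝ) (y : ℕ) (f : ℕ → ℝ) : ∑ p ∈ Pr y, f p = ∑ p ∈ SP δ y, f p + ∑ p ∈ LP δ y, f p :=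
  (Finset.sum_filter_add_sum_filter_not _ _ _).symm

theorem SP_small (σ δ : ℝ) (h0 : 0 ≤ σ) (h1 : σ < 1) (hδ : 0 < δ) :
    ∀ᶠ y : ℕ in atTop, Fs (SP δ y) σ ≤ δ * Fs (Pr y) σ := by
  have hs : 0 < 1 - σ := by linarith
  filter_upwards [Fs_low σ h0, pow_log (δ * (1 - σ)) (2 / (δ * (1 - σ))) (by positivity) 1,
    tlog.eventually_gt_atTop 0, eventually_gt_atTop 0] with y k1 k2 k3 k4
  have hy : (0 : ℝ) < y := by exact_mod_cast k4
  obtain ⟨w, hw⟩ : ∃ w : ℕ, w = ⌊(y : ℝ) ^ (1 - δ)⌋₊ := ⟨_, rfl⟩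
  have h2 : SP δ y ⊆ Pr w := by
    intro p hp
    unfold SP at hp
    rw [mem_filter, mem_Pr] at hp
    rw [mem_Pr, hw]
    exact ⟨hp.1.1, Nat.le_floor hp.2⟩
  have h3 := (Fs_mono h2 σ).trans (Fs_Pr_le σ h0 h1 w)
  have h4 : (w : ℝ) ≤ (y : ℝ) ^ (1 - δ) := by
    rw [hw]
    exact Nat.floor_le (by positivity)
  have h5 : (w : ℝ) ^ (1 - σ) ≤ (y : ℝ) ^ ((1 - δ) * (1 - σ)) := by
    rw [Real.rpow_mul hy.le]
    exact Real.rpow_le_rpow (Nat.cast_nonneg _) h4 hs.le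
  rw [pow_one] at k2
  calc Fs (SP δ y) σ ≤ (w : ℝ) ^ (1 - σ) / (1 - σ) := h3
    _ ≤ (y : ℝ) ^ ((1 - δ) * (1 - σ)) / (1 - σ) := div_le_div_of_nonneg_right h5 hs.le
    _ ≤ δ * ((y : ℝ) ^ (1 - σ) / (2 * Real.log y)) := by
        have h6 : (y : ℝ) ^ (1 - σ) = (y : ℝ) ^ ((1 - δ) * (1 - σ)) * (y : ℝ) ^ (δ * (1 - σ)) := by
          rw [← Real.rpow_add hy]
          congr 1; ring
        rw [h6, div_le_iff₀ hs]
        have h7 : 0 < (y : ℝ) ^ ((1 - δ) * (1 - σ)) := Real.rpow_pos_of_pos hy _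
        have h8 : 1 ≤ δ * ((y : ℝ) ^ (δ * (1 - σ)) / (2 * Real.log y)) * (1 - σ) := by
          have h9 : δ * ((y : ℝ) ^ (δ * (1 - σ)) / (2 * Real.log y)) * (1 - σ) =
              (δ * (1 - σ) * (y : ℝ) ^ (δ * (1 - σ))) / (2 * Real.log y) := by ring
          rw [h9, le_div_iff₀ (by positivity), one_mul]
          rw [div_mul_eq_mul_div, div_le_iff₀ (by positivity)] at k2
          linarith
        calc (y : ℝ) ^ ((1 - δ) * (1 - σ)) = (y : ℝ) ^ ((1 - δ) * (1 - σ)) * 1 := (mul_one _).symm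
          _ ≤ (y : ℝ) ^ ((1 - δ) * (1 - σ)) * (δ * ((y : ℝ) ^ (δ * (1 - σ)) / (2 * Real.log y)) * (1 - σ)) :=
              mul_le_mul_of_nonneg_left h8 h7.le
          _ = _ := by ring
    _ ≤ δ * Fs (Pr y) σ := mul_le_mul_of_nonneg_left k1 hδ.le

theorem LP_rpow {δ : ℝ} {y p : ℕ} (hy : 1 < y) (hp : p ∈ LP δ y) (v : ℝ) (hv : 0 ≤ v) :
    (p : ℝ) ^ (-(v / Real.log y)) ≤ Real.exp (-(v * (1 - δ))) := by
  unfold LP at hp
  rw [mem_filter, mem_Pr, not_le] at hp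
  have hp0 : (0 : ℝ) < p := by exact_mod_cast hp.1.1.pos
  have hy0 : (0 : ℝ) < y := by exact_mod_cast (by omega : 0 < y)
  have hL : 0 < Real.log y := Real.log_pos (by exact_mod_cast hy)
  rw [Real.rpow_def_of_pos hp0]
  apply Real.exp_le_exp.2
  have h1 : (1 - δ) * Real.log y ≤ Real.log p := by
    rw [← Real.log_rpow hy0]
    exact Real.log_le_log (by positivity) hp.2.le
  have h2 : v * (1 - δ) ≤ Real.log p * (v / Real.log y) := by
    calc v * (1 - δ) = (1 - δ) * Real.log y * (v / Real.log y) := by field_simp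
      _ ≤ _ := mul_le_mul_of_nonneg_right h1 (by positivity)
  linarith

/-- larger exponents -/
theorem Fs_up (σ δ : ℝ) (h0 : 0 ≤ σ) (h1 : σ < 1) (hδ : 0 < δ) (v : ℝ) (hv : 0 ≤ v) :
    ∀ᶠ y : ℕ in atTop, Fs (Pr y) (σ + v / Real.log y) ≤ (Real.exp (-(v * (1 - δ))) + δ) * Fs (Pr y) σ := by
  filter_upwards [SP_small σ δ h0 h1 hδ, eventually_gt_atTop 1] with y k1 k2
  have hL : 0 < Real.log y := Real.log_pos (by exact_mod_cast k2)
  have hterm : ∀ p ∈ Pr y, (p : ℝ) ^ (-(σ + v / Real.log y)) = (p : ℝ) ^ (-σ) * (p : ℝ) ^ (-(v / Real.log y)) := by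
    intro p hp
    rw [mem_Pr] at hp
    have hp0 : (0 : ℝ) < p := by exact_mod_cast hp.1.pos
    rw [← Real.rpow_add hp0]
    congr 1; ring
  have e1 : Fs (SP δ y) (σ + v / Real.log y) ≤ Fs (SP δ y) σ := by
    unfold Fs
    apply Finset.sum_le_sum
    intro p hp
    unfold SP at hp
    rw [mem_filter, mem_Pr] at hp
    have hp0 : (1 : ℝ) ≤ p := by exact_mod_cast hp.1.1.one_le
    apply Real.rpow_le_rpow_of_exponent_le hp0
    have : 0 ≤ v / Real.log y := by positivity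
    linarith
  have e2 : Fs (LP δ y) (σ + v / Real.log y) ≤ Real.exp (-(v * (1 - δ))) * Fs (LP δ y) σ := by
    unfold Fs
    rw [Finset.mul_sum]
    apply Finset.sum_le_sum
    intro p hp
    have hpP : p ∈ Pr y := (mem_filter.1 hp).1
    rw [hterm p hpP, mul_comm]
    exact mul_le_mul_of_nonneg_right (LP_rpow k2 hp v hv) (Real.rpow_nonneg (Nat.cast_nonneg _) _)
  have e3 : Fs (LP δ y) σ ≤ Fs (Pr y) σ := Fs_mono (Finset.filter_subset _ _) σ
  have e4 : Fs (Pr y) (σ + v / Real.log y) = Fs (SP δ y) (σ + v / Real.log y) + Fs (LP δ y) (σ + v / Real.log y) :=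
    SL δ y _
  rw [e4, add_mul]
  have e5 := mul_le_mul_of_nonneg_left e3 (Real.exp_pos (-(v * (1 - δ)))).le
  linarith

/-- smaller exponents -/
theorem Fs_down (σ v : ℝ) (hv : 0 ≤ v) (y : ℕ) (hy : 1 < y) :
    Fs (Pr y) (σ - v / Real.log y) ≤ Real.exp v * Fs (Pr y) σ := by
  have hL : 0 < Real.log y := Real.log_pos (by exact_mod_cast hy)
  unfold Fs
  rw [Finset.mul_sum]
  apply Finset.sum_le_sum
  intro p hp
  rw [mem_Pr] at hp
  have hp0 : (0 : ℝ) < p := by exact_mod_cast hp.1.pos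
  have h1 : (p : ℝ) ^ (-(σ - v / Real.log y)) = (p : ℝ) ^ (v / Real.log y) * (p : ℝ) ^ (-σ) := by
    rw [← Real.rpow_add hp0]
    congr 1; ring
  rw [h1]
  apply mul_le_mul_of_nonneg_right _ (Real.rpow_nonneg hp0.le _)
  rw [Real.rpow_def_of_pos hp0]
  apply Real.exp_le_exp.2
  have h2 : Real.log p ≤ Real.log y := Real.log_le_log hp0 (by exact_mod_cast hp.2)
  calc Real.log p * (v / Real.log y) ≤ Real.log y * (v / Real.log y) := mul_le_mul_of_nonneg_right h2 (by positivity)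
    _ = v := by field_simp

end Pool.Agent.U746.RH
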