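import Pool.Agent.U746.RH.Sie
import Pool.Agent.U839.Thin.Det

set_option autoImplicit false

/-! # Square root cancellation in all progressions -/

open Finset Filter Topology MeasureTheory ProbabilityTheory

namespace Pool.Agent.U746.RH

open Pool.Agent.U839.Thin (tlog)

variable {Ω : Type*} [MeasurableSpace Ω] {μ : Measure Ω} [IsProbabilityMeasure μ]

/-- the centred indicator function -/
noncomputable def xi (μ : Measure Ω) (E : ℕ → Set Ω) (n : ℕ) (ω : Ω) : ℝ :=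
  (E n).indicator (fun _ => (1 : ℝ)) ω - μ.real (E n)

theorem xi_sub {E : ℕ → Set Ω} (hm : ∀ n, MeasurableSet (E n)) (b : ℕ → ℝ) (hb : ∀ n, 0 ≤ b n) (n : ℕ) :
    HasSubgaussianMGF (fun ω => b n * xi μ E n ω) ((‖b n - 0‖₊ / 2) ^ 2) μ := by
  have h1 : Measurable (fun ω => b n * (E n).indicator (fun _ => (1 : ℝ)) ω) :=
    (measurable_const.indicator (hm n)).const_mul _
  have h2 := hasSubgaussianMGF_of_mem_Icc (μ := μ) (X := fun ω => b n * (E n).indicator (fun _ => (1 : ℝ)) ω)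
    (a := 0) (b := b n) h1.aemeasurable (by
      filter_upwards with ω
      rw [Set.mem_Icc]
      by_cases h : ω ∈ E n
      · rw [Set.indicator_of_mem h]
        constructor <;> nlinarith [hb n]
      · rw [Set.indicator_of_notMem h]
        constructor <;> nlinarith [hb n])
  have h3 : ∫ ω, b n * (E n).indicator (fun _ => (1 : ℝ)) ω ∂μ = b n * μ.real (E n) := by
    rw [integral_const_mul, integral_indicator (hm n)]
    simp
  rw [h3] at h2
  refine h2.congr ?_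
  filter_upwards with ω
  unfold xi
  ring

theorem xi_indep {E : ℕ → Set Ω} (hE : iIndepSet E μ) (b : ℕ → ℝ) :
    iIndepFun (fun n ω => b n * xi μ E n ω) μ := by
  have h1 : iIndepFun (fun n => (E n).indicator fun _ω => (1 : ℝ)) μ := hE.iIndepFun_indicator
  have h2 := h1.comp (fun n u => b n * (u - μ.real (E n))) (fun n => by fun_prop)
  exact h2

theorem hoeff {E : ℕ → Set Ω} (hm : ∀ n, MeasurableSet (E n)) (hE : iIndepSet E μ) (b : ℕ → ℝ)
    (hb : ∀ n, 0 ≤ b n) (I : Finset ℕ) (L : ℝ) (hL : 0 < L) (hbL : ∀ n ∈ I, b n ≤ L) (t : ℝ) (ht : 0 ≤ t)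
    (N : ℝ) (hN : 0 < N) (hI : (I.card : ℝ) ≤ N) :
    μ.real {ω | t ≤ |∑ n ∈ I, b n * xi μ E n ω|} ≤ 2 * Real.exp (-(2 * t ^ 2 / (N * L ^ 2))) := by
  have hc : ((∑ i ∈ I, ((‖b i - 0‖₊ / 2) ^ 2 : NNReal) : NNReal) : ℝ) ≤ N * L ^ 2 / 4 := by
    push_cast
    calc ∑ i ∈ I, (‖b i - 0‖ / 2) ^ 2 ≤ ∑ i ∈ I, (L / 2) ^ 2 := by
          apply Finset.sum_le_sum
          intro i hi
          apply pow_le_pow_left₀ (by positivity)
          rw [sub_zero, Real.norm_of_nonneg (hb i)]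
          linarith [hbL i hi]
      _ = I.card * (L / 2) ^ 2 := by rw [Finset.sum_const, nsmul_eq_mul]
      _ ≤ N * (L / 2) ^ 2 := mul_le_mul_of_nonneg_right hI (by positivity)
      _ = _ := by ring
  obtain ⟨c, hcc⟩ : ∃ c : ℝ, c = ((∑ i ∈ I, ((‖b i - 0‖₊ / 2) ^ 2 : NNReal) : NNReal) : ℝ) := ⟨_, rfl⟩
  have hc0 : 0 ≤ c := by rw [hcc]; exact NNReal.coe_nonneg _
  rw [← hcc] at hc
  have hexp : Real.exp (-t ^ 2 / (2 * c)) ≤ Real.exp (-(2 * t ^ 2 / (N * L ^ 2))) ∨ c = 0 := by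
    rcases hc0.lt_or_eq with h | h
    · left
      apply Real.exp_le_exp.2
      rw [neg_div]
      apply neg_le_neg
      rw [div_le_div_iff₀ (by positivity) (by positivity)]
      have h1 : 0 ≤ t ^ 2 := sq_nonneg t
      nlinarith
    · exact Or.inr h.symm
  rcases hexp with hexp | hc00
  · have k1 := HasSubgaussianMGF.measure_sum_ge_le_of_iIndepFun (μ := μ) (xi_indep hE b)
      (c := fun n => (‖b n - 0‖₊ / 2) ^ 2) (s := I) (fun n _ => xi_sub hm b hb n) ht
    have k2 := HasSubgaussianMGF.measure_sum_ge_le_of_iIndepFun (μ := μ)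
      (X := fun n ω => -(b n * xi μ E n ω))
      ((xi_indep hE b).comp (fun _ u => -u) (fun _ => measurable_neg))
      (c := fun n => (‖b n - 0‖₊ / 2) ^ 2) (s := I) (fun n _ => (xi_sub hm b hb n).neg) ht
    rw [← hcc] at k1 k2
    have h1 : {ω | t ≤ |∑ n ∈ I, b n * xi μ E n ω|} ⊆
        {ω | t ≤ ∑ n ∈ I, b n * xi μ E n ω} ∪ {ω | t ≤ ∑ n ∈ I, -(b n * xi μ E n ω)} := by
      intro ω hω
      rw [Set.mem_setOf_eq] at hω
      rcases le_abs.1 hω with h | h
      · exact Or.inl h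
      · right
        rw [Set.mem_setOf_eq, Finset.sum_neg_distrib]
        exact h
    calc μ.real {ω | t ≤ |∑ n ∈ I, b n * xi μ E n ω|}
        ≤ μ.real ({ω | t ≤ ∑ n ∈ I, b n * xi μ E n ω} ∪ {ω | t ≤ ∑ n ∈ I, -(b n * xi μ E n ω)}) :=
          measureReal_mono h1
      _ ≤ μ.real {ω | t ≤ ∑ n ∈ I, b n * xi μ E n ω} + μ.real {ω | t ≤ ∑ n ∈ I, -(b n * xi μ E n ω)} :=
          measureReal_union_le _ _
      _ ≤ Real.exp (-t ^ 2 / (2 * c)) + Real.exp (-t ^ 2 / (2 * c)) := add_le_add k1 k2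
      _ ≤ _ := by linarith
  · -- all weights vanish
    have hb0 : ∀ n ∈ I, b n = 0 := by
      intro n hn
      have h1 : (∑ i ∈ I, ((‖b i - 0‖₊ / 2) ^ 2 : NNReal)) = 0 := by
        have : ((∑ i ∈ I, ((‖b i - 0‖₊ / 2) ^ 2 : NNReal) : NNReal) : ℝ) = 0 := by rw [← hcc]; exact hc00
        exact_mod_cast this
      rw [Finset.sum_eq_zero_iff] at h1
      have h2 := h1 n hn
      have h3 : ‖b n - 0‖₊ / 2 = 0 := by
        exact pow_eq_zero_iff (two_ne_zero) |>.1 h2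
      have h4 : ‖b n - 0‖₊ = 0 := by
        rcases div_eq_zero_iff.1 h3 with h | h
        · exact h
        · norm_num at h
      rw [nnnorm_eq_zero, sub_zero] at h4
      exact h4
    rcases ht.lt_or_eq with h | h
    · have h1 : {ω | t ≤ |∑ n ∈ I, b n * xi μ E n ω|} = ∅ := by
        ext ω
        rw [Set.mem_setOf_eq]
        simp only [Set.mem_empty_iff_false, iff_false, not_le]
        rw [Finset.sum_eq_zero (fun n hn => by rw [hb0 n hn, zero_mul]), abs_zero]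
        exact h
      rw [h1, measureReal_empty]
      positivity
    · rw [← h]
      have h1 : (-(2 * (0 : ℝ) ^ 2 / (N * L ^ 2))) = 0 := by norm_num
      rw [h1, Real.exp_zero]
      calc μ.real _ ≤ 1 := measureReal_le_one
        _ ≤ 2 * 1 := by norm_num

/-- the sum over a progression -/
noncomputable def dev (μ : Measure Ω) (E : ℕ → Set Ω) (x q a : ℕ) (ω : Ω) : ℝ :=
  ∑ n ∈ AP q a x, Real.log n * xi μ E n ω

theorem AP_card (q a x : ℕ) (hq : 1 ≤ q) (hqx : q ≤ x) : ((AP q a x).card : ℝ) ≤ 2 * ((x : ℝ) / q) := by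
  have h1 := Ncount q a x (by omega)
  have h2 := (abs_le.1 h1).2
  have hq0 : (0 : ℝ) < q := by exact_mod_cast (by omega : 0 < q)
  have h3 : (1 : ℝ) ≤ (x : ℝ) / q := by
    rw [le_div_iff₀ hq0, one_mul]
    exact_mod_cast hqx
  unfold AP
  linarith

theorem tail_small (δ : ℝ) (hδ : 0 < δ) : ∀ᶠ x : ℕ in atTop,
    (x : ℝ) ^ 2 * (2 * Real.exp (-((x : ℝ) ^ (2 * δ) / (Real.log x) ^ 2))) ≤ 1 / (x : ℝ) ^ 2 := by
  -- `x^(2δ) ≥ 5 log³ x`
  have h1 := (isLittleO_log_rpow_rpow_atTop (r := 3) (s := 2 * δ) (by positivity)).bound (show (0 : ℝ) < 1 / 5 by norm_num)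
  filter_upwards [tendsto_natCast_atTop_atTop.eventually h1, tlog.eventually_ge_atTop 1,
    eventually_gt_atTop 2] with x k1 k2 k3
  have hx0 : (0 : ℝ) < x := by exact_mod_cast (by omega : 0 < x)
  have hx3 : (2 : ℝ) ≤ x := by exact_mod_cast (by omega : 2 ≤ x)
  rw [Real.norm_of_nonneg (by positivity), Real.norm_of_nonneg (by positivity)] at k1
  have h2 : (Real.log x) ^ (3 : ℝ) = (Real.log x) ^ 3 := by
    rw [show (3 : ℝ) = ((3 : ℕ) : ℝ) by norm_num, Real.rpow_natCast]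
  rw [h2] at k1
  have h3 : 5 * Real.log x ≤ (x : ℝ) ^ (2 * δ) / (Real.log x) ^ 2 := by
    rw [le_div_iff₀ (by positivity)]
    nlinarith
  have h4 : Real.exp (-((x : ℝ) ^ (2 * δ) / (Real.log x) ^ 2)) ≤ 1 / (x : ℝ) ^ 5 := by
    calc Real.exp (-((x : ℝ) ^ (2 * δ) / (Real.log x) ^ 2)) ≤ Real.exp (-(5 * Real.log x)) :=
          Real.exp_le_exp.2 (neg_le_neg h3)
      _ = 1 / (x : ℝ) ^ 5 := by
          rw [Real.exp_neg, one_div]
          congr 1
          rw [show (5 : ℝ) * Real.log x = ((5 : ℕ) : ℝ) * Real.log x by norm_num, Real.exp_nat_mul, Real.exp_log hx0]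
  calc (x : ℝ) ^ 2 * (2 * Real.exp (-((x : ℝ) ^ (2 * δ) / (Real.log x) ^ 2)))
      ≤ (x : ℝ) ^ 2 * (x * (1 / (x : ℝ) ^ 5)) := by
        apply mul_le_mul_of_nonneg_left _ (by positivity)
        exact mul_le_mul hx3 h4 (Real.exp_pos _).le hx0.le
    _ = 1 / (x : ℝ) ^ 2 := by field_simp

/-- almost surely square root cancellation in all progressions -/
theorem ae_dev {E : ℕ → Set Ω} (hm : ∀ n, MeasurableSet (E n)) (hE : iIndepSet E μ) (δ : ℝ) (hδ : 0 < δ) :
    ∀ᵐ ω ∂μ, ∀ᶠ x : ℕ in atTop, ∀ q a : ℕ, 1 ≤ q → q ≤ x → a < q →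
      |dev μ E x q a ω| ≤ (x : ℝ) ^ δ * Real.sqrt ((x : ℝ) / q) := by
  obtain ⟨Bad, hBad⟩ : ∃ Bad : ℕ → Set Ω, Bad = fun x => ⋃ q ∈ Icc 1 x, ⋃ a ∈ range q,
    {ω | (x : ℝ) ^ δ * Real.sqrt ((x : ℝ) / q) ≤ |dev μ E x q a ω|} := ⟨_, rfl⟩
  have hb : ∀ᶠ x : ℕ in atTop, μ.real (Bad x) ≤ 1 / (x : ℝ) ^ 2 := by
    filter_upwards [tail_small δ hδ, eventually_gt_atTop 2] with x h1 h2
    refine le_trans ?_ h1
    have hx0 : (0 : ℝ) < x := by exact_mod_cast (by omega : 0 < x)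
    have hL : 0 < Real.log x := Real.log_pos (by exact_mod_cast (by omega : 1 < x))
    rw [hBad]
    have h3 : ∀ q ∈ Icc 1 x, ∀ a ∈ range q,
        μ.real {ω | (x : ℝ) ^ δ * Real.sqrt ((x : ℝ) / q) ≤ |dev μ E x q a ω|} ≤
        2 * Real.exp (-((x : ℝ) ^ (2 * δ) / (Real.log x) ^ 2)) := by
      intro q hq a _
      rw [mem_Icc] at hq
      have hq0 : (0 : ℝ) < q := by exact_mod_cast (by omega : 0 < q)
      have hxq : 0 < (x : ℝ) / q := by positivity
      have h4 := hoeff (μ := μ) hm hE (fun n => Real.log n) (fun n => Real.log_natCast_nonneg n) (AP q a x)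
        (Real.log x) hL (fun n hn => by
          rw [mem_AP] at hn
          exact Real.log_le_log (by exact_mod_cast hn.1.1) (by exact_mod_cast hn.1.2))
        ((x : ℝ) ^ δ * Real.sqrt ((x : ℝ) / q)) (by positivity) (2 * ((x : ℝ) / q)) (by positivity)
        (AP_card q a x hq.1 hq.2)
      refine h4.trans (le_of_eq ?_)
      congr 2
      have h5 : ((x : ℝ) ^ δ * Real.sqrt ((x : ℝ) / q)) ^ 2 = (x : ℝ) ^ (2 * δ) * ((x : ℝ) / q) := by
        rw [mul_pow, Real.sq_sqrt hxq.le, ← Real.rpow_natCast, ← Real.rpow_mul hx0.le]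
        congr 2
        push_cast
        ring
      rw [h5]
      field_simp
    calc μ.real (⋃ q ∈ Icc 1 x, ⋃ a ∈ range q,
          {ω | (x : ℝ) ^ δ * Real.sqrt ((x : ℝ) / q) ≤ |dev μ E x q a ω|})
        ≤ ∑ q ∈ Icc 1 x, μ.real (⋃ a ∈ range q,
          {ω | (x : ℝ) ^ δ * Real.sqrt ((x : ℝ) / q) ≤ |dev μ E x q a ω|}) := measureReal_biUnion_finset_le _ _
      _ ≤ ∑ q ∈ Icc 1 x, ∑ a ∈ range q, μ.real
          {ω | (x : ℝ) ^ δ * Real.sqrt ((x : ℝ) / q) ≤ |dev μ E x q a ω|} :=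
          Finset.sum_le_sum fun q _ => measureReal_biUnion_finset_le _ _
      _ ≤ ∑ q ∈ Icc 1 x, ∑ a ∈ range q, 2 * Real.exp (-((x : ℝ) ^ (2 * δ) / (Real.log x) ^ 2)) :=
          Finset.sum_le_sum fun q hq => Finset.sum_le_sum fun a ha => h3 q hq a ha
      _ ≤ ∑ q ∈ Icc 1 x, (x : ℝ) * (2 * Real.exp (-((x : ℝ) ^ (2 * δ) / (Real.log x) ^ 2))) := by
          apply Finset.sum_le_sum
          intro q hq
          rw [mem_Icc] at hq
          rw [Finset.sum_const, card_range, nsmul_eq_mul]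
          apply mul_le_mul_of_nonneg_right _ (by positivity)
          exact_mod_cast hq.2
      _ = _ := by
          rw [Finset.sum_const, Nat.card_Icc, nsmul_eq_mul]
          simp only [Nat.add_sub_cancel]
          ring
  have hs : Summable (fun x : ℕ => μ.real (Bad x)) := by
    refine Summable.of_norm_bounded_eventually_nat (Real.summable_one_div_nat_pow.2 (by norm_num : 1 < 2)) ?_
    filter_upwards [hb] with x hx
    rw [Real.norm_of_nonneg measureReal_nonneg]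
    exact hx
  have h1 : ∑' x, μ (Bad x) ≠ ⊤ := by
    have h2 : ∀ x, μ (Bad x) = ENNReal.ofReal (μ.real (Bad x)) := fun k =>
      (ENNReal.ofReal_toReal (measure_ne_top μ _)).symm
    simp only [h2]
    exact hs.tsum_ofReal_ne_top
  filter_upwards [ae_eventually_notMem h1] with ω hω
  filter_upwards [hω] with x hx q a hq hqx ha
  rw [hBad] at hx
  simp only [Set.mem_iUnion, not_exists] at hx
  have h2 := hx q (mem_Icc.2 ⟨hq, hqx⟩) a (mem_range.2 ha)
  rw [Set.mem_setOf_eq, not_le] at h2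
  exact h2.le

end Pool.Agent.U746.RH
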