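import Pool.Agent.U746.RH.Exp
import Pool.Agent.U746.RH.Prb

set_option autoImplicit false

/-! # The upper bound for the error -/

open Finset Filter Topology MeasureTheory ProbabilityTheory

namespace Pool.Agent.U746.RH

open Pool.Agent.U839.Sv (Pr mem_Pr W W_pos W_le' W_mono fT fT_nonneg fT_le dens one_sub_pos sub_pow)
open Pool.Agent.U839.Thin (tlog)

open Classical in
/-- the weighted count of the elements of `Q` in a progression -/
noncomputable def psi (Q : Set ℕ) (x q a : ℕ) : ℝ :=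
  ∑ n ∈ (Ioc 0 x).filter (fun n => n ∈ Q ∧ n ≡ a [MOD q]), Real.log n

/-- the expected main term -/
noncomputable def MT (T : ℕ → ℕ) (x q : ℕ) : ℝ := ∑ n ∈ Ioc 0 x, mt (T n) q

variable {Ω : Type*} [MeasurableSpace Ω] {μ : Measure Ω} [IsProbabilityMeasure μ]

omit [IsProbabilityMeasure μ] in
theorem psi_eq (E : ℕ → Set Ω) (x q a : ℕ) (ω : Ω) :
    psi {m | ω ∈ E m} x q a = dev μ E x q a ω + ∑ n ∈ AP q a x, Real.log n * μ.real (E n) := by
  classical
  unfold psi dev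
  rw [← Finset.sum_add_distrib]
  have h1 : (Ioc 0 x).filter (fun n => n ∈ {m | ω ∈ E m} ∧ n ≡ a [MOD q]) =
      (AP q a x).filter (fun n => ω ∈ E n) := by
    unfold AP
    rw [Finset.filter_filter]
    apply Finset.filter_congr
    intro n _
    rw [Set.mem_setOf_eq, and_comm]
  rw [h1, Finset.sum_filter]
  apply Finset.sum_congr rfl
  intro n _
  unfold xi
  by_cases h : ω ∈ E n
  · rw [if_pos h, Set.indicator_of_mem h]; ring
  · rw [if_neg h, Set.indicator_of_notMem h]; ring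

theorem ff_sum' (T : ℕ → ℕ) (q a x : ℕ) :
    ∑ n ∈ Ioc 0 x, ff q a (T n) n = ∑ n ∈ AP q a x, fT T n - MT T x q := by
  classical
  unfold MT AP
  rw [Finset.sum_filter, ← Finset.sum_sub_distrib]
  apply Finset.sum_congr rfl
  intro n _
  unfold ff fT
  congr 1
  by_cases h : n ≡ a [MOD q]
  · rw [if_pos h]
    congr 1
    apply propext
    exact ⟨fun h1 => h1.2, fun h1 => ⟨h, h1⟩⟩
  · rw [if_neg h, if_neg (fun h1 => h h1.1)]

/-- the means -/
theorem means {E : ℕ → Set Ω} (T : ℕ → ℕ)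
    (hTs : ∀ ε : ℝ, 0 < ε → ∀ᶠ n : ℕ in atTop, (T n : ℝ) ≤ (n : ℝ) ^ ε)
    (hl : ∀ n : ℕ, μ.real (E n) = min 1 (fT T n / Real.log n)) :
    ∃ C : ℝ, 0 < C ∧ ∀ x q a : ℕ,
      |∑ n ∈ AP q a x, Real.log n * μ.real (E n) - ∑ n ∈ AP q a x, fT T n| ≤ C := by
  obtain ⟨n0, hn0⟩ := eventually_atTop.1 ((dens T hTs 1 one_pos).and (eventually_gt_atTop 1))
  obtain ⟨f, hf⟩ : ∃ f : ℕ → ℝ, f = fun n : ℕ => |Real.log n * μ.real (E n) - fT T n| := ⟨_, rfl⟩
  refine ⟨∑ n ∈ range n0, f n + 1, ?_, ?_⟩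
  · have : 0 ≤ ∑ n ∈ range n0, f n := Finset.sum_nonneg fun n _ => by rw [hf]; exact abs_nonneg _
    linarith
  · intro x q a
    rw [← Finset.sum_sub_distrib]
    refine (Finset.abs_sum_le_sum_abs _ _).trans ?_
    have h1 : ∀ n, n0 ≤ n → |Real.log n * μ.real (E n) - fT T n| = 0 := by
      intro n hn
      obtain ⟨h2, h3⟩ := hn0 n hn
      have hL : 0 < Real.log n := Real.log_pos (by exact_mod_cast h3)
      rw [hl n, min_eq_right h2, mul_div_cancel₀ _ hL.ne', sub_self, abs_zero]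
    calc ∑ n ∈ AP q a x, |Real.log n * μ.real (E n) - fT T n|
        ≤ ∑ n ∈ (AP q a x).filter (fun n => n < n0), |Real.log n * μ.real (E n) - fT T n| := by
          rw [← Finset.sum_filter_add_sum_filter_not (AP q a x) (fun n => n < n0)]
          have h2 : ∑ n ∈ (AP q a x).filter (fun n => ¬ n < n0), |Real.log n * μ.real (E n) - fT T n| = 0 := by
            apply Finset.sum_eq_zero
            intro n hn
            rw [mem_filter, not_lt] at hn
            exact h1 n hn.2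
          rw [h2, add_zero]
      _ ≤ ∑ n ∈ range n0, f n := by
          rw [hf]
          apply Finset.sum_le_sum_of_subset_of_nonneg
          · intro n hn
            rw [mem_filter] at hn
            exact mem_range.2 hn.2
          · intro n _ _
            exact abs_nonneg _
      _ ≤ _ := by linarith

omit [IsProbabilityMeasure μ] in
theorem dev_mod (E : ℕ → Set Ω) (x q a : ℕ) (ω : Ω) : dev μ E x q a ω = dev μ E x q (a % q) ω := by
  unfold dev AP
  have h1 : (Ioc 0 x).filter (fun n => n ≡ a [MOD q]) = (Ioc 0 x).filter (fun n => n ≡ a % q [MOD q]) := by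
    apply Finset.filter_congr
    intro n _
    constructor
    · intro h
      exact h.trans (Nat.mod_modEq a q).symm
    · intro h
      exact h.trans (Nat.mod_modEq a q)
  rw [h1]

theorem dev_triv {E : ℕ → Set Ω} (x x0 q a : ℕ) (hx : x ≤ x0) (ω : Ω) : |dev μ E x q a ω| ≤ (x0 : ℝ) * x0 := by
  unfold dev
  calc |∑ n ∈ AP q a x, Real.log n * xi μ E n ω| ≤ ∑ n ∈ AP q a x, (x0 : ℝ) := by
        refine (Finset.abs_sum_le_sum_abs _ _).trans (Finset.sum_le_sum ?_)
        intro n hn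
        rw [mem_AP] at hn
        have h1 : |xi μ E n ω| ≤ 1 := by
          unfold xi
          have h2 : μ.real (E n) ≤ 1 := measureReal_le_one
          have h3 : 0 ≤ μ.real (E n) := measureReal_nonneg
          by_cases h : ω ∈ E n
          · rw [Set.indicator_of_mem h, abs_le]; constructor <;> linarith
          · rw [Set.indicator_of_notMem h, abs_le]; constructor <;> linarith
        have h2 : 0 ≤ Real.log n := Real.log_natCast_nonneg n
        have h3 : Real.log n ≤ n := Real.log_le_self (Nat.cast_nonneg n)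
        have h4 : (n : ℝ) ≤ x0 := by exact_mod_cast hn.1.2.trans hx
        rw [abs_mul, abs_of_nonneg h2]
        calc Real.log n * |xi μ E n ω| ≤ x0 * 1 := mul_le_mul (h3.trans h4) h1 (abs_nonneg _) (Nat.cast_nonneg _)
          _ = x0 := mul_one _
    _ = (AP q a x).card * (x0 : ℝ) := by rw [Finset.sum_const, nsmul_eq_mul]
    _ ≤ x0 * x0 := by
        apply mul_le_mul_of_nonneg_right _ (Nat.cast_nonneg _)
        have : (AP q a x).card ≤ x := by
          unfold AP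
          refine (Finset.card_filter_le _ _).trans ?_
          rw [Nat.card_Ioc, Nat.sub_zero]
        exact_mod_cast this.trans hx

/-- the upper bound for all moduli -/
theorem up {E : ℕ → Set Ω} (hm : ∀ n, MeasurableSet (E n)) (hE : iIndepSet E μ) (A : ℝ) (hA : 0 < A)
    (T : ℕ → ℕ) (hTm : Monotone T) (hT : Gr A T)
    (hl : ∀ n : ℕ, μ.real (E n) = min 1 (fT T n / Real.log n)) :
    ∀ᵐ ω ∂μ, ∀ ε : ℝ, 0 < ε → ∃ C : ℝ, 0 < C ∧ ∀ x q a : ℕ, 1 ≤ q → q ≤ x → a.Coprime q →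
      |psi {m | ω ∈ E m} x q a - MT T x q| ≤ C * ((x : ℝ) ^ ε * ((x : ℝ) / q) ^ (max (1 / 2) (1 - 1 / A))) := by
  have h1 : ∀ᵐ ω ∂μ, ∀ k : ℕ, ∀ᶠ x : ℕ in atTop, ∀ q a : ℕ, 1 ≤ q → q ≤ x → a < q →
      |dev μ E x q a ω| ≤ (x : ℝ) ^ (1 / ((k : ℝ) + 1)) * Real.sqrt ((x : ℝ) / q) := by
    rw [ae_all_iff]
    intro k
    exact ae_dev hm hE _ (by positivity)
  obtain ⟨Θ, hΘ⟩ : ∃ Θ : ℝ, Θ = max (1 / 2) (1 - 1 / A) := ⟨_, rfl⟩
  have hΘ0 : 1 / 2 ≤ Θ := by rw [hΘ]; exact le_max_left _ _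
  have hΘ1 : 1 - 1 / A ≤ Θ := by rw [hΘ]; exact le_max_right _ _
  have hΘ2 : Θ < 1 := by
    rw [hΘ]
    apply max_lt (by norm_num)
    have : 0 < 1 / A := by positivity
    linarith
  filter_upwards [h1] with ω hω ε hε
  rw [← hΘ]
  obtain ⟨ε', hε'⟩ : ∃ ε' : ℝ, ε' = min ε (1 - Θ) := ⟨_, rfl⟩
  have hε'0 : 0 < ε' := by rw [hε']; exact lt_min hε (by linarith)
  have hε'1 : ε' ≤ ε := by rw [hε']; exact min_le_left _ _
  have hε'2 : Θ + ε' ≤ 1 := by
    have : ε' ≤ 1 - Θ := by rw [hε']; exact min_le_right _ _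
    linarith
  obtain ⟨C1, hC1, k1⟩ := det_small A hA T hTm hT Θ ε' hΘ0 hΘ1 hε'0 hε'2
  obtain ⟨C2, hC2, k2⟩ := means (μ := μ) (E := E) T (sub_pow T (A + 1) (hT 1 one_pos)) hl
  obtain ⟨k, hk⟩ := exists_nat_one_div_lt hε
  obtain ⟨x0, hx0⟩ := eventually_atTop.1 (hω k)
  refine ⟨C1 + C2 + (x0 : ℝ) * x0 + 1, by positivity, ?_⟩
  intro x q a hq hqx ha
  have hq0 : (0 : ℝ) < q := by exact_mod_cast (by omega : 0 < q)
  have hx1 : (1 : ℝ) ≤ x := by exact_mod_cast (hq.trans hqx)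
  have hxq : (1 : ℝ) ≤ (x : ℝ) / q := by
    rw [le_div_iff₀ hq0, one_mul]
    exact_mod_cast hqx
  obtain ⟨R, hR⟩ : ∃ R : ℝ, R = (x : ℝ) ^ ε * ((x : ℝ) / q) ^ Θ := ⟨_, rfl⟩
  rw [← hR]
  have hR1 : 1 ≤ R := by
    rw [hR]
    have h2 := Real.one_le_rpow hx1 hε.le
    have h3 := Real.one_le_rpow hxq (by linarith : 0 ≤ Θ)
    nlinarith
  have hd : |dev μ E x q a ω| ≤ ((x0 : ℝ) * x0 + 1) * R := by
    rw [dev_mod]
    rcases lt_or_ge x x0 with hlt | hge
    · have h2 := dev_triv (μ := μ) (E := E) x x0 q (a % q) hlt.le ω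
      have h3 : (0 : ℝ) ≤ (x0 : ℝ) * x0 := by positivity
      nlinarith
    · have h2 := hx0 x hge q (a % q) hq hqx (Nat.mod_lt _ (by omega))
      have h3 : (x : ℝ) ^ (1 / ((k : ℝ) + 1)) ≤ (x : ℝ) ^ ε := Real.rpow_le_rpow_of_exponent_le hx1 hk.le
      have h4 : Real.sqrt ((x : ℝ) / q) ≤ ((x : ℝ) / q) ^ Θ := by
        rw [Real.sqrt_eq_rpow]
        exact Real.rpow_le_rpow_of_exponent_le hxq hΘ0
      have h5 : (x : ℝ) ^ (1 / ((k : ℝ) + 1)) * Real.sqrt ((x : ℝ) / q) ≤ R := by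
        rw [hR]
        exact mul_le_mul h3 h4 (Real.sqrt_nonneg _) (by positivity)
      have h6 : (0 : ℝ) ≤ (x0 : ℝ) * x0 := by positivity
      nlinarith
  have h2 := k1 x q a hq hqx ha
  rw [ff_sum'] at h2
  have h3 := k2 x q a
  have h4 : (x : ℝ) ^ ε' * ((x : ℝ) / q) ^ Θ ≤ R := by
    rw [hR]
    apply mul_le_mul_of_nonneg_right (Real.rpow_le_rpow_of_exponent_le hx1 hε'1) (by positivity)
  have h5 : C1 * ((x : ℝ) ^ ε' * ((x : ℝ) / q) ^ Θ) ≤ C1 * R := mul_le_mul_of_nonneg_left h4 hC1.le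
  rw [psi_eq (μ := μ)]
  have h6 : C2 ≤ C2 * R := by nlinarith
  rw [abs_le] at hd h2 h3 ⊢
  constructor
  · nlinarith [hd.1, h2.1, h3.1]
  · nlinarith [hd.2, h2.2, h3.2]

/-- the main term for moduli with small prime factors -/
theorem MT_smooth (A : ℝ) (hA : 0 < A) (T : ℕ → ℕ) (hTm : Monotone T) (hT : Gr A T) (ε : ℝ) (hε : 0 < ε) :
    ∃ C : ℝ, 0 < C ∧ ∀ x q : ℕ, 1 ≤ q → q ≤ x → (∀ p, p.Prime → p ∣ q → p ≤ T (Nat.sqrt x)) →
      |MT T x q - (x : ℝ) / q.totient| ≤ C * ((x : ℝ) ^ ε * ((x : ℝ) / q) ^ (1 / 2 : ℝ)) := by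
  obtain ⟨x0, hx0⟩ := eventually_atTop.1 (sub_pow T (A + 1) (hT 1 one_pos) ε hε)
  refine ⟨(T x0 : ℝ) + 2, by positivity, ?_⟩
  intro x q hq hqx hp
  have hq0 : (0 : ℝ) < q := by exact_mod_cast (by omega : 0 < q)
  have hq1 : (1 : ℝ) ≤ q := by exact_mod_cast hq
  have hx1 : (1 : ℝ) ≤ x := by exact_mod_cast (hq.trans hqx)
  have hx00 : (0 : ℝ) < x := by linarith
  have hφ0 : 0 < q.totient := Nat.totient_pos.2 (by omega)
  have hφ : (0 : ℝ) < q.totient := by exact_mod_cast hφ0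
  have hTx : (T x : ℝ) + 1 ≤ ((T x0 : ℝ) + 2) * (x : ℝ) ^ ε := by
    have h1 := Real.one_le_rpow hx1 hε.le
    rcases lt_or_ge x x0 with hlt | hge
    · have h2 : (T x : ℝ) ≤ T x0 := by exact_mod_cast hTm hlt.le
      have h3 : (0 : ℝ) ≤ (T x0 : ℝ) := Nat.cast_nonneg _
      nlinarith
    · have h2 := hx0 x hge
      have h3 : (0 : ℝ) ≤ (T x0 : ℝ) := Nat.cast_nonneg _
      nlinarith
  -- the density when all prime factors are small
  have htot : (q : ℝ) * ∏ p ∈ q.primeFactors, (1 - 1 / (p : ℝ)) = q.totient := by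
    have h1 := Nat.totient_eq_mul_prod_factors q
    have h2 : ((q.totient : ℚ) : ℝ) = (((q : ℚ) * ∏ p ∈ q.primeFactors, (1 - (p : ℚ)⁻¹) : ℚ) : ℝ) := by rw [h1]
    push_cast at h2
    rw [h2]
    congr 1
    apply Finset.prod_congr rfl
    intro p _
    rw [one_div]
  have hmt : ∀ y, (∀ p, p.Prime → p ∣ q → p ≤ y) → mt y q = 1 / q.totient := by
    intro y hy
    unfold mt
    have h1 : (Pr y).filter (fun p => p ∣ q) = q.primeFactors := by
      ext p
      rw [mem_filter, mem_Pr, Nat.mem_primeFactors]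
      constructor
      · rintro ⟨⟨h2, h3⟩, h4⟩
        exact ⟨h2, h4, by omega⟩
      · rintro ⟨h2, h3, _⟩
        exact ⟨⟨h2, hy p h2 h3⟩, h3⟩
    rw [h1, Finset.prod_inv_distrib, ← htot]
    field_simp
  have hmt2 : ∀ y, |mt y q - 1 / q.totient| ≤ 1 / q.totient := by
    intro y
    have h1 : mt y q ≤ 1 / q.totient := by
      have h2 : mt y q ≤ mt (max y q) q := by
        unfold mt
        apply mul_le_mul_of_nonneg_left _ (by positivity)
        have h3 : (Pr y).filter (fun p => p ∣ q) ⊆ (Pr (max y q)).filter (fun p => p ∣ q) := by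
          intro p hp
          rw [mem_filter, mem_Pr] at hp ⊢
          exact ⟨⟨hp.1.1, hp.1.2.trans (le_max_left _ _)⟩, hp.2⟩
        rw [← Finset.prod_sdiff h3]
        have h4 : (1 : ℝ) ≤ ∏ p ∈ (Pr (max y q)).filter (fun p => p ∣ q) \ (Pr y).filter (fun p => p ∣ q),
            (1 - 1 / (p : ℝ))⁻¹ := by
          calc (1 : ℝ) = ∏ p ∈ (Pr (max y q)).filter (fun p => p ∣ q) \ (Pr y).filter (fun p => p ∣ q), (1 : ℝ) := by
                rw [Finset.prod_const_one]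
            _ ≤ _ := by
                apply Finset.prod_le_prod
                · intro p _; exact zero_le_one
                · intro p hp
                  have hp' := (Finset.mem_sdiff.1 hp).1
                  rw [mem_filter, mem_Pr] at hp'
                  exact one_le_inv hp'.1.1
        have h5 : (0 : ℝ) ≤ ∏ p ∈ (Pr y).filter (fun p => p ∣ q), (1 - 1 / (p : ℝ))⁻¹ := by
          apply Finset.prod_nonneg
          intro p hp
          rw [mem_filter, mem_Pr] at hp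
          exact (inv_pos.2 (one_sub_pos hp.1.1)).le
        exact le_mul_of_one_le_left h5 h4
      refine h2.trans (le_of_eq (hmt _ ?_))
      intro p _ hpq
      exact (Nat.le_of_dvd (by omega) hpq).trans (le_max_right _ _)
    have h2 := mt_nonneg y q
    rw [abs_le]
    constructor <;> linarith
  have h1 : |MT T x q - (x : ℝ) / q.totient| ≤ (Nat.sqrt x : ℝ) * (1 / q.totient) := by
    have h2 : (x : ℝ) / q.totient = ∑ n ∈ Ioc 0 x, (1 / (q.totient : ℝ)) := by
      rw [Finset.sum_const, Nat.card_Ioc, nsmul_eq_mul, Nat.sub_zero]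
      ring
    rw [h2]
    unfold MT
    rw [← Finset.sum_sub_distrib]
    refine (Finset.abs_sum_le_sum_abs _ _).trans ?_
    rw [← Finset.sum_filter_add_sum_filter_not (Ioc 0 x) (fun n => n ≤ Nat.sqrt x)]
    have h3 : ∑ n ∈ (Ioc 0 x).filter (fun n => ¬ n ≤ Nat.sqrt x), |mt (T n) q - 1 / (q.totient : ℝ)| = 0 := by
      apply Finset.sum_eq_zero
      intro n hn
      rw [mem_filter, not_le] at hn
      rw [hmt (T n) (fun p h4 h5 => (hp p h4 h5).trans (hTm hn.2.le)), sub_self, abs_zero]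
    rw [h3, add_zero]
    calc ∑ n ∈ (Ioc 0 x).filter (fun n => n ≤ Nat.sqrt x), |mt (T n) q - 1 / (q.totient : ℝ)|
        ≤ ∑ n ∈ (Ioc 0 x).filter (fun n => n ≤ Nat.sqrt x), (1 / (q.totient : ℝ)) :=
          Finset.sum_le_sum fun n _ => hmt2 (T n)
      _ ≤ ∑ n ∈ Ioc 0 (Nat.sqrt x), (1 / (q.totient : ℝ)) := by
          apply Finset.sum_le_sum_of_subset_of_nonneg
          · intro n hn
            rw [mem_filter, mem_Ioc] at hn
            rw [mem_Ioc]
            exact ⟨hn.1.1, hn.2⟩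
          · intro n _ _
            positivity
      _ = _ := by rw [Finset.sum_const, Nat.card_Ioc, nsmul_eq_mul, Nat.sub_zero]
  refine h1.trans ?_
  -- `q / φ(q) ≤ W (T x)`
  have h2 : 1 / (q.totient : ℝ) ≤ (1 / q) * ((T x : ℝ) + 1) := by
    have h3 : ∀ p, p.Prime → p ∣ q → p ≤ T x := fun p h4 h5 =>
      (hp p h4 h5).trans (hTm (Nat.sqrt_le_self x))
    rw [← hmt (T x) h3]
    unfold mt
    apply mul_le_mul_of_nonneg_left _ (by positivity)
    refine le_trans ?_ (W_le' (T x))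
    have h4 : W (T x) = (∏ p ∈ (Pr (T x)).filter (fun p => p ∣ q), (1 - 1 / (p : ℝ))⁻¹) *
        ∏ p ∈ (Pr (T x)).filter (fun p => ¬ p ∣ q), (1 - 1 / (p : ℝ))⁻¹ := by
      rw [Finset.prod_filter_mul_prod_filter_not]
      rfl
    rw [h4]
    have h5 : (1 : ℝ) ≤ ∏ p ∈ (Pr (T x)).filter (fun p => ¬ p ∣ q), (1 - 1 / (p : ℝ))⁻¹ := by
      calc (1 : ℝ) = ∏ p ∈ (Pr (T x)).filter (fun p => ¬ p ∣ q), (1 : ℝ) := by rw [Finset.prod_const_one]
        _ ≤ _ := by
          apply Finset.prod_le_prod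
          · intro p _; exact zero_le_one
          · intro p hp
            rw [mem_filter, mem_Pr] at hp
            exact one_le_inv hp.1.1
    have h6 : (0 : ℝ) ≤ ∏ p ∈ (Pr (T x)).filter (fun p => p ∣ q), (1 - 1 / (p : ℝ))⁻¹ := by
      apply Finset.prod_nonneg
      intro p hp
      rw [mem_filter, mem_Pr] at hp
      exact (inv_pos.2 (one_sub_pos hp.1.1)).le
    exact le_mul_of_one_le_right h6 h5
  have h3 : (Nat.sqrt x : ℝ) ≤ (x : ℝ) ^ (1 / 2 : ℝ) := by
    rw [← Real.sqrt_eq_rpow]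
    exact Real.nat_sqrt_le_real_sqrt
  have h4 : (x : ℝ) ^ (1 / 2 : ℝ) * (1 / q) ≤ ((x : ℝ) / q) ^ (1 / 2 : ℝ) := by
    rw [Real.div_rpow hx00.le hq0.le, mul_one_div]
    apply div_le_div_of_nonneg_left (by positivity) (by positivity)
    calc (q : ℝ) ^ (1 / 2 : ℝ) ≤ (q : ℝ) ^ (1 : ℝ) := Real.rpow_le_rpow_of_exponent_le hq1 (by norm_num)
      _ = q := Real.rpow_one _
  calc (Nat.sqrt x : ℝ) * (1 / q.totient) ≤ (x : ℝ) ^ (1 / 2 : ℝ) * ((1 / q) * ((T x : ℝ) + 1)) :=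
        mul_le_mul h3 h2 (by positivity) (by positivity)
    _ = ((x : ℝ) ^ (1 / 2 : ℝ) * (1 / q)) * ((T x : ℝ) + 1) := by ring
    _ ≤ ((x : ℝ) / q) ^ (1 / 2 : ℝ) * (((T x0 : ℝ) + 2) * (x : ℝ) ^ ε) :=
        mul_le_mul h4 hTx (by positivity) (by positivity)
    _ = _ := by ring

end Pool.Agent.U746.RH
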