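import Pool.Agent.U746.RH.Low

set_option autoImplicit false

/-! # Large values of the error term near the saddle point -/

open Finset Filter Topology

namespace Pool.Agent.U746.RH

open Pool.Agent.U839.Sv (Pr mem_Pr)
open Pool.Agent.U839.Thin (tlog)

theorem Fs_tendsto (σ : ℝ) (h0 : 0 ≤ σ) (h1 : σ < 1) : Tendsto (fun y : ℕ => Fs (Pr y) σ) atTop atTop := by
  rw [tendsto_atTop]
  intro b
  filter_upwards [Fs_big σ b h0 h1 0] with y hy
  simpa using hy

theorem expo_small (η M c : ℝ) (hη : 0 < η) (hM : 0 ≤ M) (hc : 0 < c) :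
    ∀ᶠ F : ℝ in atTop, 8 / η * F * Real.exp (-(η ^ 2 / 16) * F) + 2 * η * M * F ^ 2 * Real.exp (-(1 / 2) * F) < c := by
  have h1 := tendsto_rpow_mul_exp_neg_mul_atTop_nhds_zero 1 (η ^ 2 / 16) (by positivity)
  have h2 := tendsto_rpow_mul_exp_neg_mul_atTop_nhds_zero 2 (1 / 2) (by norm_num)
  have h3 := (h1.const_mul (8 / η)).add (h2.const_mul (2 * η * M))
  rw [mul_zero, mul_zero, add_zero] at h3
  filter_upwards [h3.eventually_lt_const hc] with F hF
  have e1 : F ^ (1 : ℝ) = F := Real.rpow_one F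
  have e2 : F ^ (2 : ℝ) = F ^ 2 := by
    rw [show (2 : ℝ) = ((2 : ℕ) : ℝ) by norm_num, Real.rpow_natCast]
  rw [e1, e2] at hF
  calc _ = 8 / η * (F * Real.exp (-(η ^ 2 / 16) * F)) + 2 * η * M * (F ^ 2 * Real.exp (-(1 / 2) * F)) := by ring
    _ < c := hF

theorem osc (σ : ℝ) (h0 : 0 < σ) (h1 : σ < 1) (η : ℝ) (hη : 0 < η) (hη1 : η ≤ 1 / 2) (M : ℝ) (hM : 0 ≤ M) :
    ∀ᶠ y : ℕ in atTop, ∃ x : ℝ, Real.exp ((1 - η) * (Real.log y * Fs (Pr y) σ)) < x ∧
      x ≤ Real.exp ((1 + η) * (Real.log y * Fs (Pr y) σ)) ∧ M * x ^ σ < |DD (Pr y) x| := by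
  have h2 : (2 : ℝ) ^ (-σ) < 1 := Real.rpow_lt_one_of_one_lt_of_neg (by norm_num) (by linarith)
  obtain ⟨c1, hc1⟩ : ∃ c1 : ℝ, c1 = 1 - (2 : ℝ) ^ (-σ) := ⟨_, rfl⟩
  have hc10 : 0 < c1 := by rw [hc1]; linarith
  obtain ⟨C, hC⟩ : ∃ C : ℝ, C = 1 / (1 - (2 : ℝ) ^ (-σ)) := ⟨_, rfl⟩
  have hC0 : 0 < C := by rw [hC, ← hc1]; positivity
  obtain ⟨c, t0, hc, ht0, hlow⟩ := fr_low σ h0 h1
  obtain ⟨δ0, hδ0⟩ : ∃ δ0 : ℝ, δ0 = min (1 / 8) (η ^ 2 / 8 / (7 + C)) := ⟨_, rfl⟩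
  have hδ00 : 0 < δ0 := by rw [hδ0]; exact lt_min (by norm_num) (by positivity)
  have hδ01 : δ0 ≤ 1 / 8 := by rw [hδ0]; exact min_le_left _ _
  have hδ02 : (7 + C) * δ0 ≤ η ^ 2 / 8 := by
    have h3 : δ0 ≤ η ^ 2 / 8 / (7 + C) := by rw [hδ0]; exact min_le_right _ _
    rw [le_div_iff₀ (by positivity)] at h3
    linarith
  obtain ⟨δ, hδ⟩ : ∃ δ : ℝ, δ = η ^ 2 / 32 := ⟨_, rfl⟩
  have hδp : 0 < δ := by rw [hδ]; positivity
  obtain ⟨v, hv⟩ : ∃ v : ℝ, v = η / 2 := ⟨_, rfl⟩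
  have hv0 : 0 < v := by rw [hv]; positivity
  have hz : Tendsto (fun y : ℕ => Real.pi / Real.log y) atTop (𝓝 0) := tendsto_const_nhds.div_atTop tlog
  have hvL : Tendsto (fun y : ℕ => v / Real.log y) atTop (𝓝 0) := tendsto_const_nhds.div_atTop tlog
  filter_upwards [PP_low σ h0 h1 δ0 hδ00 hδ01, Fs_up σ δ h0.le h1 hδp v hv0.le, Fs_big σ 1 h0.le h1 1,
    (Fs_tendsto σ h0.le h1).eventually (expo_small η M (c1 * c) hη hM (by positivity)),
    hz.eventually_lt_const ht0, hvL.eventually_le_const (show (0 : ℝ) < 1 - σ by linarith),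
    hvL.eventually_le_const h0, eventually_gt_atTop 1, tlog.eventually_ge_atTop 1]
    with y k1 k2 k3 k4 k5 k6 k7 k8 k9
  rw [← hC] at k1
  have kd := Fs_down σ v hv0.le y k8
  obtain ⟨L, hL⟩ : ∃ L : ℝ, L = Real.log y := ⟨_, rfl⟩
  have hL1 : 1 ≤ L := by rw [hL]; exact k9
  have hL0 : 0 < L := by linarith
  obtain ⟨F, hF⟩ : ∃ F : ℝ, F = Fs (Pr y) σ := ⟨_, rfl⟩
  have hlow' : c ≤ ‖mellin fr (-(zz σ y))‖ := by
    unfold zz
    apply hlow
    rw [abs_of_nonneg (div_nonneg Real.pi_pos.le (by linarith [k9]))]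
    exact k5
  rw [← hF, ← hL] at k2 k3 kd ⊢
  rw [← hF] at k1 k4
  rw [← hL] at k6 k7
  rw [one_mul, pow_one] at k3
  have hF1 : 1 ≤ F := hL1.trans k3
  have hF0 : 0 < F := by linarith
  by_contra hcon
  push Not at hcon
  have hS : ∀ p ∈ Pr y, 0 < p := fun p hp => (mem_Pr.1 hp).1.pos
  obtain ⟨X1, hX1⟩ : ∃ X1 : ℝ, X1 = Real.exp ((1 - η) * (L * F)) := ⟨_, rfl⟩
  obtain ⟨X2, hX2⟩ : ∃ X2 : ℝ, X2 = Real.exp ((1 + η) * (L * F)) := ⟨_, rfl⟩
  have hX10 : 0 < X1 := by rw [hX1]; exact Real.exp_pos _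
  have hX20 : 0 < X2 := by rw [hX2]; exact Real.exp_pos _
  have hX12 : X1 ≤ X2 := by
    rw [hX1, hX2]
    apply Real.exp_le_exp.2
    have : 0 < L * F := by positivity
    nlinarith
  rw [← hX1, ← hX2] at hcon
  have hvL0 : 0 < v / L := by positivity
  have key := main_ineq (Pr y) hS (zz σ y) σ (σ + v / L) (σ - v / L) (zz_re σ y) (by linarith) (by linarith)
    (by linarith) (by linarith) X1 X2 M hX10 hX12 hM (fun x hx1 hx2 => hcon x hx1 hx2)
  -- the left side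
  have l1 : c1 ≤ ‖1 - Complex.exp (-(zz σ y * Real.log 2))‖ := by
    have h4 := norm_sub_norm_le (1 : ℂ) (Complex.exp (-(zz σ y * Real.log 2)))
    have h5 := fac_norm σ y 2 (by norm_num)
    rw [Nat.cast_ofNat] at h5
    rw [norm_one, h5] at h4
    rw [hc1]
    exact h4
  have l2 : Real.exp (F * (1 - η ^ 2 / 8)) ≤ ‖PP (Pr y) (zz σ y)‖ := by
    refine le_trans (Real.exp_le_exp.2 ?_) k1
    apply mul_le_mul_of_nonneg_left _ hF0.le
    linarith
  have l3 : c1 * (Real.exp (F * (1 - η ^ 2 / 8)) * c) ≤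
      ‖1 - Complex.exp (-(zz σ y * Real.log 2))‖ * (‖PP (Pr y) (zz σ y)‖ * ‖mellin fr (-(zz σ y))‖) := by
    apply mul_le_mul l1 _ (by positivity) (norm_nonneg _)
    exact mul_le_mul l2 hlow' hc.le (norm_nonneg _)
  -- the right side
  have hpow : ∀ a b : ℝ, (Real.exp a) ^ b = Real.exp (a * b) := by
    intro a b
    rw [← Real.exp_mul]
  have r1 : 2 * Real.exp (Fs (Pr y) (σ + v / L)) * X1 ^ (σ + v / L - σ) / (σ + v / L - σ) ≤
      4 / η * F * Real.exp (F * (1 - 3 * η ^ 2 / 16)) := by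
    have e1 : σ + v / L - σ = v / L := by ring
    rw [e1, hX1, hpow]
    have e2 : (1 - η) * (L * F) * (v / L) = (1 - η) * F * v := by field_simp
    rw [e2]
    have e3 : 2 * Real.exp (Fs (Pr y) (σ + v / L)) * Real.exp ((1 - η) * F * v) / (v / L) =
        (2 / v * L) * Real.exp (Fs (Pr y) (σ + v / L) + (1 - η) * F * v) := by
      rw [Real.exp_add]
      field_simp
    rw [e3]
    have e4 : 2 / v = 4 / η := by rw [hv]; field_simp; norm_num
    rw [e4]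
    apply mul_le_mul _ _ (Real.exp_pos _).le (by positivity)
    · exact mul_le_mul_of_nonneg_left k3 (by positivity)
    · apply Real.exp_le_exp.2
      have e5 : Real.exp (-(v * (1 - δ))) ≤ 1 - v * (1 - δ) + v ^ 2 := by
        have h5 : 0 ≤ v * (1 - δ) := by
          apply mul_nonneg hv0.le
          rw [hδ]; nlinarith
        have h6 : v * (1 - δ) ≤ v := by nlinarith
        have h7 : |-(v * (1 - δ))| ≤ 1 := by
          rw [abs_neg, abs_of_nonneg h5]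
          rw [hv] at h6 ⊢
          linarith
        have h8 := (abs_le.1 (Real.abs_exp_sub_one_sub_id_le h7)).2
        have h9 : (-(v * (1 - δ))) ^ 2 ≤ v ^ 2 := by
          rw [neg_sq]
          exact pow_le_pow_left₀ h5 h6 2
        linarith
      have e6 : Fs (Pr y) (σ + v / L) ≤ (1 - v * (1 - δ) + v ^ 2 + δ) * F := by
        refine k2.trans ?_
        apply mul_le_mul_of_nonneg_right _ hF0.le
        linarith
      have e7 : (1 - v * (1 - δ) + v ^ 2 + δ) + (1 - η) * v ≤ 1 - 3 * η ^ 2 / 16 := by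
        rw [hv, hδ]
        nlinarith [mul_pos hη hη]
      calc Fs (Pr y) (σ + v / L) + (1 - η) * F * v ≤ ((1 - v * (1 - δ) + v ^ 2 + δ) + (1 - η) * v) * F := by
            linarith
        _ ≤ (1 - 3 * η ^ 2 / 16) * F := mul_le_mul_of_nonneg_right e7 hF0.le
        _ = _ := mul_comm _ _
  have r3 : 2 * Real.exp (Fs (Pr y) (σ - v / L)) * X2 ^ (-(σ - (σ - v / L))) / (σ - (σ - v / L)) ≤
      4 / η * F * Real.exp (F * (1 - 3 * η ^ 2 / 16)) := by
    have e1 : σ - (σ - v / L) = v / L := by ring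
    rw [e1, hX2, hpow]
    have e2 : (1 + η) * (L * F) * (-(v / L)) = -((1 + η) * F * v) := by field_simp
    rw [e2]
    have e3 : 2 * Real.exp (Fs (Pr y) (σ - v / L)) * Real.exp (-((1 + η) * F * v)) / (v / L) =
        (2 / v * L) * Real.exp (Fs (Pr y) (σ - v / L) + -((1 + η) * F * v)) := by
      rw [Real.exp_add]
      field_simp
    rw [e3]
    have e4 : 2 / v = 4 / η := by rw [hv]; field_simp; norm_num
    rw [e4]
    apply mul_le_mul _ _ (Real.exp_pos _).le (by positivity)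
    · exact mul_le_mul_of_nonneg_left k3 (by positivity)
    · apply Real.exp_le_exp.2
      have e5 : Real.exp v ≤ 1 + v + v ^ 2 := by
        have h7 : |v| ≤ 1 := by
          rw [abs_of_nonneg hv0.le, hv]
          linarith
        have h8 := (abs_le.1 (Real.abs_exp_sub_one_sub_id_le h7)).2
        linarith
      have e6 : Fs (Pr y) (σ - v / L) ≤ (1 + v + v ^ 2) * F := kd.trans (mul_le_mul_of_nonneg_right e5 hF0.le)
      have e7 : (1 + v + v ^ 2) - (1 + η) * v ≤ 1 - 3 * η ^ 2 / 16 := by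
        rw [hv]
        nlinarith [mul_pos hη hη]
      calc Fs (Pr y) (σ - v / L) + -((1 + η) * F * v) ≤ ((1 + v + v ^ 2) - (1 + η) * v) * F := by
            linarith
        _ ≤ (1 - 3 * η ^ 2 / 16) * F := mul_le_mul_of_nonneg_right e7 hF0.le
        _ = _ := mul_comm _ _
  have r2 : M * Real.log (X2 / X1) ≤ 2 * η * M * F ^ 2 := by
    rw [hX1, hX2, ← Real.exp_sub, Real.log_exp]
    have e1 : (1 + η) * (L * F) - (1 - η) * (L * F) = 2 * η * (L * F) := by ring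
    rw [e1]
    have e2 : L * F ≤ F ^ 2 := by nlinarith
    have e3 : 2 * η * (L * F) ≤ 2 * η * F ^ 2 := mul_le_mul_of_nonneg_left e2 (by positivity)
    calc M * (2 * η * (L * F)) ≤ M * (2 * η * F ^ 2) := mul_le_mul_of_nonneg_left e3 hM
      _ = _ := by ring
  have fin : c1 * (Real.exp (F * (1 - η ^ 2 / 8)) * c) ≤
      8 / η * F * Real.exp (F * (1 - 3 * η ^ 2 / 16)) + 2 * η * M * F ^ 2 := by
    have e1 : 8 / η * F * Real.exp (F * (1 - 3 * η ^ 2 / 16)) =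
        4 / η * F * Real.exp (F * (1 - 3 * η ^ 2 / 16)) + 4 / η * F * Real.exp (F * (1 - 3 * η ^ 2 / 16)) := by ring
    rw [e1]
    linarith
  -- divide
  have hE : 0 < Real.exp (F * (1 - η ^ 2 / 8)) := Real.exp_pos _
  have d1 : Real.exp (F * (1 - 3 * η ^ 2 / 16)) = Real.exp (F * (1 - η ^ 2 / 8)) * Real.exp (-(η ^ 2 / 16) * F) := by
    rw [← Real.exp_add]
    congr 1
    ring
  have d2 : (1 : ℝ) ≤ Real.exp (F * (1 - η ^ 2 / 8)) * Real.exp (-(1 / 2) * F) := by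
    rw [← Real.exp_add]
    apply Real.one_le_exp
    have h5 : F * (1 - η ^ 2 / 8) + -(1 / 2) * F = F * (1 / 2 - η ^ 2 / 8) := by ring
    rw [h5]
    apply mul_nonneg hF0.le
    have h6 : η ^ 2 ≤ (1 / 2) ^ 2 := pow_le_pow_left₀ hη.le hη1 2
    linarith
  have d3 : 2 * η * M * F ^ 2 ≤ Real.exp (F * (1 - η ^ 2 / 8)) * (2 * η * M * F ^ 2 * Real.exp (-(1 / 2) * F)) := by
    calc 2 * η * M * F ^ 2 = 2 * η * M * F ^ 2 * 1 := (mul_one _).symm
      _ ≤ 2 * η * M * F ^ 2 * (Real.exp (F * (1 - η ^ 2 / 8)) * Real.exp (-(1 / 2) * F)) :=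
          mul_le_mul_of_nonneg_left d2 (by positivity)
      _ = _ := by ring
  have d4 : Real.exp (F * (1 - η ^ 2 / 8)) * (c1 * c) ≤ Real.exp (F * (1 - η ^ 2 / 8)) *
      (8 / η * F * Real.exp (-(η ^ 2 / 16) * F) + 2 * η * M * F ^ 2 * Real.exp (-(1 / 2) * F)) := by
    rw [d1] at fin
    calc Real.exp (F * (1 - η ^ 2 / 8)) * (c1 * c) = c1 * (Real.exp (F * (1 - η ^ 2 / 8)) * c) := by ring
      _ ≤ 8 / η * F * (Real.exp (F * (1 - η ^ 2 / 8)) * Real.exp (-(η ^ 2 / 16) * F)) + 2 * η * M * F ^ 2 := fin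
      _ ≤ _ := by
          rw [mul_add]
          apply add_le_add _ d3
          exact le_of_eq (by ring)
  have d5 := le_of_mul_le_mul_left d4 hE
  linarith

end Pool.Agent.U746.RH
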