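import Pool.Agent.U746.RH.Cns
import Pool.Agent.U746.RH.Sad
import Pool.Agent.U746.RH.Up

set_option autoImplicit false

/-! # The lower bound for the error -/

open Finset Filter Topology MeasureTheory ProbabilityTheory

namespace Pool.Agent.U746.RH

open Pool.Agent.U839.Sv (Pr mem_Pr W W_pos W_ge_one fT sub_pow)
open Pool.Agent.U839.Thin (tlog)

theorem JJ_eq (σ η : ℝ) (hη : η ≤ 1) (j n : ℕ) (hj : j + 1 ≤ NJ σ η j) (h1 : NJ σ η j ≤ n) (h2 : n < NJ σ η (j + 1)) :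
    JJ σ η n = j := by
  unfold JJ
  rw [Nat.findGreatest_eq_iff]
  refine ⟨by omega, fun _ => h1, ?_⟩
  intro i hi _ hi2
  have := NJ_mono σ η hη (show j + 1 ≤ i from hi)
  omega

theorem JJ_tendsto (σ η : ℝ) : Tendsto (JJ σ η) atTop atTop := by
  rw [tendsto_atTop]
  intro j
  filter_upwards [eventually_ge_atTop (max j (NJ σ η j))] with n hn
  unfold JJ
  exact Nat.le_findGreatest ((le_max_left _ _).trans hn) ((le_max_right _ _).trans hn)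

theorem JJ_spec (σ η : ℝ) (hj : ∀ᶠ j : ℕ in atTop, j + 1 ≤ NJ σ η j) :
    ∀ᶠ n : ℕ in atTop, NJ σ η (JJ σ η n) ≤ n ∧ n < NJ σ η (JJ σ η n + 1) := by
  filter_upwards [(JJ_tendsto σ η).eventually hj, (JJ_tendsto σ η).eventually (eventually_gt_atTop 0)] with n h1 h2
  have h3 : NJ σ η (JJ σ η n) ≤ n := by
    exact Nat.findGreatest_of_ne_zero (P := fun j => NJ σ η j ≤ n)
      (show Nat.findGreatest (fun j => NJ σ η j ≤ n) n = JJ σ η n from rfl) (by omega)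
  refine ⟨h3, ?_⟩
  by_contra hcon
  rw [not_lt] at hcon
  have h4 : JJ σ η n + 1 ≤ n := by omega
  exact Nat.findGreatest_is_greatest (P := fun j => NJ σ η j ≤ n) (n := n) (k := JJ σ η n + 1)
    (by show JJ σ η n < JJ σ η n + 1; omega) h4 hcon

theorem log_NJ_le (σ η : ℝ) (h0 : 0 ≤ η) (j : ℕ) (hN : 1 ≤ NJ σ η j) (hQ : 0 ≤ Qj σ j) :
    Real.log (NJ σ η j) ≤ Qj σ j := by
  have h1 : (NJ σ η j : ℝ) ≤ Real.exp ((1 - η) * Qj σ j) / 2 := Nat.floor_le (by positivity)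
  have h2 : (NJ σ η j : ℝ) ≤ Real.exp ((1 - η) * Qj σ j) := by
    have := Real.exp_pos ((1 - η) * Qj σ j)
    linarith
  have h3 : (0 : ℝ) < NJ σ η j := by exact_mod_cast hN
  rw [Real.log_le_iff_le_exp h3]
  refine h2.trans (Real.exp_le_exp.2 ?_)
  nlinarith

theorem two_rpow (σ : ℝ) (j : ℕ) : ((2 : ℝ) ^ (j + 1)) ^ (1 - σ) = (2 : ℝ) ^ (1 - σ) * ((2 : ℝ) ^ j) ^ (1 - σ) := by
  rw [pow_succ, Real.mul_rpow (by positivity) (by norm_num), mul_comm]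

/-- the sizes of the blocks -/
theorem sizes (σ η : ℝ) (h0 : 0 ≤ σ) (h1 : σ < 1) (hη : 0 < η)
    (hb : ∀ᶠ j : ℕ in atTop, Real.exp ((1 + η) * Qj σ j) < NJ σ η (j + 1) ∧ j + 1 ≤ NJ σ η j ∧
      Real.exp (Qj σ j / 4) ≤ NJ σ η j) :
    ∃ c K : ℝ, 0 < c ∧ 0 < K ∧ ∀ᶠ n : ℕ in atTop,
      c * ((2 : ℝ) ^ JJ σ η n) ^ (1 - σ) ≤ Real.log n ∧ Real.log n ≤ K * ((2 : ℝ) ^ JJ σ η n) ^ (1 - σ) ∧
      Qj σ (JJ σ η n + 1) ≤ K * ((2 : ℝ) ^ JJ σ η n) ^ (1 - σ) := by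
  obtain ⟨κ, K, c, hκ, hκ1, hK, hc, hf⟩ := Qj_facts σ h0 h1
  have hf2 := (tendsto_add_atTop_nat 1).eventually hf
  have hb2 := (tendsto_add_atTop_nat 1).eventually hb
  refine ⟨c / 4, K * 2 ^ (1 - σ), by positivity, by positivity, ?_⟩
  filter_upwards [JJ_spec σ η (hb.mono fun j h => h.2.1), (JJ_tendsto σ η).eventually (hf.and (hf2.and (hb.and hb2))),
    eventually_ge_atTop 1] with n g1 g2 g3
  obtain ⟨j, hj⟩ : ∃ j, j = JJ σ η n := ⟨_, rfl⟩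
  rw [← hj] at g1 g2 ⊢
  obtain ⟨g21, g22, g23, g24⟩ := g2
  have hp : 0 < ((2 : ℝ) ^ j) ^ (1 - σ) := by positivity
  have hn0 : (0 : ℝ) < n := by exact_mod_cast g3
  have e1 : Qj σ (j + 1) ≤ K * 2 ^ (1 - σ) * ((2 : ℝ) ^ j) ^ (1 - σ) := by
    refine g22.2.2.trans (le_of_eq ?_)
    rw [two_rpow]
    ring
  refine ⟨?_, ?_, e1⟩
  · have h2 : Real.exp (Qj σ j / 4) ≤ n := g23.2.2.trans (by exact_mod_cast g1.1)
    have h3 := (Real.le_log_iff_exp_le hn0).2 h2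
    have h4 := g21.2.1
    linarith
  · refine le_trans ?_ e1
    have h2 : Real.log n ≤ Real.log (NJ σ η (j + 1)) := by
      apply Real.log_le_log hn0
      exact_mod_cast g1.2.le
    refine h2.trans (log_NJ_le σ η hη.le (j + 1) (by omega) ?_)
    refine le_trans ?_ g22.2.1
    positivity

/-- the size of the sieve -/
theorem TT_size (A η : ℝ) (hA : 1 ≤ A) (hη : 0 < η)
    (hb : ∀ᶠ j : ℕ in atTop, Real.exp ((1 + η) * Qj (1 - 1 / A) j) < NJ (1 - 1 / A) η (j + 1) ∧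
      j + 1 ≤ NJ (1 - 1 / A) η j ∧ Real.exp (Qj (1 - 1 / A) j / 4) ≤ NJ (1 - 1 / A) η j) :
    ∃ c C : ℝ, 0 < c ∧ 0 < C ∧ ∀ᶠ n : ℕ in atTop,
      c * (Real.log n) ^ A ≤ TT (1 - 1 / A) η n ∧ (TT (1 - 1 / A) η n : ℝ) ≤ C * (Real.log n) ^ A := by
  have hA0 : 0 < A := by linarith
  have hA1 : 1 / A ≤ 1 := by rw [div_le_one hA0]; exact hA
  have hA2 : 0 < 1 / A := by positivity
  obtain ⟨c, K, hc, hK, hf⟩ := sizes (1 - 1 / A) η (by linarith) (by linarith) hη hb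
  refine ⟨(1 / K) ^ A, (1 / c) ^ A, by positivity, by positivity, ?_⟩
  filter_upwards [hf, eventually_ge_atTop 1] with n g1 g2
  have hL : 0 ≤ Real.log n := Real.log_natCast_nonneg n
  obtain ⟨j, hj⟩ : ∃ j, j = JJ (1 - 1 / A) η n := ⟨_, rfl⟩
  unfold TT
  rw [← hj] at g1 ⊢
  have e : (1 : ℝ) - (1 - 1 / A) = 1 / A := by ring
  rw [e] at g1
  have h2 : (((2 : ℝ) ^ j) ^ (1 / A)) ^ A = 2 ^ j := by
    rw [← Real.rpow_mul (by positivity), one_div_mul_cancel hA0.ne', Real.rpow_one]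
  have hp : 0 ≤ ((2 : ℝ) ^ j) ^ (1 / A) := by positivity
  push_cast
  constructor
  · rw [← Real.mul_rpow (by positivity) hL, ← h2]
    apply Real.rpow_le_rpow (by positivity) _ hA0.le
    rw [one_div, inv_mul_le_iff₀ hK]
    exact g1.2.1
  · rw [← Real.mul_rpow (by positivity) hL]
    nth_rewrite 1 [← h2]
    apply Real.rpow_le_rpow hp _ hA0.le
    rw [one_div c, le_inv_mul_iff₀ hc]
    exact g1.1

theorem Gr_of (A C : ℝ) (T : ℕ → ℕ) (hC : 0 < C) (h : ∀ᶠ n : ℕ in atTop, (T n : ℝ) ≤ C * (Real.log n) ^ A) : Gr A T := by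
  intro δ hδ
  have h2 : ∀ᶠ n : ℕ in atTop, C ≤ (Real.log n) ^ δ :=
    ((tendsto_rpow_atTop hδ).comp tlog).eventually_ge_atTop C
  filter_upwards [h, h2, tlog.eventually_gt_atTop 0] with n g1 g2 g3
  refine g1.trans ?_
  rw [Real.rpow_add g3, mul_comm]
  exact mul_le_mul_of_nonneg_left g2 (by positivity)

/-- the partial sums of the deterministic part -/
noncomputable def RR (T : ℕ → ℕ) (m : ℕ) : ℝ := ∑ n ∈ Ioc 0 m, ff 1 0 (T n) n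

/-- the oscillations of the deterministic part -/
theorem low_det (σ η : ℝ) (h0 : 0 < σ) (h1 : σ < 1) (hη : 0 < η) (hη1 : η ≤ 1 / 2)
    (hb : ∀ᶠ j : ℕ in atTop, Real.exp ((1 + η) * Qj σ j) < NJ σ η (j + 1) ∧ j + 1 ≤ NJ σ η j ∧
      Real.exp (Qj σ j / 4) ≤ NJ σ η j) :
    ∃ K : ℕ, ∀ᶠ z : ℕ in atTop, ∃ (m : ℕ) (x : ℝ), z ≤ m ∧ (m : ℝ) ≤ x ∧ x ≤ (z : ℝ) ^ K ∧
      2 * x ^ σ ≤ |RR (TT σ η) m| := by
  obtain ⟨c, K, hc, hK, hf⟩ := sizes σ η h0.le h1 hη hb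
  have ho := (tendsto_pow_atTop_atTop_of_one_lt (show 1 < 2 by norm_num)).eventually (osc σ h0 h1 η hη hη1 5 (by norm_num))
  have ho2 := (tendsto_add_atTop_nat 1).eventually ho
  have hb2 := (tendsto_add_atTop_nat 1).eventually hb
  refine ⟨⌈2 * (K / c)⌉₊, ?_⟩
  filter_upwards [hf, JJ_spec σ η (hb.mono fun j h => h.2.1), (JJ_tendsto σ η).eventually (ho2.and hb2),
    eventually_ge_atTop 1] with z g1 g2 g3 g4
  obtain ⟨j, hj⟩ : ∃ j, j = JJ σ η z + 1 := ⟨_, rfl⟩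
  rw [← hj] at g1 g2 g3
  obtain ⟨⟨x, k1, k2, k3⟩, k4, k5, k6⟩ := g3
  have hz0 : (0 : ℝ) < z := by exact_mod_cast g4
  have eQ : Real.log ((2 ^ j : ℕ) : ℝ) * Fs (Pr (2 ^ j)) σ = Qj σ j := rfl
  rw [eQ] at k1 k2
  have hQ0 : 0 ≤ Qj σ j := by
    unfold Qj Fj
    exact mul_nonneg (Real.log_natCast_nonneg _) (Fs_nonneg _ _)
  have hx1 : 1 ≤ x := by
    have : 1 ≤ Real.exp ((1 - η) * Qj σ j) := Real.one_le_exp (mul_nonneg (by linarith) hQ0)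
    linarith
  have hx0 : 0 ≤ x := by linarith
  have hxz : x ≤ (z : ℝ) ^ ⌈2 * (K / c)⌉₊ := by
    refine k2.trans ?_
    have e1 : (z : ℝ) ^ ⌈2 * (K / c)⌉₊ = Real.exp ((⌈2 * (K / c)⌉₊ : ℝ) * Real.log z) := by
      rw [← Real.rpow_natCast, Real.rpow_def_of_pos hz0, mul_comm]
    rw [e1]
    apply Real.exp_le_exp.2
    have h2 : Qj σ j ≤ K / c * Real.log z := by
      refine g1.2.2.trans ?_
      have h3 : ((2 : ℝ) ^ JJ σ η z) ^ (1 - σ) ≤ Real.log z / c := by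
        rw [le_div_iff₀ hc]
        linarith [g1.1]
      calc K * ((2 : ℝ) ^ JJ σ η z) ^ (1 - σ) ≤ K * (Real.log z / c) := mul_le_mul_of_nonneg_left h3 hK.le
        _ = _ := by ring
    have h3 : 2 * (K / c) ≤ ⌈2 * (K / c)⌉₊ := Nat.le_ceil _
    have hLz : 0 ≤ Real.log z := Real.log_natCast_nonneg z
    calc (1 + η) * Qj σ j ≤ 2 * Qj σ j := mul_le_mul_of_nonneg_right (by linarith) hQ0
      _ ≤ 2 * (K / c * Real.log z) := mul_le_mul_of_nonneg_left h2 (by norm_num)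
      _ = 2 * (K / c) * Real.log z := by ring
      _ ≤ _ := mul_le_mul_of_nonneg_right h3 hLz
  have hfl : NJ σ η j ≤ ⌊x / 2⌋₊ := by
    unfold NJ
    apply Nat.floor_le_floor
    linarith
  have hfl2 : ⌊x / 2⌋₊ ≤ ⌊x⌋₊ := Nat.floor_le_floor (by linarith)
  have hup : ⌊x⌋₊ < NJ σ η (j + 1) := by
    rw [Nat.floor_lt hx0]
    linarith
  have hT : ∀ n ∈ Ioc ⌊x / 2⌋₊ ⌊x⌋₊, ff 1 0 (2 ^ j) n = ff 1 0 (TT σ η n) n := by
    intro n hn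
    rw [mem_Ioc] at hn
    unfold TT
    rw [JJ_eq σ η (by linarith) j n k5 (by omega) (by omega)]
  have hs := DD_eq (2 ^ j) x hx0
  rw [Finset.sum_congr rfl hT] at hs
  have hR : RR (TT σ η) ⌊x⌋₊ = RR (TT σ η) ⌊x / 2⌋₊ + ∑ n ∈ Ioc ⌊x / 2⌋₊ ⌊x⌋₊, ff 1 0 (TT σ η n) n := by
    unfold RR
    rw [← Finset.sum_union (Finset.disjoint_left.2 fun n hn hn' => by
      rw [mem_Ioc] at hn hn'; omega), Finset.Ioc_union_Ioc_eq_Ioc (Nat.zero_le _) hfl2]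
  have hS : ∑ n ∈ Ioc ⌊x / 2⌋₊ ⌊x⌋₊, ff 1 0 (TT σ η n) n = RR (TT σ η) ⌊x⌋₊ - RR (TT σ η) ⌊x / 2⌋₊ := by
    rw [hR]; ring
  rw [hS] at hs
  have hxs : 1 ≤ x ^ σ := Real.one_le_rpow hx1 h0.le
  have h4 : 4 * x ^ σ ≤ |RR (TT σ η) ⌊x⌋₊ - RR (TT σ η) ⌊x / 2⌋₊| := by linarith
  have h5 := h4.trans (abs_sub _ _)
  rcases le_or_gt (2 * x ^ σ) |RR (TT σ η) ⌊x⌋₊| with h6 | h6
  · exact ⟨⌊x⌋₊, x, by omega, Nat.floor_le hx0, hxz, h6⟩
  · refine ⟨⌊x / 2⌋₊, x, by omega, ?_, hxz, by linarith⟩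
    have := Nat.floor_le (show 0 ≤ x / 2 by linarith)
    linarith

variable {Ω : Type*} [MeasurableSpace Ω] {μ : Measure Ω} [IsProbabilityMeasure μ]

theorem MT_one (T : ℕ → ℕ) (m : ℕ) : MT T m 1 = m := by
  unfold MT
  rw [Finset.sum_congr rfl (fun n _ => mt_one (T n)), Finset.sum_const, Nat.card_Ioc, nsmul_eq_mul]
  simp

/-- the lower bound -/
theorem low (A : ℝ) (hA : 2 < A) : ∃ T : ℕ → ℕ, Monotone T ∧
    (∃ c C : ℝ, 0 < c ∧ 0 < C ∧ ∀ᶠ n : ℕ in atTop, c * (Real.log n) ^ A ≤ T n ∧ (T n : ℝ) ≤ C * (Real.log n) ^ A) ∧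
    ∃ K : ℕ, ∀ (Ω : Type*) [MeasurableSpace Ω] (μ : Measure Ω) [IsProbabilityMeasure μ] (E : ℕ → Set Ω),
      (∀ n, MeasurableSet (E n)) → iIndepSet E μ → (∀ n : ℕ, μ.real (E n) = min 1 (fT T n / Real.log n)) →
      ∀ᵐ ω ∂μ, ∀ᶠ z : ℕ in atTop, ∃ m : ℕ, z ≤ m ∧ m ≤ z ^ K ∧
        (m : ℝ) ^ (1 - 1 / A) ≤ |psi {m | ω ∈ E m} m 1 0 - m| := by
  have hA0 : 0 < A := by linarith
  obtain ⟨σ, hσ⟩ : ∃ σ : ℝ, σ = 1 - 1 / A := ⟨_, rfl⟩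
  have hσ2 : 1 / 2 < σ := by
    rw [hσ]
    have : 1 / A < 1 / 2 := one_div_lt_one_div_of_lt (by norm_num) hA
    linarith
  have hσ1 : σ < 1 := by
    rw [hσ]
    have : 0 < 1 / A := by positivity
    linarith
  obtain ⟨η, hη, hη1, hb⟩ := blocks σ (by linarith) hσ1
  obtain ⟨K, hK⟩ := low_det σ η (by linarith) hσ1 hη hη1 hb
  have hsz := TT_size A η (by linarith) hη (by rw [← hσ]; exact hb)
  rw [← hσ] at hsz ⊢
  refine ⟨TT σ η, TT_mono σ η, hsz, K, ?_⟩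
  obtain ⟨c, C, hc, hC, hcC⟩ := hsz
  have hGr : Gr A (TT σ η) := Gr_of A C _ hC (hcC.mono fun n h => h.2)
  intro Ω _ μ _ E hm hE hl
  obtain ⟨δ, hδ⟩ : ∃ δ : ℝ, δ = (σ - 1 / 2) / 2 := ⟨_, rfl⟩
  have hδ0 : 0 < δ := by rw [hδ]; linarith
  obtain ⟨C2, hC2, k2⟩ := means (μ := μ) (E := E) (TT σ η) (sub_pow (TT σ η) (A + 1) (hGr 1 one_pos)) hl
  filter_upwards [ae_dev hm hE δ hδ0] with ω hω
  obtain ⟨x0, hx0⟩ := eventually_atTop.1 hω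
  have hbig : ∀ᶠ x : ℝ in atTop, 2 ≤ x ^ δ ∧ 2 * C2 ≤ x ^ σ :=
    ((tendsto_rpow_atTop hδ0).eventually_ge_atTop 2).and
      ((tendsto_rpow_atTop (show 0 < σ by linarith)).eventually_ge_atTop (2 * C2))
  obtain ⟨x1, hx1⟩ := eventually_atTop.1 hbig
  filter_upwards [hK, eventually_ge_atTop (max (max x0 1) ⌈x1⌉₊)] with z g1 g2
  obtain ⟨m, x, h1, h2, h3, h4⟩ := g1
  have hz0 : x0 ≤ z := ((le_max_left _ _).trans (le_max_left _ _)).trans g2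
  have hz1 : 1 ≤ z := ((le_max_right _ _).trans (le_max_left _ _)).trans g2
  have hz2 : ⌈x1⌉₊ ≤ z := (le_max_right _ _).trans g2
  have hm1 : (1 : ℝ) ≤ m := by exact_mod_cast hz1.trans h1
  have hxx1 : x1 ≤ x := by
    calc x1 ≤ (⌈x1⌉₊ : ℝ) := Nat.le_ceil _
      _ ≤ (m : ℝ) := by exact_mod_cast hz2.trans h1
      _ ≤ x := h2
  obtain ⟨g3, g4⟩ := hx1 x hxx1
  refine ⟨m, h1, ?_, ?_⟩
  · have : (m : ℝ) ≤ ((z ^ K : ℕ) : ℝ) := by push_cast; exact h2.trans h3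
    exact_mod_cast this
  · have hx0' : 0 < x := by linarith
    have hd := hx0 m (hz0.trans h1) 1 0 le_rfl (hz1.trans h1) one_pos
    have hd2 : |dev μ E m 1 0 ω| ≤ x ^ σ / 2 := by
      refine hd.trans ?_
      push_cast
      rw [div_one, Real.sqrt_eq_rpow, ← Real.rpow_add (by linarith)]
      have h5 : (m : ℝ) ^ (δ + 1 / 2) ≤ x ^ (δ + 1 / 2) := Real.rpow_le_rpow (by linarith) h2 (by linarith)
      have h6 : x ^ σ = x ^ (δ + 1 / 2) * x ^ δ := by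
        rw [← Real.rpow_add hx0']
        congr 1
        rw [hδ]; ring
      have h7 : 0 < x ^ (δ + 1 / 2) := by positivity
      rw [h6, le_div_iff₀ (by norm_num)]
      nlinarith
    have hms := k2 m 1 0
    have hff := ff_sum' (TT σ η) 1 0 m
    rw [MT_one] at hff
    have hRR : RR (TT σ η) m = ∑ n ∈ AP 1 0 m, fT (TT σ η) n - m := hff
    have h5 : (m : ℝ) ^ σ ≤ x ^ σ := Real.rpow_le_rpow (by linarith) h2 (by linarith)
    rw [psi_eq (μ := μ)]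
    have h6 : RR (TT σ η) m = (dev μ E m 1 0 ω + ∑ n ∈ AP 1 0 m, Real.log n * μ.real (E n) - m) -
        dev μ E m 1 0 ω - (∑ n ∈ AP 1 0 m, Real.log n * μ.real (E n) - ∑ n ∈ AP 1 0 m, fT (TT σ η) n) := by
      rw [hRR]; ring
    have h7 : |RR (TT σ η) m| ≤ |dev μ E m 1 0 ω + ∑ n ∈ AP 1 0 m, Real.log n * μ.real (E n) - m| +
        |dev μ E m 1 0 ω| + |∑ n ∈ AP 1 0 m, Real.log n * μ.real (E n) - ∑ n ∈ AP 1 0 m, fT (TT σ η) n| := by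
      rw [h6]
      exact (abs_sub _ _).trans (add_le_add (abs_sub _ _) le_rfl)
    linarith

end Pool.Agent.U746.RH
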