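import Pool.Agent.U746.RH.Exs

set_option autoImplicit false

/-! # Growth of the exponent sums along powers of two -/

open Finset Filter Topology

namespace Pool.Agent.U746.RH

open Pool.Agent.U839.Sv (Pr mem_Pr)
open Pool.Agent.U839.Thin (tlog)
open Pool.Agent.U746.GM (pc_tendsto)

noncomputable def Fj (σ : ℝ) (j : ℕ) : ℝ := Fs (Pr (2 ^ j)) σ

noncomputable def aj (σ : ℝ) (j : ℕ) : ℝ := ((2 : ℝ) ^ j) ^ (1 - σ) / j

theorem Pr_sub {s t : ℕ} (h : s ≤ t) : Pr s ⊆ Pr t := by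
  intro p hp
  rw [mem_Pr] at hp ⊢
  exact ⟨hp.1, hp.2.trans h⟩

theorem uj : Tendsto (fun j : ℕ => ((2 ^ j : ℕ).primeCounting : ℝ) * (j * Real.log 2) / 2 ^ j) atTop (𝓝 1) := by
  have h := pc_tendsto.comp (tendsto_pow_atTop_atTop_of_one_lt (show 1 < 2 by norm_num))
  refine h.congr fun j => ?_
  simp only [Function.comp]
  push_cast
  rw [Real.log_pow]

theorem cnt_ratio : Tendsto (fun j : ℕ => (((2 ^ (j + 1) : ℕ).primeCounting : ℝ) - (2 ^ j : ℕ).primeCounting) *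
    (j * Real.log 2) / 2 ^ j) atTop (𝓝 1) := by
  have h1 := uj
  have h2 := uj.comp (tendsto_add_atTop_nat 1)
  have h3 : Tendsto (fun j : ℕ => (j : ℝ) / ((j : ℝ) + 1)) atTop (𝓝 1) := tendsto_natCast_div_add_atTop 1
  have h4 := ((h2.mul h3).const_mul 2).sub h1
  have e : (2 : ℝ) * (1 * 1) - 1 = 1 := by norm_num
  rw [e] at h4
  refine h4.congr fun j => ?_
  simp only [Function.comp]
  push_cast
  have hj : ((j : ℝ) + 1) ≠ 0 := by positivity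
  rw [pow_succ]
  field_simp
  ring

theorem card_diff (j : ℕ) : ((Pr (2 ^ (j + 1)) \ Pr (2 ^ j)).card : ℝ) =
    ((2 ^ (j + 1) : ℕ).primeCounting : ℝ) - (2 ^ j : ℕ).primeCounting := by
  have hsub : Pr (2 ^ j) ⊆ Pr (2 ^ (j + 1)) := Pr_sub (Nat.pow_le_pow_right (by norm_num) (by omega))
  have h := Finset.card_sdiff_add_card_eq_card hsub
  rw [card_Pr, card_Pr] at h
  have h2 : ((Pr (2 ^ (j + 1)) \ Pr (2 ^ j)).card : ℝ) + ((2 ^ j : ℕ).primeCounting : ℝ) =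
      ((2 ^ (j + 1) : ℕ).primeCounting : ℝ) := by exact_mod_cast h
  linarith

theorem Fj_diff (σ : ℝ) (j : ℕ) : Fj σ (j + 1) - Fj σ j = ∑ p ∈ Pr (2 ^ (j + 1)) \ Pr (2 ^ j), (p : ℝ) ^ (-σ) := by
  have hsub : Pr (2 ^ j) ⊆ Pr (2 ^ (j + 1)) := Pr_sub (Nat.pow_le_pow_right (by norm_num) (by omega))
  unfold Fj Fs
  rw [← Finset.sum_sdiff hsub]
  ring

theorem Fj_step (σ : ℝ) (h0 : 0 ≤ σ) : ∀ᶠ j : ℕ in atTop,
    (2 : ℝ) ^ (-σ) / (2 * Real.log 2) * aj σ j ≤ Fj σ (j + 1) - Fj σ j ∧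
    Fj σ (j + 1) - Fj σ j ≤ 2 / Real.log 2 * aj σ j := by
  have hl2 : 0 < Real.log 2 := Real.log_pos (by norm_num)
  filter_upwards [cnt_ratio.eventually_const_lt (show (1 : ℝ) / 2 < 1 by norm_num),
    cnt_ratio.eventually_lt_const (show (1 : ℝ) < 2 by norm_num), eventually_gt_atTop 0] with j k1 k2 k3
  have hj : (0 : ℝ) < j := by exact_mod_cast k3
  have h2j : (0 : ℝ) < (2 : ℝ) ^ j := by positivity
  obtain ⟨N, hN⟩ : ∃ N : ℝ, N = ((Pr (2 ^ (j + 1)) \ Pr (2 ^ j)).card : ℝ) := ⟨_, rfl⟩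
  rw [← card_diff, ← hN] at k1 k2
  have hN0 : 0 ≤ N := by rw [hN]; exact Nat.cast_nonneg _
  rw [lt_div_iff₀ h2j] at k1
  rw [div_lt_iff₀ h2j] at k2
  have hpow : ((2 : ℝ) ^ j) ^ (1 - σ) = (2 : ℝ) ^ j * ((2 : ℝ) ^ j) ^ (-σ) := by
    rw [sub_eq_add_neg, Real.rpow_add h2j, Real.rpow_one]
  have hP : 0 < ((2 : ℝ) ^ j) ^ (-σ) := Real.rpow_pos_of_pos h2j _
  rw [Fj_diff]
  constructor
  · have h1 : N * (((2 : ℝ) ^ (j + 1)) ^ (-σ)) ≤ ∑ p ∈ Pr (2 ^ (j + 1)) \ Pr (2 ^ j), (p : ℝ) ^ (-σ) := by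
      rw [hN, ← nsmul_eq_mul, ← Finset.sum_const]
      apply Finset.sum_le_sum
      intro p hp
      have hp' := (Finset.mem_sdiff.1 hp).1
      rw [mem_Pr] at hp'
      have hp0 : (0 : ℝ) < p := by exact_mod_cast hp'.1.pos
      apply Real.rpow_le_rpow_of_nonpos hp0 (by exact_mod_cast hp'.2) (by linarith)
    refine le_trans ?_ h1
    have h2 : ((2 : ℝ) ^ (j + 1)) ^ (-σ) = (2 : ℝ) ^ (-σ) * ((2 : ℝ) ^ j) ^ (-σ) := by
      rw [pow_succ, Real.mul_rpow h2j.le (by norm_num)]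
      ring
    rw [h2]
    unfold aj
    rw [hpow]
    have h3 : (2 : ℝ) ^ j / (2 * Real.log 2 * j) ≤ N := by
      rw [div_le_iff₀ (by positivity)]
      nlinarith
    calc (2 : ℝ) ^ (-σ) / (2 * Real.log 2) * ((2 : ℝ) ^ j * ((2 : ℝ) ^ j) ^ (-σ) / j)
        = (2 : ℝ) ^ j / (2 * Real.log 2 * j) * ((2 : ℝ) ^ (-σ) * ((2 : ℝ) ^ j) ^ (-σ)) := by
          field_simp
      _ ≤ _ := mul_le_mul_of_nonneg_right h3 (by positivity)
  · have h1 : ∑ p ∈ Pr (2 ^ (j + 1)) \ Pr (2 ^ j), (p : ℝ) ^ (-σ) ≤ N * (((2 : ℝ) ^ j) ^ (-σ)) := by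
      rw [hN, ← nsmul_eq_mul, ← Finset.sum_const]
      apply Finset.sum_le_sum
      intro p hp
      have hp' := Finset.mem_sdiff.1 hp
      rw [mem_Pr, mem_Pr] at hp'
      have hp1 : 2 ^ j < p := by
        by_contra hcon
        exact hp'.2 ⟨hp'.1.1, not_lt.1 hcon⟩
      apply Real.rpow_le_rpow_of_nonpos h2j (by exact_mod_cast hp1.le) (by linarith)
    refine h1.trans ?_
    unfold aj
    rw [hpow]
    have h3 : N ≤ 2 / Real.log 2 * ((2 : ℝ) ^ j / j) := by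
      have : 2 / Real.log 2 * ((2 : ℝ) ^ j / j) = 2 * (2 : ℝ) ^ j / (j * Real.log 2) := by field_simp
      rw [this, le_div_iff₀ (by positivity)]
      exact k2.le
    calc N * ((2 : ℝ) ^ j) ^ (-σ) ≤ 2 / Real.log 2 * ((2 : ℝ) ^ j / j) * ((2 : ℝ) ^ j) ^ (-σ) :=
          mul_le_mul_of_nonneg_right h3 hP.le
      _ = _ := by ring

theorem aj_step (σ : ℝ) (h1 : σ < 1) : ∃ ρ : ℝ, 1 < ρ ∧ ∀ᶠ j : ℕ in atTop,
    ρ * aj σ j ≤ aj σ (j + 1) ∧ aj σ (j + 1) ≤ (2 : ℝ) ^ (1 - σ) * aj σ j := by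
  obtain ⟨b, hb⟩ : ∃ b : ℝ, b = (2 : ℝ) ^ (1 - σ) := ⟨_, rfl⟩
  have hb1 : 1 < b := by rw [hb]; exact Real.one_lt_rpow (by norm_num) (by linarith)
  rw [← hb]
  refine ⟨(1 + b) / 2, by linarith, ?_⟩
  have h3 : Tendsto (fun j : ℕ => (j : ℝ) / ((j : ℝ) + 1)) atTop (𝓝 1) := tendsto_natCast_div_add_atTop 1
  have h4 : (1 + b) / 2 / b < 1 := by rw [div_lt_one (by linarith)]; linarith
  filter_upwards [h3.eventually_const_lt h4, eventually_gt_atTop 0] with j k1 k2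
  have hj : (0 : ℝ) < j := by exact_mod_cast k2
  have h2j : (0 : ℝ) < (2 : ℝ) ^ j := by positivity
  have hP : 0 < ((2 : ℝ) ^ j) ^ (1 - σ) := Real.rpow_pos_of_pos h2j _
  have e : aj σ (j + 1) = b * (j / (j + 1)) * aj σ j := by
    unfold aj
    rw [pow_succ, Real.mul_rpow h2j.le (by norm_num), ← hb]
    push_cast
    field_simp
  have hA : 0 ≤ aj σ j := by unfold aj; positivity
  rw [e]
  constructor
  · apply mul_le_mul_of_nonneg_right _ hA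
    rw [div_lt_iff₀ (by linarith)] at k1
    linarith
  · apply mul_le_mul_of_nonneg_right _ hA
    have : (j : ℝ) / (j + 1) ≤ 1 := by rw [div_le_one (by positivity)]; linarith
    nlinarith

theorem Fj_up (σ : ℝ) (h0 : 0 ≤ σ) (h1 : σ < 1) : ∃ K : ℝ, 0 < K ∧ ∀ᶠ j : ℕ in atTop, Fj σ j ≤ K * aj σ j := by
  obtain ⟨ρ, hρ, h2⟩ := aj_step σ h1
  obtain ⟨j0, hj0⟩ := eventually_atTop.1 ((Fj_step σ h0).and (h2.and (eventually_gt_atTop 0)))
  have hl2 : 0 < Real.log 2 := Real.log_pos (by norm_num)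
  have ha : ∀ j, j0 ≤ j → 0 < aj σ j := by
    intro j hj
    have : (0 : ℝ) < j := by exact_mod_cast (hj0 j hj).2.2
    unfold aj
    positivity
  obtain ⟨K, hK⟩ : ∃ K : ℝ, K = max (Fj σ j0 / aj σ j0) (2 / Real.log 2 / (ρ - 1)) := ⟨_, rfl⟩
  have hKa : Fj σ j0 / aj σ j0 ≤ K := by rw [hK]; exact le_max_left _ _
  have hKb : 2 / Real.log 2 / (ρ - 1) ≤ K := by rw [hK]; exact le_max_right _ _
  have hK0 : 0 < K := lt_of_lt_of_le (by have : 0 < ρ - 1 := by linarith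
                                         positivity) hKb
  refine ⟨K, hK0, ?_⟩
  filter_upwards [eventually_ge_atTop j0] with j hj
  induction j, hj using Nat.le_induction with
  | base =>
    rw [div_le_iff₀ (ha j0 le_rfl)] at hKa
    exact hKa
  | succ j hj ih =>
    obtain ⟨⟨g1, g2⟩, ⟨g3, g4⟩, g5⟩ := hj0 j hj
    have haj := ha j hj
    rw [div_le_iff₀ (by linarith)] at hKb
    calc Fj σ (j + 1) ≤ K * aj σ j + 2 / Real.log 2 * aj σ j := by linarith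
      _ ≤ K * aj σ j + K * (ρ - 1) * aj σ j := by
          have := mul_le_mul_of_nonneg_right hKb haj.le
          linarith
      _ = K * (ρ * aj σ j) := by ring
      _ ≤ K * aj σ (j + 1) := mul_le_mul_of_nonneg_left g3 hK0.le

/-- the logarithm of the saddle point -/
noncomputable def Qj (σ : ℝ) (j : ℕ) : ℝ := Real.log ((2 ^ j : ℕ) : ℝ) * Fj σ j

theorem Qj_mono (σ : ℝ) : Monotone (Qj σ) := by
  intro i j hij
  unfold Qj
  apply mul_le_mul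
  · apply Real.log_le_log (by positivity)
    exact_mod_cast Nat.pow_le_pow_right (by norm_num) hij
  · exact Fs_mono (Pr_sub (Nat.pow_le_pow_right (by norm_num) hij)) σ
  · exact Fs_nonneg _ _
  · exact Real.log_natCast_nonneg _

theorem Qj_facts (σ : ℝ) (h0 : 0 ≤ σ) (h1 : σ < 1) : ∃ κ K c : ℝ, 0 < κ ∧ κ ≤ 1 ∧ 0 < K ∧ 0 < c ∧
    ∀ᶠ j : ℕ in atTop, (1 + κ) * Qj σ j ≤ Qj σ (j + 1) ∧
      c * ((2 : ℝ) ^ j) ^ (1 - σ) ≤ Qj σ j ∧ Qj σ j ≤ K * ((2 : ℝ) ^ j) ^ (1 - σ) := by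
  obtain ⟨K, hK, h2⟩ := Fj_up σ h0 h1
  have hl2 : 0 < Real.log 2 := Real.log_pos (by norm_num)
  obtain ⟨c0, hc0⟩ : ∃ c0 : ℝ, c0 = (2 : ℝ) ^ (-σ) / (2 * Real.log 2) := ⟨_, rfl⟩
  have hc00 : 0 < c0 := by rw [hc0]; positivity
  obtain ⟨κ, hκ⟩ : ∃ κ : ℝ, κ = min 1 (c0 / K) := ⟨_, rfl⟩
  have hκ0 : 0 < κ := by rw [hκ]; exact lt_min one_pos (by positivity)
  refine ⟨κ, K * Real.log 2, 1 / 2, hκ0, by rw [hκ]; exact min_le_left _ _, by positivity, by norm_num, ?_⟩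
  have h3 := (Fs_low σ h0)
  have h4 : ∀ᶠ j : ℕ in atTop, (((2 ^ j : ℕ) : ℝ)) ^ (1 - σ) / (2 * Real.log ((2 ^ j : ℕ) : ℝ)) ≤ Fs (Pr (2 ^ j)) σ :=
    (tendsto_pow_atTop_atTop_of_one_lt (show 1 < 2 by norm_num)).eventually h3
  filter_upwards [h2, h4, Fj_step σ h0, eventually_gt_atTop 0] with j k1 k2 k3 k4
  have hj : (0 : ℝ) < j := by exact_mod_cast k4
  have hlog : Real.log ((2 ^ j : ℕ) : ℝ) = j * Real.log 2 := by
    push_cast
    rw [Real.log_pow]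
  have hlogp : 0 < Real.log ((2 ^ j : ℕ) : ℝ) := by rw [hlog]; positivity
  have hcast : ((2 ^ j : ℕ) : ℝ) = (2 : ℝ) ^ j := by push_cast; rfl
  have hF0 : 0 ≤ Fj σ j := Fs_nonneg _ _
  have haj : 0 ≤ aj σ j := by unfold aj; positivity
  refine ⟨?_, ?_, ?_⟩
  · have g1 : (1 + κ) * Fj σ j ≤ Fj σ (j + 1) := by
      have g2 : κ * Fj σ j ≤ c0 * aj σ j := by
        have g3 : κ ≤ c0 / K := by rw [hκ]; exact min_le_right _ _
        calc κ * Fj σ j ≤ (c0 / K) * (K * aj σ j) := mul_le_mul g3 k1 hF0 (by positivity)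
          _ = c0 * aj σ j := by field_simp
      have := k3.1
      rw [← hc0] at this
      linarith
    unfold Qj
    calc (1 + κ) * (Real.log ((2 ^ j : ℕ) : ℝ) * Fj σ j) = Real.log ((2 ^ j : ℕ) : ℝ) * ((1 + κ) * Fj σ j) := by ring
      _ ≤ Real.log ((2 ^ (j + 1) : ℕ) : ℝ) * Fj σ (j + 1) := by
          apply mul_le_mul _ g1 (by positivity) (Real.log_natCast_nonneg _)
          apply Real.log_le_log (by positivity)
          exact_mod_cast Nat.pow_le_pow_right (by norm_num) (by omega)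
  · unfold Qj Fj
    rw [hcast] at k2 ⊢
    rw [hcast] at hlogp
    calc 1 / 2 * ((2 : ℝ) ^ j) ^ (1 - σ) = Real.log ((2 : ℝ) ^ j) * (((2 : ℝ) ^ j) ^ (1 - σ) / (2 * Real.log ((2 : ℝ) ^ j))) := by
          field_simp
      _ ≤ _ := mul_le_mul_of_nonneg_left k2 hlogp.le
  · unfold Qj
    rw [hlog]
    calc (j : ℝ) * Real.log 2 * Fj σ j ≤ (j : ℝ) * Real.log 2 * (K * aj σ j) :=
          mul_le_mul_of_nonneg_left k1 (by positivity)
      _ = _ := by unfold aj; field_simp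

end Pool.Agent.U746.RH
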