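import Pool.Agent.U746.RH.Sie

set_option autoImplicit false

/-! # The Mellin transform of the error term of the sieve of Eratosthenes -/

open Finset Filter Topology MeasureTheory

namespace Pool.Agent.U746.RH

/-- the fractional part -/
noncomputable def fr (x : ℝ) : ℂ := ((Int.fract x : ℝ) : ℂ)

theorem fr_norm (x : ℝ) : ‖fr x‖ ≤ 1 := by
  unfold fr
  rw [Complex.norm_real, Real.norm_of_nonneg (Int.fract_nonneg x)]
  exact (Int.fract_lt_one x).le

theorem fr_meas : Measurable fr := Complex.measurable_ofReal.comp measurable_fract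

theorem fr_li : LocallyIntegrableOn fr (Set.Ioi 0) volume := by
  have h : LocallyIntegrable fr volume :=
    (locallyIntegrable_const (1 : ℝ)).mono fr_meas.aestronglyMeasurable (by
      filter_upwards with x
      rw [norm_one]
      exact fr_norm x)
  exact h.locallyIntegrableOn _

theorem fr_top : fr =O[atTop] fun x : ℝ => x ^ (-(0 : ℝ)) := by
  apply Asymptotics.IsBigO.of_bound 1
  filter_upwards with x
  rw [neg_zero, Real.rpow_zero, norm_one, one_mul]
  exact fr_norm x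

theorem fr_zero : fr =O[𝓝[>] 0] fun x : ℝ => x ^ (-(-1 : ℝ)) := by
  apply Asymptotics.IsBigO.of_bound 1
  have h : ∀ᶠ x : ℝ in 𝓝[>] 0, x ∈ Set.Ioo (0 : ℝ) 1 := Ioo_mem_nhdsGT one_pos
  filter_upwards [h] with x hx
  rw [neg_neg, Real.rpow_one, one_mul]
  unfold fr
  rw [Complex.norm_real, Int.fract_eq_self.2 ⟨hx.1.le, hx.2⟩]

theorem fr_conv (z : ℂ) (h0 : 0 < z.re) (h1 : z.re < 1) : MellinConvergent fr (-z) := by
  apply mellinConvergent_of_isBigO_rpow fr_li fr_top _ fr_zero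
  · rw [Complex.neg_re]; linarith
  · rw [Complex.neg_re]; linarith

theorem fr_diff (z : ℂ) (h0 : 0 < z.re) (h1 : z.re < 1) : DifferentiableAt ℂ (mellin fr) (-z) := by
  apply mellin_differentiableAt_of_isBigO_rpow fr_li fr_top _ fr_zero
  · rw [Complex.neg_re]; linarith
  · rw [Complex.neg_re]; linarith

theorem fr_pos (σ : ℝ) (h0 : 0 < σ) (h1 : σ < 1) : mellin fr (-(σ : ℂ)) ≠ 0 := by
  have hc := fr_conv (σ : ℂ) (by simpa using h0) (by simpa using h1)
  have h2 : ∀ x ∈ Set.Ioi (0 : ℝ), (x : ℂ) ^ (-(σ : ℂ) - 1) • fr x = ((x ^ (-σ - 1) * Int.fract x : ℝ) : ℂ) := by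
    intro x hx
    unfold fr
    push_cast
    rw [Complex.ofReal_cpow (le_of_lt hx)]
    push_cast
    rw [smul_eq_mul]
  have h3 : mellin fr (-(σ : ℂ)) = ((∫ x in Set.Ioi (0 : ℝ), x ^ (-σ - 1) * Int.fract x : ℝ) : ℂ) := by
    unfold mellin
    rw [setIntegral_congr_fun measurableSet_Ioi h2]
    exact integral_ofReal
  have hint : IntegrableOn (fun x : ℝ => x ^ (-σ - 1) * Int.fract x) (Set.Ioi 0) := by
    have h4 : IntegrableOn (fun x : ℝ => ((x ^ (-σ - 1) * Int.fract x : ℝ) : ℂ)) (Set.Ioi 0) :=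
      IntegrableOn.congr_fun hc h2 measurableSet_Ioi
    have h5 := h4.re
    have h6 : (fun x : ℝ => RCLike.re (((x ^ (-σ - 1) * Int.fract x : ℝ) : ℂ))) = fun x : ℝ => x ^ (-σ - 1) * Int.fract x := by
      funext x
      exact Complex.ofReal_re _
    rw [h6] at h5
    exact h5
  rw [h3, Complex.ofReal_ne_zero]
  apply ne_of_gt
  rw [setIntegral_pos_iff_support_of_nonneg_ae _ hint]
  · have h4 : Set.Ioo (0 : ℝ) 1 ⊆ (Function.support fun x : ℝ => x ^ (-σ - 1) * Int.fract x) ∩ Set.Ioi 0 := by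
      intro x hx
      refine ⟨?_, hx.1⟩
      rw [Function.mem_support, Int.fract_eq_self.2 ⟨hx.1.le, hx.2⟩]
      exact mul_ne_zero (Real.rpow_pos_of_pos hx.1 _).ne' hx.1.ne'
    refine lt_of_lt_of_le ?_ (measure_mono h4)
    rw [Real.volume_Ioo]
    simp
  · filter_upwards [ae_restrict_mem measurableSet_Ioi] with x hx
    exact mul_nonneg (Real.rpow_nonneg (le_of_lt hx) _) (Int.fract_nonneg x)

/-- a lower bound near the real axis -/
theorem fr_low (σ : ℝ) (h0 : 0 < σ) (h1 : σ < 1) : ∃ c t0 : ℝ, 0 < c ∧ 0 < t0 ∧ ∀ t : ℝ, |t| < t0 →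
    c ≤ ‖mellin fr (-((σ : ℂ) + t * Complex.I))‖ := by
  have hne := fr_pos σ h0 h1
  have hd := (fr_diff (σ : ℂ) (by simpa using h0) (by simpa using h1)).continuousAt
  obtain ⟨f, hf⟩ : ∃ f : ℝ → ℂ, f = fun t : ℝ => mellin fr (-((σ : ℂ) + (t : ℂ) * Complex.I)) := ⟨_, rfl⟩
  have hcont : ContinuousAt f 0 := by
    rw [hf]
    have h2 : ContinuousAt (fun t : ℝ => (-((σ : ℂ) + t * Complex.I))) 0 := by fun_prop
    have h3 : (-((σ : ℂ) + ((0 : ℝ) : ℂ) * Complex.I)) = -(σ : ℂ) := by simp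
    exact ContinuousAt.comp (g := mellin fr) (by rw [h3]; exact hd) h2
  have h3 : f 0 = mellin fr (-(σ : ℂ)) := by rw [hf]; simp
  have h4 : ∀ᶠ t in 𝓝 (0 : ℝ), ‖mellin fr (-(σ : ℂ))‖ / 2 < ‖f t‖ := by
    apply hcont.norm.eventually_const_lt
    show ‖mellin fr (-(σ : ℂ))‖ / 2 < ‖f 0‖
    rw [h3]
    have := norm_pos_iff.2 hne
    linarith
  rw [Metric.eventually_nhds_iff] at h4
  obtain ⟨t0, ht0, h5⟩ := h4
  refine ⟨‖mellin fr (-(σ : ℂ))‖ / 2, t0, by have := norm_pos_iff.2 hne; linarith, ht0, ?_⟩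
  intro t ht
  have h6 := h5 (y := t) (by rw [Real.dist_eq, sub_zero]; exact ht)
  rw [hf] at h6
  exact h6.le

/-- the error term of the sieve of Eratosthenes -/
noncomputable def BB (S : Finset ℕ) (x : ℝ) : ℝ := ∑ s ∈ S.powerset, sg s * Int.fract (x / dd s)

/-- the finite Euler product -/
noncomputable def PP (S : Finset ℕ) (z : ℂ) : ℂ := ∏ p ∈ S, (1 - Complex.exp (-(z * Real.log p)))

theorem frac_le (u σ : ℝ) (hu : 0 ≤ u) (h0 : 0 ≤ σ) (h1 : σ ≤ 1) : Int.fract u ≤ u ^ σ := by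
  rcases lt_or_ge u 1 with h | h
  · rw [Int.fract_eq_self.2 ⟨hu, h⟩]
    rcases hu.lt_or_eq with h2 | h2
    · calc u = u ^ (1 : ℝ) := (Real.rpow_one u).symm
        _ ≤ u ^ σ := Real.rpow_le_rpow_of_exponent_ge h2 h.le h1
    · rw [← h2]
      exact Real.rpow_nonneg le_rfl _
  · exact (Int.fract_lt_one u).le.trans (Real.one_le_rpow h h0)

theorem BB_abs (S : Finset ℕ) (hS : ∀ p ∈ S, 0 < p) (x σ : ℝ) (hx : 0 ≤ x) (h0 : 0 ≤ σ) (h1 : σ ≤ 1) :
    |BB S x| ≤ x ^ σ * Real.exp (Fs S σ) := by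
  unfold BB
  refine (Finset.abs_sum_le_sum_abs _ _).trans ?_
  apply ran_le S hS σ x hx _ subset_rfl
  intro s hs
  rw [abs_mul, sg_abs, one_mul, abs_of_nonneg (Int.fract_nonneg _)]
  exact frac_le _ _ (div_nonneg hx (Nat.cast_nonneg _)) h0 h1

/-- the difference over a dyadic interval -/
noncomputable def DD (S : Finset ℕ) (x : ℝ) : ℝ := BB S x - BB S (x / 2)

theorem DD_abs (S : Finset ℕ) (hS : ∀ p ∈ S, 0 < p) (x σ : ℝ) (hx : 0 ≤ x) (h0 : 0 ≤ σ) (h1 : σ ≤ 1) :
    |DD S x| ≤ 2 * (x ^ σ * Real.exp (Fs S σ)) := by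
  unfold DD
  have k1 := BB_abs S hS x σ hx h0 h1
  have k2 := BB_abs S hS (x / 2) σ (by linarith) h0 h1
  have k3 : (x / 2) ^ σ * Real.exp (Fs S σ) ≤ x ^ σ * Real.exp (Fs S σ) := by
    apply mul_le_mul_of_nonneg_right _ (Real.exp_pos _).le
    exact Real.rpow_le_rpow (by linarith) (by linarith) h0
  calc |BB S x - BB S (x / 2)| ≤ |BB S x| + |BB S (x / 2)| := abs_sub _ _
    _ ≤ _ := by linarith

theorem cpow_exp (d : ℝ) (hd : 0 < d) (z : ℂ) : ((1 / d : ℝ) : ℂ) ^ z = Complex.exp (-(z * Real.log d)) := by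
  have h1 : ((1 / d : ℝ) : ℂ) ≠ 0 := by
    rw [Complex.ofReal_ne_zero]; positivity
  rw [Complex.cpow_def_of_ne_zero h1, ← Complex.ofReal_log (by positivity), one_div, Real.log_inv]
  congr 1
  push_cast
  ring

theorem PP_eq (S : Finset ℕ) (hS : ∀ p ∈ S, 0 < p) (z : ℂ) :
    ∑ s ∈ S.powerset, (sg s : ℂ) * ((1 / (dd s : ℝ) : ℝ) : ℂ) ^ z = PP S z := by
  unfold PP
  have h1 : ∏ p ∈ S, (1 - Complex.exp (-(z * Real.log p))) =
      ∏ p ∈ S, (1 + (-1) * Complex.exp (-(z * Real.log p))) := by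
    apply Finset.prod_congr rfl
    intro p _
    ring
  rw [h1, Finset.prod_one_add]
  apply Finset.sum_congr rfl
  intro s hs
  rw [mem_powerset] at hs
  have hp : (0 : ℝ) < dd s := dd_posR fun p hp => hS p (hs hp)
  rw [cpow_exp _ hp, Finset.prod_mul_distrib, Finset.prod_const, ← Complex.exp_sum]
  have h2 : Real.log (dd s) = ∑ p ∈ s, Real.log p := by
    unfold dd
    push_cast
    apply Real.log_prod
    intro p hp
    have := hS p (hs hp)
    positivity
  have h3 : -(z * ((Real.log (dd s) : ℝ) : ℂ)) = ∑ p ∈ s, -(z * ((Real.log p : ℝ) : ℂ)) := by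
    rw [h2, Complex.ofReal_sum, Finset.mul_sum, Finset.sum_neg_distrib]
  rw [h3]
  congr 1
  unfold sg
  push_cast
  rfl

theorem BB_conv (S : Finset ℕ) (hS : ∀ p ∈ S, 0 < p) (z : ℂ) (h0 : 0 < z.re) (h1 : z.re < 1) :
    MellinConvergent (fun x => (BB S x : ℂ)) (-z) ∧
    mellin (fun x => (BB S x : ℂ)) (-z) = PP S z * mellin fr (-z) := by
  have hc := fr_conv z h0 h1
  have hone : ∀ s ∈ S.powerset, MellinConvergent (fun x => fr ((1 / (dd s : ℝ)) * x)) (-z) := by
    intro s hs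
    rw [mem_powerset] at hs
    have hp : (0 : ℝ) < dd s := dd_posR fun p hp => hS p (hs hp)
    exact (MellinConvergent.comp_mul_left (by positivity)).2 hc
  have hfun : ∀ x : ℝ, (BB S x : ℂ) = ∑ s ∈ S.powerset, (sg s : ℂ) * fr ((1 / (dd s : ℝ)) * x) := by
    intro x
    unfold BB fr
    push_cast
    apply Finset.sum_congr rfl
    intro s _
    rw [one_div_mul_eq_div]
  have hint : ∀ s ∈ S.powerset, IntegrableOn (fun x : ℝ => (x : ℂ) ^ (-z - 1) •
      ((sg s : ℂ) * fr ((1 / (dd s : ℝ)) * x))) (Set.Ioi 0) := by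
    intro s hs
    have h2 : IntegrableOn (fun x : ℝ => (sg s : ℂ) * ((x : ℂ) ^ (-z - 1) • fr ((1 / (dd s : ℝ)) * x))) (Set.Ioi 0) :=
      (hone s hs).const_mul _
    refine IntegrableOn.congr_fun h2 ?_ measurableSet_Ioi
    intro x _
    simp only [smul_eq_mul]
    ring
  have hsum : ∀ x : ℝ, (x : ℂ) ^ (-z - 1) • (BB S x : ℂ) = ∑ s ∈ S.powerset, (x : ℂ) ^ (-z - 1) •
      ((sg s : ℂ) * fr ((1 / (dd s : ℝ)) * x)) := by
    intro x
    rw [hfun, Finset.smul_sum]
  constructor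
  · unfold MellinConvergent
    simp only [hsum]
    exact integrable_finset_sum _ hint
  · unfold mellin
    simp only [hsum]
    rw [integral_finset_sum _ hint, ← PP_eq S hS z, Finset.sum_mul]
    apply Finset.sum_congr rfl
    intro s hs
    rw [mem_powerset] at hs
    have hp : (0 : ℝ) < dd s := dd_posR fun p hp => hS p (hs hp)
    have h2 := mellin_comp_mul_left fr (-z) (a := 1 / (dd s : ℝ)) (by positivity)
    unfold mellin at h2
    rw [neg_neg] at h2
    have h3 : ∫ x in Set.Ioi (0 : ℝ), (x : ℂ) ^ (-z - 1) • ((sg s : ℂ) * fr ((1 / (dd s : ℝ)) * x)) =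
        (sg s : ℂ) * ∫ x in Set.Ioi (0 : ℝ), (x : ℂ) ^ (-z - 1) • fr ((1 / (dd s : ℝ)) * x) := by
      rw [← integral_const_mul]
      apply integral_congr_ae
      filter_upwards with x
      simp only [smul_eq_mul]
      ring
    rw [h3, h2, smul_eq_mul, mul_assoc]

theorem DD_conv (S : Finset ℕ) (hS : ∀ p ∈ S, 0 < p) (z : ℂ) (h0 : 0 < z.re) (h1 : z.re < 1) :
    MellinConvergent (fun x => (DD S x : ℂ)) (-z) ∧
    mellin (fun x => (DD S x : ℂ)) (-z) =
      (1 - Complex.exp (-(z * Real.log 2))) * (PP S z * mellin fr (-z)) := by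
  obtain ⟨k1, k2⟩ := BB_conv S hS z h0 h1
  have k3 : MellinConvergent (fun x => (BB S ((1 / 2) * x) : ℂ)) (-z) :=
    (MellinConvergent.comp_mul_left (f := fun x => (BB S x : ℂ)) (by norm_num : (0 : ℝ) < 1 / 2)).2 k1
  have k4 := mellin_comp_mul_left (fun x => (BB S x : ℂ)) (-z) (a := 1 / 2) (by norm_num)
  rw [neg_neg, cpow_exp 2 (by norm_num) z, k2] at k4
  have hfun : (fun x => (DD S x : ℂ)) = fun x => (BB S x : ℂ) - (BB S ((1 / 2) * x) : ℂ) := by
    funext x
    unfold DD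
    push_cast
    rw [one_div_mul_eq_div]
  rw [hfun]
  constructor
  · unfold MellinConvergent at *
    have := k1.sub k3
    refine this.congr ?_
    filter_upwards with x
    simp only [Pi.sub_apply, smul_sub]
  · have h2 : mellin (fun x => (BB S x : ℂ) - (BB S ((1 / 2) * x) : ℂ)) (-z) =
        mellin (fun x => (BB S x : ℂ)) (-z) - mellin (fun x => (BB S ((1 / 2) * x) : ℂ)) (-z) := by
      unfold mellin
      rw [← integral_sub k1 k3]
      apply integral_congr_ae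
      filter_upwards with x
      rw [smul_sub]
    rw [h2, k2, k4, smul_eq_mul]
    ring

end Pool.Agent.U746.RH
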