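import Pool.Agent.U746.RH.Blk
import Pool.Agent.U746.RH.Mel

set_option autoImplicit false

/-! # Construction of the sieve and the link with the error term -/

open Finset Filter Topology

namespace Pool.Agent.U746.RH

open Pool.Agent.U839.Sv (Pr mem_Pr W W_pos W_ge_one one_sub_pos)
open Pool.Agent.U839.Thin (tlog)

theorem filt_one (y : ℕ) : (Pr y).filter (fun p => ¬ p ∣ 1) = Pr y := by
  apply Finset.filter_true_of_mem
  intro p hp h
  rw [mem_Pr] at hp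
  exact hp.1.one_lt.ne' (Nat.dvd_one.1 h)

theorem mt_one (y : ℕ) : mt y 1 = 1 := by
  unfold mt
  have h : (Pr y).filter (fun p => p ∣ 1) = ∅ := by
    apply Finset.filter_false_of_mem
    intro p hp h
    rw [mem_Pr] at hp
    exact hp.1.one_lt.ne' (Nat.dvd_one.1 h)
  rw [h, Finset.prod_empty]
  norm_num

theorem W_prod (y : ℕ) : W y * ∏ p ∈ Pr y, (1 - 1 / (p : ℝ)) = 1 := by
  have h : W y = ∏ p ∈ Pr y, (1 - 1 / (p : ℝ))⁻¹ := rfl
  rw [h, ← Finset.prod_mul_distrib]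
  apply Finset.prod_eq_one
  intro p hp
  rw [mem_Pr] at hp
  exact inv_mul_cancel₀ (one_sub_pos hp.1).ne'

theorem NN_one (X : ℕ) (s : Finset ℕ) : (NN 1 0 X s : ℕ) = X / dd s := by
  unfold NN AP
  rw [Finset.filter_filter]
  have h : (Ioc 0 X).filter (fun n => n ≡ 0 [MOD 1] ∧ dd s ∣ n) = (Ioc 0 X).filter (fun n => dd s ∣ n) := by
    apply Finset.filter_congr
    intro n _
    constructor
    · exact fun h => h.2
    · exact fun h => ⟨Nat.modEq_one, h⟩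
  rw [h, Nat.Ioc_filter_dvd_card_eq_div]

theorem BB_eq (y : ℕ) (x : ℝ) (hx : 0 ≤ x) :
    W y * BB (Pr y) x = x - ⌊x⌋₊ - ∑ n ∈ Ioc 0 ⌊x⌋₊, ff 1 0 y n := by
  have hS : ∀ p ∈ Pr y, p.Prime := fun p hp => (mem_Pr.1 hp).1
  have h1 : BB (Pr y) x = x * ∏ p ∈ Pr y, (1 - 1 / (p : ℝ)) - cn (Pr y) 1 0 ⌊x⌋₊ := by
    rw [main_eq hS, cn_eq hS, ← Finset.sum_sub_distrib]
    unfold BB
    apply Finset.sum_congr rfl
    intro s _
    rw [NN_one, ← mul_sub]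
    congr 1
    have h2 : Int.fract (x / dd s) = x / dd s - ((⌊x / dd s⌋₊ : ℕ) : ℝ) := by
      rw [Int.fract]
      congr 1
      rw [natCast_floor_eq_intCast_floor (div_nonneg hx (Nat.cast_nonneg _))]
    rw [h2, Nat.floor_div_natCast]
  rw [ff_sum 1 0 y _ one_pos (Nat.coprime_one_right 0), filt_one, h1]
  have h3 := W_prod y
  have h4 : W y * (x * ∏ p ∈ Pr y, (1 - 1 / (p : ℝ)) - (cn (Pr y) 1 0 ⌊x⌋₊ : ℝ)) =
      x * (W y * ∏ p ∈ Pr y, (1 - 1 / (p : ℝ))) - W y * cn (Pr y) 1 0 ⌊x⌋₊ := by ring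
  have h5 : W y * ((cn (Pr y) 1 0 ⌊x⌋₊ : ℝ) - (⌊x⌋₊ : ℝ) / ((1 : ℕ) : ℝ) * ∏ p ∈ Pr y, (1 - 1 / (p : ℝ))) =
      W y * cn (Pr y) 1 0 ⌊x⌋₊ - ⌊x⌋₊ * (W y * ∏ p ∈ Pr y, (1 - 1 / (p : ℝ))) := by
    push_cast
    ring
  rw [h4, h5, h3]
  ring

theorem DD_eq (y : ℕ) (x : ℝ) (hx : 0 ≤ x) :
    |DD (Pr y) x| - 1 ≤ |∑ n ∈ Ioc ⌊x / 2⌋₊ ⌊x⌋₊, ff 1 0 y n| := by
  have h1 := BB_eq y x hx
  have h2 := BB_eq y (x / 2) (by linarith)
  have h3 : ⌊x / 2⌋₊ ≤ ⌊x⌋₊ := Nat.floor_le_floor (by linarith)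
  have h4 : ∑ n ∈ Ioc 0 ⌊x⌋₊, ff 1 0 y n = ∑ n ∈ Ioc 0 ⌊x / 2⌋₊, ff 1 0 y n + ∑ n ∈ Ioc ⌊x / 2⌋₊ ⌊x⌋₊, ff 1 0 y n := by
    rw [← Finset.sum_union (Finset.disjoint_left.2 fun n hn hn' => by
      rw [mem_Ioc] at hn hn'; omega), Finset.Ioc_union_Ioc_eq_Ioc (Nat.zero_le _) h3]
  have h5 : W y * DD (Pr y) x = (x - ⌊x⌋₊) - (x / 2 - ⌊x / 2⌋₊) - ∑ n ∈ Ioc ⌊x / 2⌋₊ ⌊x⌋₊, ff 1 0 y n := by
    unfold DD
    rw [mul_sub, h1, h2, h4]
    ring
  have e1 := Nat.floor_le hx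
  have e2 := Nat.lt_floor_add_one x
  have e3 := Nat.floor_le (show 0 ≤ x / 2 by linarith)
  have e4 := Nat.lt_floor_add_one (x / 2)
  have h6 : |W y * DD (Pr y) x| ≤ 1 + |∑ n ∈ Ioc ⌊x / 2⌋₊ ⌊x⌋₊, ff 1 0 y n| := by
    rw [h5]
    have h7 : |(x - ⌊x⌋₊) - (x / 2 - ⌊x / 2⌋₊)| ≤ 1 := by
      rw [abs_le]; constructor <;> linarith
    exact (abs_sub _ _).trans (add_le_add h7 le_rfl)
  rw [abs_mul, abs_of_pos (W_pos y)] at h6
  have h7 : |DD (Pr y) x| ≤ W y * |DD (Pr y) x| := le_mul_of_one_le_left (abs_nonneg _) (W_ge_one y)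
  linarith

/-- the beginning of the `j`-th block -/
noncomputable def NJ (σ η : ℝ) (j : ℕ) : ℕ := ⌊Real.exp ((1 - η) * Qj σ j) / 2⌋₊

/-- the number of the block -/
noncomputable def JJ (σ η : ℝ) (n : ℕ) : ℕ := Nat.findGreatest (fun j => NJ σ η j ≤ n) n

/-- the sieve -/
noncomputable def TT (σ η : ℝ) (n : ℕ) : ℕ := 2 ^ JJ σ η n

theorem NJ_mono (σ η : ℝ) (hη : η ≤ 1) : Monotone (NJ σ η) := by
  intro i j hij
  unfold NJ
  apply Nat.floor_le_floor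
  have h := Qj_mono σ hij
  have : Real.exp ((1 - η) * Qj σ i) ≤ Real.exp ((1 - η) * Qj σ j) :=
    Real.exp_le_exp.2 (mul_le_mul_of_nonneg_left h (by linarith))
  linarith

theorem JJ_mono (σ η : ℝ) : Monotone (JJ σ η) := by
  intro m n hmn
  unfold JJ
  exact Nat.findGreatest_mono (fun j hj => le_trans hj hmn) hmn

theorem TT_mono (σ η : ℝ) : Monotone (TT σ η) := by
  intro m n hmn
  unfold TT
  exact Nat.pow_le_pow_right (by norm_num) (JJ_mono σ η hmn)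

theorem Qj_tendsto (σ : ℝ) (h0 : 0 ≤ σ) (h1 : σ < 1) : ∀ K : ℝ, ∀ᶠ j : ℕ in atTop, K * ((j : ℝ) + 3) ≤ Qj σ j := by
  intro K
  obtain ⟨κ, K1, c, hκ, hκ1, hK1, hc, hf⟩ := Qj_facts σ h0 h1
  obtain ⟨b, hb⟩ : ∃ b : ℝ, b = (2 : ℝ) ^ (1 - σ) := ⟨_, rfl⟩
  have hb1 : 1 < b := by rw [hb]; exact Real.one_lt_rpow (by norm_num) (by linarith)
  have hb0 : 0 < b := by linarith
  have h2 : Tendsto (fun j : ℕ => (j : ℝ) ^ 1 / b ^ j) atTop (𝓝 0) := tendsto_pow_const_div_const_pow_of_one_lt 1 hb1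
  have h3 : Tendsto (fun j : ℕ => (1 : ℝ) / b ^ j) atTop (𝓝 0) :=
    tendsto_const_nhds.div_atTop (tendsto_pow_atTop_atTop_of_one_lt hb1)
  have h4 := (h2.const_mul K).add (h3.const_mul (3 * K))
  rw [mul_zero, mul_zero, add_zero] at h4
  filter_upwards [hf, h4.eventually_lt_const hc] with j g1 g2
  have hbj : 0 < b ^ j := pow_pos hb0 j
  have e : ((2 : ℝ) ^ j) ^ (1 - σ) = b ^ j := by
    rw [hb, ← Real.rpow_natCast, ← Real.rpow_mul (by norm_num), ← Real.rpow_natCast, ← Real.rpow_mul (by norm_num)]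
    congr 1; ring
  rw [e] at g1
  refine le_trans ?_ g1.2.1
  have g3 : (K * ((j : ℝ) + 3)) / b ^ j < c := by
    calc (K * ((j : ℝ) + 3)) / b ^ j = K * ((j : ℝ) ^ 1 / b ^ j) + 3 * K * (1 / b ^ j) := by field_simp
      _ < c := g2
  rw [div_lt_iff₀ hbj] at g3
  exact g3.le

/-- the facts about the blocks -/
theorem blocks (σ : ℝ) (h0 : 0 ≤ σ) (h1 : σ < 1) : ∃ η : ℝ, 0 < η ∧ η ≤ 1 / 2 ∧
    (∀ᶠ j : ℕ in atTop, Real.exp ((1 + η) * Qj σ j) < NJ σ η (j + 1) ∧ j + 1 ≤ NJ σ η j ∧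
      Real.exp (Qj σ j / 4) ≤ NJ σ η j) := by
  obtain ⟨κ, K, c, hκ, hκ1, hK, hc, hf⟩ := Qj_facts σ h0 h1
  refine ⟨κ / 8, by positivity, by linarith, ?_⟩
  obtain ⟨η, hη⟩ : ∃ η : ℝ, η = κ / 8 := ⟨_, rfl⟩
  rw [← hη]
  have hη0 : 0 < η := by rw [hη]; positivity
  have hη1 : η ≤ 1 / 8 := by rw [hη]; linarith
  filter_upwards [hf, Qj_tendsto σ h0 h1 (4 + 4 / η)] with j g1 g2
  have hj : (0 : ℝ) ≤ j := Nat.cast_nonneg j
  have hQ : 4 * ((j : ℝ) + 3) ≤ Qj σ j := by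
    refine le_trans ?_ g2
    apply mul_le_mul_of_nonneg_right _ (by linarith)
    have : 0 < 4 / η := by positivity
    linarith
  have hQη : 4 ≤ η * Qj σ j := by
    have h2 : 4 / η * 3 ≤ Qj σ j := by
      refine le_trans ?_ g2
      apply mul_le_mul _ (by linarith) (by norm_num) (by positivity)
      linarith
    have h3 : 4 / η ≤ Qj σ j := by
      have : 0 < 4 / η := by positivity
      linarith
    rw [div_le_iff₀ hη0] at h3
    linarith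
  obtain ⟨Q, hQd⟩ : ∃ Q : ℝ, Q = Qj σ j := ⟨_, rfl⟩
  rw [← hQd] at hQ hQη g1 ⊢
  have hQ0 : 0 < Q := by linarith
  refine ⟨?_, ?_, ?_⟩
  · unfold NJ
    have h2 : (1 + 2 * η) * Q ≤ (1 - η) * Qj σ (j + 1) := by
      calc (1 + 2 * η) * Q ≤ (1 - η) * ((1 + κ) * Q) := by
            have : (1 + 2 * η) ≤ (1 - η) * (1 + κ) := by rw [hη]; nlinarith
            calc (1 + 2 * η) * Q ≤ ((1 - η) * (1 + κ)) * Q := mul_le_mul_of_nonneg_right this hQ0.le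
              _ = _ := by ring
        _ ≤ _ := mul_le_mul_of_nonneg_left g1.1 (by linarith)
    have h3 : Real.exp ((1 + η) * Q) * Real.exp (η * Q) ≤ Real.exp ((1 - η) * Qj σ (j + 1)) := by
      rw [← Real.exp_add]
      apply Real.exp_le_exp.2
      linarith
    have h4 : 4 ≤ Real.exp (η * Q) := by
      have := Real.add_one_le_exp (η * Q)
      linarith
    have h5 : 1 ≤ Real.exp ((1 + η) * Q) := Real.one_le_exp (by positivity)
    have h6 := Nat.lt_floor_add_one (Real.exp ((1 - η) * Qj σ (j + 1)) / 2)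
    have h7 : 4 * Real.exp ((1 + η) * Q) ≤ Real.exp ((1 - η) * Qj σ (j + 1)) := by
      refine le_trans ?_ h3
      rw [mul_comm]
      exact mul_le_mul_of_nonneg_left h4 (Real.exp_pos _).le
    linarith
  · unfold NJ
    rw [Nat.le_floor_iff (by positivity), ← hQd]
    push_cast
    have h2 := Real.add_one_le_exp ((1 - η) * Q)
    have h3 : 2 * ((j : ℝ) + 1) ≤ (1 - η) * Q := by
      calc 2 * ((j : ℝ) + 1) ≤ (1 / 2) * Q := by linarith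
        _ ≤ _ := mul_le_mul_of_nonneg_right (by linarith) hQ0.le
    linarith
  · unfold NJ
    rw [← hQd]
    have h6 := Nat.lt_floor_add_one (Real.exp ((1 - η) * Q) / 2)
    have h2 : Real.exp (Q / 4) * Real.exp (Q / 4) ≤ Real.exp ((1 - η) * Q) := by
      rw [← Real.exp_add]
      apply Real.exp_le_exp.2
      nlinarith
    have h3 : 4 ≤ Real.exp (Q / 4) := by
      have := Real.add_one_le_exp (Q / 4)
      linarith
    nlinarith

end Pool.Agent.U746.RH
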