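import Pool.Agent.U746.RH.Sie
import Pool.Agent.U839.Sv.Poor
import Pool.Agent.Helper112.Arith

set_option autoImplicit false

/-! # The expected number of chosen elements of a progression -/

open Finset Filter Topology

namespace Pool.Agent.U746.RH

open Pool.Agent.U839.Sv (Pr mem_Pr W W_pos W_le' fT fT_nonneg one_sub_pos)

theorem sum_rpow (σ : ℝ) (h0 : 0 ≤ σ) (h1 : σ < 1) (y : ℕ) :
    ∑ n ∈ Ioc 0 y, (n : ℝ) ^ (-σ) ≤ (y : ℝ) ^ (1 - σ) / (1 - σ) := by
  have hs : 0 < 1 - σ := by linarith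
  induction y with
  | zero =>
    simp only [Ioc_self, Finset.sum_empty, Nat.cast_zero]
    exact div_nonneg (Real.rpow_nonneg le_rfl _) hs.le
  | succ y ih =>
    rw [← Finset.insert_Ioc_right_eq_Ioc_add_one (by omega : 0 ≤ y), Finset.sum_insert (by simp)]
    have hy : (0 : ℝ) < (y : ℝ) + 1 := by positivity
    have hb := rpow_one_add_le_one_add_mul_self (s := -(1 / ((y : ℝ) + 1))) (p := 1 - σ)
      (by
        have : 1 / ((y : ℝ) + 1) ≤ 1 := by
          rw [div_le_one hy]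
          have : (0 : ℝ) ≤ y := Nat.cast_nonneg y
          linarith
        linarith) hs.le (by linarith)
    have h3 : 1 + -(1 / ((y : ℝ) + 1)) = y / (y + 1) := by
      field_simp
      ring
    rw [h3, Real.div_rpow (Nat.cast_nonneg y) hy.le] at hb
    have hyp : 0 < ((y : ℝ) + 1) ^ (1 - σ) := Real.rpow_pos_of_pos hy _
    rw [div_le_iff₀ hyp] at hb
    have h4 : ((y : ℝ) + 1) ^ (1 - σ) = (y + 1) * ((y : ℝ) + 1) ^ (-σ) := by
      rw [sub_eq_add_neg, Real.rpow_add hy, Real.rpow_one]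
    push_cast
    rw [le_div_iff₀ hs] at ih ⊢
    have h5 : (1 + (1 - σ) * -(1 / ((y : ℝ) + 1))) * ((y : ℝ) + 1) ^ (1 - σ) =
        ((y : ℝ) + 1) ^ (1 - σ) - (1 - σ) * ((y : ℝ) + 1) ^ (-σ) := by
      rw [h4]
      field_simp
      ring
    rw [h5] at hb
    rw [add_mul]
    linarith

theorem Fs_Pr_le (σ : ℝ) (h0 : 0 ≤ σ) (h1 : σ < 1) (y : ℕ) :
    Fs (Pr y) σ ≤ (y : ℝ) ^ (1 - σ) / (1 - σ) := by
  refine le_trans ?_ (sum_rpow σ h0 h1 y)
  unfold Fs
  apply Finset.sum_le_sum_of_subset_of_nonneg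
  · intro p hp
    rw [mem_Pr] at hp
    rw [mem_Ioc]
    exact ⟨hp.1.pos, hp.2⟩
  · intro n _ _
    exact Real.rpow_nonneg (Nat.cast_nonneg n) _

/-- initial segments -/
theorem seg (T : ℕ → ℕ) (hT : Monotone T) (x y : ℕ) : ∃ b ≤ x, (Ioc 0 x).filter (fun n => T n < y) = Ioc 0 b := by
  induction x with
  | zero => exact ⟨0, le_rfl, by simp⟩
  | succ x ih =>
    by_cases h : T (x + 1) < y
    · refine ⟨x + 1, le_rfl, ?_⟩
      apply Finset.filter_true_of_mem
      intro n hn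
      rw [mem_Ioc] at hn
      exact (hT hn.2).trans_lt h
    · obtain ⟨b, hb, hb2⟩ := ih
      refine ⟨b, by omega, ?_⟩
      rw [← hb2]
      ext n
      simp only [mem_filter, mem_Ioc]
      constructor
      · rintro ⟨⟨h1, h2⟩, h3⟩
        have : n ≠ x + 1 := by
          rintro rfl
          exact h h3
        exact ⟨⟨h1, by omega⟩, h3⟩
      · rintro ⟨⟨h1, h2⟩, h3⟩
        exact ⟨⟨h1, by omega⟩, h3⟩

/-- sums with a varying level -/
theorem fib (T : ℕ → ℕ) (hT : Monotone T) (f : ℕ → ℕ → ℝ) (x : ℕ) (B : ℝ)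
    (hB : ∀ y ≤ T x, ∀ X ≤ x, |∑ n ∈ Ioc 0 X, f y n| ≤ B) :
    |∑ n ∈ Ioc 0 x, f (T n) n| ≤ 2 * (T x + 1) * B := by
  have h1 : ∑ n ∈ Ioc 0 x, f (T n) n = ∑ y ∈ range (T x + 1), ∑ n ∈ (Ioc 0 x).filter (fun n => T n = y), f (T n) n := by
    rw [Finset.sum_fiberwise_of_maps_to]
    intro n hn
    rw [mem_Ioc] at hn
    rw [mem_range]
    exact Nat.lt_succ_of_le (hT hn.2)
  rw [h1]
  have h2 : ∀ y ∈ range (T x + 1), |∑ n ∈ (Ioc 0 x).filter (fun n => T n = y), f (T n) n| ≤ 2 * B := by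
    intro y hy
    rw [mem_range] at hy
    obtain ⟨b, hb, hb2⟩ := seg T hT x y
    obtain ⟨c, hc, hc2⟩ := seg T hT x (y + 1)
    have h3 : ∑ n ∈ (Ioc 0 x).filter (fun n => T n = y), f (T n) n =
        ∑ n ∈ (Ioc 0 x).filter (fun n => T n = y), f y n := by
      apply Finset.sum_congr rfl
      intro n hn
      rw [(mem_filter.1 hn).2]
    have h4 : ∑ n ∈ (Ioc 0 x).filter (fun n => T n < y + 1), f y n =
        ∑ n ∈ (Ioc 0 x).filter (fun n => T n < y), f y n + ∑ n ∈ (Ioc 0 x).filter (fun n => T n = y), f y n := by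
      rw [← Finset.sum_union]
      · congr 1
        ext n
        simp only [mem_filter, mem_union]
        constructor
        · rintro ⟨h5, h6⟩
          rcases Nat.lt_succ_iff_lt_or_eq.1 h6 with h7 | h7
          · exact Or.inl ⟨h5, h7⟩
          · exact Or.inr ⟨h5, h7⟩
        · rintro (⟨h5, h6⟩ | ⟨h5, h6⟩)
          · exact ⟨h5, by omega⟩
          · exact ⟨h5, by omega⟩
      · rw [Finset.disjoint_left]
        intro n hn hn'
        have h5 := (mem_filter.1 hn).2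
        have h6 := (mem_filter.1 hn').2
        omega
    rw [hb2, hc2] at h4
    have h5 := hB y (by omega) b hb
    have h6 := hB y (by omega) c hc
    rw [h3]
    have h7 : ∑ n ∈ (Ioc 0 x).filter (fun n => T n = y), f y n = ∑ n ∈ Ioc 0 c, f y n - ∑ n ∈ Ioc 0 b, f y n := by
      linarith
    rw [h7]
    rw [abs_le] at *
    constructor <;> linarith [h5.1, h5.2, h6.1, h6.2]
  refine (Finset.abs_sum_le_sum_abs _ _).trans ((Finset.sum_le_sum h2).trans (le_of_eq ?_))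
  rw [Finset.sum_const, card_range, nsmul_eq_mul]
  push_cast
  ring

/-- the density of a class modulo `q` -/
noncomputable def mt (y q : ℕ) : ℝ := (1 / (q : ℝ)) * ∏ p ∈ (Pr y).filter (fun p => p ∣ q), (1 - 1 / (p : ℝ))⁻¹

open Classical in
/-- the function summed at the level `y` -/
noncomputable def ff (q a y n : ℕ) : ℝ :=
  (if n ≡ a [MOD q] ∧ ∀ p, p.Prime → p ≤ y → ¬ p ∣ n then W y else 0) - mt y q

theorem ff_sum (q a y X : ℕ) (hq : 0 < q) (ha : a.Coprime q) :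
    ∑ n ∈ Ioc 0 X, ff q a y n = W y * ((cn ((Pr y).filter (fun p => ¬ p ∣ q)) q a X : ℝ) -
      (X : ℝ) / q * ∏ p ∈ (Pr y).filter (fun p => ¬ p ∣ q), (1 - 1 / (p : ℝ))) := by
  classical
  obtain ⟨S, hS⟩ : ∃ S, S = (Pr y).filter (fun p => ¬ p ∣ q) := ⟨_, rfl⟩
  rw [← hS]
  unfold ff
  rw [Finset.sum_sub_distrib, Finset.sum_const, Nat.card_Ioc, nsmul_eq_mul, mul_sub]
  have h1 : W y * ∏ p ∈ S, (1 - 1 / (p : ℝ)) = ∏ p ∈ (Pr y).filter (fun p => p ∣ q), (1 - 1 / (p : ℝ))⁻¹ := by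
    have h2 : W y = (∏ p ∈ (Pr y).filter (fun p => p ∣ q), (1 - 1 / (p : ℝ))⁻¹) * ∏ p ∈ S, (1 - 1 / (p : ℝ))⁻¹ := by
      rw [hS, Finset.prod_filter_mul_prod_filter_not]
      rfl
    have h3 : (∏ p ∈ S, (1 - 1 / (p : ℝ))⁻¹) * ∏ p ∈ S, (1 - 1 / (p : ℝ)) = 1 := by
      rw [← Finset.prod_mul_distrib]
      apply Finset.prod_eq_one
      intro p hp
      rw [hS, mem_filter, mem_Pr] at hp
      exact inv_mul_cancel₀ (one_sub_pos hp.1.1).ne'
    rw [h2, mul_assoc, h3, mul_one]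
  have h4 : W y * ((X : ℝ) / q * ∏ p ∈ S, (1 - 1 / (p : ℝ))) = ((X - 0 : ℕ) : ℝ) * mt y q := by
    unfold mt
    rw [← h1, Nat.sub_zero]
    ring
  rw [h4]
  congr 1
  unfold cn AP
  rw [Finset.filter_filter, Finset.card_filter]
  push_cast
  rw [Finset.mul_sum]
  apply Finset.sum_congr rfl
  intro n _
  have h5 : (n ≡ a [MOD q] ∧ ∀ p, p.Prime → p ≤ y → ¬ p ∣ n) ↔ (n ≡ a [MOD q] ∧ ∀ p ∈ S, ¬ p ∣ n) := by
    constructor
    · rintro ⟨h6, h7⟩
      refine ⟨h6, fun p hp => ?_⟩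
      rw [hS, mem_filter, mem_Pr] at hp
      exact h7 p hp.1.1 hp.1.2
    · rintro ⟨h6, h7⟩
      refine ⟨h6, fun p hp hpy hpn => ?_⟩
      by_cases hpq : p ∣ q
      · -- `p` divides `a`
        have h8 : p ∣ a := (Nat.ModEq.dvd_iff (h6.of_dvd hpq) dvd_rfl).1 hpn
        have h9 : p ∣ 1 := by
          rw [← ha]
          exact Nat.dvd_gcd h8 hpq
        exact hp.one_lt.ne' (Nat.dvd_one.1 h9)
      · exact h7 p (by rw [hS, mem_filter, mem_Pr]; exact ⟨⟨hp, hpy⟩, hpq⟩) hpn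
  by_cases h6 : (n ≡ a [MOD q] ∧ ∀ p ∈ S, ¬ p ∣ n)
  · rw [if_pos (h5.2 h6), if_pos h6]; ring
  · rw [if_neg (fun h => h6 (h5.1 h)), if_neg h6]; ring

theorem two_pow_le {S : Finset ℕ} (hS : ∀ p ∈ S, p.Prime) (n : ℕ) (hn : 1 ≤ n) :
    (2 : ℝ) ^ (S.filter (fun p => p ∣ n)).card ≤ n.divisors.card := by
  have h1 : (2 : ℝ) ^ (S.filter (fun p => p ∣ n)).card = (((S.filter (fun p => p ∣ n)).powerset).card : ℝ) := by
    rw [Finset.card_powerset]; push_cast; rfl
  rw [h1]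
  have h2 : ((S.filter (fun p => p ∣ n)).powerset).card ≤ n.divisors.card := by
    apply Finset.card_le_card_of_injOn dd
    · intro s hs
      rw [mem_coe, mem_powerset] at hs
      rw [mem_coe, Nat.mem_divisors]
      refine ⟨?_, by omega⟩
      rw [dd_dvd hS (fun p hp => (mem_filter.1 (hs hp)).1)]
      intro p hp
      exact (mem_filter.1 (hs hp)).2
    · intro s hs t ht hst
      rw [mem_coe, mem_powerset] at hs ht
      have hsP : ∀ p ∈ s, p.Prime := fun p hp => hS p (mem_filter.1 (hs hp)).1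
      have htP : ∀ p ∈ t, p.Prime := fun p hp => hS p (mem_filter.1 (ht hp)).1
      ext p
      constructor
      · intro hp
        have h3 : p ∣ dd t := by
          rw [← hst]
          exact Finset.dvd_prod_of_mem (fun p => p) hp
        unfold dd at h3
        rw [Prime.dvd_finsetProd_iff (hsP p hp).prime] at h3
        obtain ⟨r, hr, hpr⟩ := h3
        rwa [(Nat.prime_dvd_prime_iff_eq (hsP p hp) (htP r hr)).1 hpr]
      · intro hp
        have h3 : p ∣ dd s := by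
          rw [hst]
          exact Finset.dvd_prod_of_mem (fun p => p) hp
        unfold dd at h3
        rw [Prime.dvd_finsetProd_iff (htP p hp).prime] at h3
        obtain ⟨r, hr, hpr⟩ := h3
        rwa [(Nat.prime_dvd_prime_iff_eq (htP p hp) (hsP r hr)).1 hpr]
  exact_mod_cast h2

end Pool.Agent.U746.RH
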