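import Pool.Agent.U746.RH.Det
import Pool.Agent.U839.Sv.Fin

set_option autoImplicit false

/-! # The expected number of chosen elements: the size of the error -/

open Finset Filter Topology

namespace Pool.Agent.U746.RH

open Pool.Agent.U839.Sv (Pr mem_Pr W W_pos W_le' W_mono fT fT_nonneg one_sub_pos sub_pow)
open Pool.Agent.U839.Thin (tlog)

theorem mt_nonneg (y q : ℕ) : 0 ≤ mt y q := by
  unfold mt
  apply mul_nonneg (by positivity)
  apply Finset.prod_nonneg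
  intro p hp
  rw [mem_filter, mem_Pr] at hp
  exact (inv_pos.2 (one_sub_pos hp.1.1)).le

theorem one_le_inv {p : ℕ} (hp : p.Prime) : 1 ≤ (1 - 1 / (p : ℝ))⁻¹ := by
  apply (one_le_inv₀ (one_sub_pos hp)).2
  have : (0 : ℝ) ≤ 1 / (p : ℝ) := by positivity
  linarith

theorem mt_le (y q : ℕ) (hq : 1 ≤ q) : mt y q ≤ W y := by
  unfold mt
  have hq' : (1 : ℝ) ≤ q := by exact_mod_cast hq
  have h1 : (1 / (q : ℝ)) ≤ 1 := by
    rw [div_le_one (by linarith)]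
    exact hq'
  have h2 : ∏ p ∈ (Pr y).filter (fun p => p ∣ q), (1 - 1 / (p : ℝ))⁻¹ ≤ W y := by
    have h3 : W y = (∏ p ∈ (Pr y).filter (fun p => p ∣ q), (1 - 1 / (p : ℝ))⁻¹) *
        ∏ p ∈ (Pr y).filter (fun p => ¬ p ∣ q), (1 - 1 / (p : ℝ))⁻¹ := by
      rw [Finset.prod_filter_mul_prod_filter_not]
      rfl
    rw [h3]
    have h4 : (1 : ℝ) ≤ ∏ p ∈ (Pr y).filter (fun p => ¬ p ∣ q), (1 - 1 / (p : ℝ))⁻¹ := by
      calc (1 : ℝ) = ∏ p ∈ (Pr y).filter (fun p => ¬ p ∣ q), (1 : ℝ) := by rw [Finset.prod_const_one]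
        _ ≤ _ := by
          apply Finset.prod_le_prod
          · intro p _; exact zero_le_one
          · intro p hp
            rw [mem_filter, mem_Pr] at hp
            exact one_le_inv hp.1.1
    have h5 : (0 : ℝ) ≤ ∏ p ∈ (Pr y).filter (fun p => p ∣ q), (1 - 1 / (p : ℝ))⁻¹ := by
      apply Finset.prod_nonneg
      intro p hp
      rw [mem_filter, mem_Pr] at hp
      exact (inv_pos.2 (one_sub_pos hp.1.1)).le
    exact le_mul_of_one_le_right h5 h4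
  have h6 : (0 : ℝ) ≤ ∏ p ∈ (Pr y).filter (fun p => p ∣ q), (1 - 1 / (p : ℝ))⁻¹ := by
    apply Finset.prod_nonneg
    intro p hp
    rw [mem_filter, mem_Pr] at hp
    exact (inv_pos.2 (one_sub_pos hp.1.1)).le
  calc (1 / (q : ℝ)) * ∏ p ∈ (Pr y).filter (fun p => p ∣ q), (1 - 1 / (p : ℝ))⁻¹
      ≤ 1 * ∏ p ∈ (Pr y).filter (fun p => p ∣ q), (1 - 1 / (p : ℝ))⁻¹ := mul_le_mul_of_nonneg_right h1 h6
    _ ≤ W y := by rw [one_mul]; exact h2

theorem ff_abs (q a y n : ℕ) (hq : 1 ≤ q) : |ff q a y n| ≤ W y := by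
  unfold ff
  have h1 := mt_nonneg y q
  have h2 := mt_le y q hq
  have h3 := (W_pos y).le
  split_ifs
  · rw [abs_le]; constructor <;> linarith
  · rw [abs_le]; constructor <;> linarith

/-- one level -/
theorem level1 (q a y X y1 : ℕ) (hq : 1 ≤ q) (ha : a.Coprime q) (hy : y ≤ y1) (hy1 : 1 ≤ y1) (G : ℝ) (hG0 : 0 ≤ G)
    (hG : ∀ n, 1 ≤ n → n ≤ X → (n.divisors.card : ℝ) ≤ G) (σ : ℝ) (hσ : 0 ≤ σ) (hσ1 : σ < 1)
    (Z : ℝ) (hZ : (X : ℝ) / q ≤ Z) (hZ1 : 1 ≤ Z) :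
    |∑ n ∈ Ioc 0 X, ff q a y n| ≤ (y1 + 1) * ((2 + 2 * G) * ((Z * y1) ^ σ *
      Real.exp ((y1 : ℝ) ^ (1 - σ) / (1 - σ)))) := by
  rw [ff_sum q a y X (by omega) ha, abs_mul, abs_of_pos (W_pos y)]
  have h1 : W y ≤ (y1 : ℝ) + 1 := (W_mono hy).trans (W_le' y1)
  apply mul_le_mul h1 _ (abs_nonneg _) (by positivity)
  obtain ⟨S, hS⟩ : ∃ S, S = (Pr y).filter (fun p => ¬ p ∣ q) := ⟨_, rfl⟩
  rw [← hS]
  have hSp : ∀ p ∈ S, p.Prime ∧ ¬ p ∣ q := by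
    intro p hp
    rw [hS, mem_filter, mem_Pr] at hp
    exact ⟨hp.1.1, hp.2⟩
  have h2 := sie (S := S) q a X y1 (by omega) hy1 hSp
    (fun p hp => by
      rw [hS, mem_filter, mem_Pr] at hp
      exact hp.1.2.trans hy) G hG0
    (fun n h3 h4 => (two_pow_le (fun p hp => (hSp p hp).1) n h3).trans (hG n h3 h4)) σ hσ hσ1.le
  refine h2.trans ?_
  apply mul_le_mul_of_nonneg_left _ (by linarith)
  have h0 : (0 : ℝ) ≤ max ((X : ℝ) / q) 1 * y1 := by positivity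
  apply mul_le_mul _ _ (Real.exp_pos _).le (by positivity)
  · apply Real.rpow_le_rpow h0 _ hσ
    apply mul_le_mul_of_nonneg_right (max_le hZ hZ1) (Nat.cast_nonneg _)
  · apply Real.exp_le_exp.2
    have h3 : S ⊆ Pr y1 := by
      intro p hp
      rw [hS, mem_filter, mem_Pr] at hp
      rw [mem_Pr]
      exact ⟨hp.1.1, hp.1.2.trans hy⟩
    exact (Fs_mono h3 σ).trans (Fs_Pr_le σ hσ hσ1 y1)

/-- the growth condition -/
def Gr (A : ℝ) (T : ℕ → ℕ) : Prop := ∀ δ : ℝ, 0 < δ → ∀ᶠ n : ℕ in atTop, (T n : ℝ) ≤ (Real.log n) ^ (A + δ)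

theorem asy (A : ℝ) (hA : 0 < A) (T : ℕ → ℕ) (hT : Gr A T) (Θ ε : ℝ) (hΘ0 : 1 / 2 ≤ Θ) (hΘ1 : 1 - 1 / A ≤ Θ) (hε : 0 < ε)
    (hε1 : Θ + ε ≤ 1) :
    ∀ᶠ x : ℕ in atTop, ((T x : ℝ) + 2) ≤ (x : ℝ) ^ (ε / 32) ∧
      Real.exp (((T x + 1 : ℕ) : ℝ) ^ (1 - (Θ + ε / 4)) / (1 - (Θ + ε / 4))) ≤ (x : ℝ) ^ (ε / 4) := by
  obtain ⟨σ, hσ⟩ : ∃ σ : ℝ, σ = Θ + ε / 4 := ⟨_, rfl⟩
  rw [← hσ]
  have hσ1 : 0 < 1 - σ := by rw [hσ]; linarith
  obtain ⟨δ, hδ⟩ : ∃ δ : ℝ, δ = A ^ 2 * ε / 8 := ⟨_, rfl⟩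
  have hδ0 : 0 < δ := by rw [hδ]; positivity
  obtain ⟨e, he⟩ : ∃ e : ℝ, e = 1 - A * ε / 8 := ⟨_, rfl⟩
  have he1 : e < 1 := by rw [he]; have : 0 < A * ε / 8 := by positivity
                         linarith
  have hAe : (A + δ) * (1 - σ) ≤ e := by
    have h1 : 1 - σ ≤ 1 / A - ε / 4 := by rw [hσ]; linarith
    have h2 : (A + δ) * (1 - σ) ≤ (A + δ) * (1 / A - ε / 4) := mul_le_mul_of_nonneg_left h1 (by positivity)
    have h3 : (A + δ) * (1 / A - ε / 4) = 1 - A * ε / 4 + δ / A - δ * ε / 4 := by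
      field_simp
      ring
    have h4 : δ / A = A * ε / 8 := by rw [hδ]; field_simp
    have h5 : 0 < δ * ε / 4 := by positivity
    rw [he]
    linarith
  have hd := hT δ hδ0
  have hsub := sub_pow T (A + δ) hd
  have hx : Tendsto (fun n : ℕ => (n : ℝ)) atTop atTop := tendsto_natCast_atTop_atTop
  have h1 : ∀ᶠ x : ℕ in atTop, (x : ℝ) ^ (ε / 64) + 2 ≤ (x : ℝ) ^ (ε / 32) := by
    have h2 : Tendsto (fun x : ℕ => (x : ℝ) ^ (ε / 64)) atTop atTop := (tendsto_rpow_atTop (by positivity)).comp hx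
    filter_upwards [h2.eventually_ge_atTop 2, eventually_gt_atTop 0] with x h3 h4
    have h5 : (x : ℝ) ^ (ε / 32) = (x : ℝ) ^ (ε / 64) * (x : ℝ) ^ (ε / 64) := by
      rw [← Real.rpow_add (by exact_mod_cast h4)]
      congr 1; ring
    rw [h5]
    nlinarith
  -- the exponential
  have h2 : ∀ᶠ L : ℝ in atTop, (2 : ℝ) ^ (1 - σ) * L ^ e ≤ ε / 4 * (1 - σ) * L := by
    have h3 : Tendsto (fun L : ℝ => L ^ (1 - e)) atTop atTop := tendsto_rpow_atTop (by linarith)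
    filter_upwards [h3.eventually_ge_atTop ((2 : ℝ) ^ (1 - σ) / (ε / 4 * (1 - σ))), eventually_gt_atTop 0] with L h4 h5
    have h6 : L = L ^ e * L ^ (1 - e) := by
      rw [← Real.rpow_add h5]
      have : e + (1 - e) = 1 := by ring
      rw [this, Real.rpow_one]
    have h7 : 0 < L ^ e := Real.rpow_pos_of_pos h5 _
    rw [div_le_iff₀ (by positivity)] at h4
    calc (2 : ℝ) ^ (1 - σ) * L ^ e ≤ (L ^ (1 - e) * (ε / 4 * (1 - σ))) * L ^ e :=
          mul_le_mul_of_nonneg_right h4 h7.le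
      _ = ε / 4 * (1 - σ) * (L ^ e * L ^ (1 - e)) := by ring
      _ = _ := by rw [← h6]
  filter_upwards [hsub (ε / 64) (by positivity), h1, hd, tlog.eventually h2, tlog.eventually_ge_atTop 1,
    eventually_gt_atTop 1] with x k1 k2 k3 k4 k5 k6
  have hx0 : (0 : ℝ) < x := by exact_mod_cast (by omega : 0 < x)
  refine ⟨by linarith, ?_⟩
  rw [Real.rpow_def_of_pos hx0]
  apply Real.exp_le_exp.2
  rw [div_le_iff₀ hσ1]
  have hL : 1 ≤ Real.log x := k5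
  have h3 : (((T x + 1 : ℕ) : ℝ)) ≤ 2 * (Real.log x) ^ (A + δ) := by
    push_cast
    have : (1 : ℝ) ≤ (Real.log x) ^ (A + δ) := Real.one_le_rpow hL (by positivity)
    linarith
  calc (((T x + 1 : ℕ) : ℝ)) ^ (1 - σ) ≤ (2 * (Real.log x) ^ (A + δ)) ^ (1 - σ) :=
        Real.rpow_le_rpow (Nat.cast_nonneg _) h3 hσ1.le
    _ = (2 : ℝ) ^ (1 - σ) * (Real.log x) ^ ((A + δ) * (1 - σ)) := by
        rw [Real.mul_rpow (by norm_num) (by positivity), ← Real.rpow_mul (by linarith)]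
    _ ≤ (2 : ℝ) ^ (1 - σ) * (Real.log x) ^ e := by
        apply mul_le_mul_of_nonneg_left _ (by positivity)
        exact Real.rpow_le_rpow_of_exponent_le hL hAe
    _ ≤ ε / 4 * (1 - σ) * Real.log x := k4
    _ = _ := by ring

theorem det_small (A : ℝ) (hA : 0 < A) (T : ℕ → ℕ) (hTm : Monotone T) (hT : Gr A T) (Θ ε : ℝ) (hΘ0 : 1 / 2 ≤ Θ)
    (hΘ1 : 1 - 1 / A ≤ Θ) (hε : 0 < ε) (hε1 : Θ + ε ≤ 1) :
    ∃ C : ℝ, 0 < C ∧ ∀ x q a : ℕ, 1 ≤ q → q ≤ x → a.Coprime q →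
      |∑ n ∈ Ioc 0 x, ff q a (T n) n| ≤ C * ((x : ℝ) ^ ε * ((x : ℝ) / q) ^ Θ) := by
  obtain ⟨x0, hx0⟩ := eventually_atTop.1 (asy A hA T hT Θ ε hΘ0 hΘ1 hε hε1)
  obtain ⟨C1, hC1, hdiv⟩ := Pool.Agent.Helper112.divisor_bound (ε / 8) (by positivity)
  refine ⟨2 * x0 * (T x0 + 1) + 2 * (2 + 2 * C1), by positivity, ?_⟩
  intro x q a hq hqx ha
  have hq0 : (0 : ℝ) < q := by exact_mod_cast (by omega : 0 < q)
  have hx1 : (1 : ℝ) ≤ x := by exact_mod_cast (hq.trans hqx)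
  have hx00 : (0 : ℝ) < x := by linarith
  have hxq : (1 : ℝ) ≤ (x : ℝ) / q := by
    rw [le_div_iff₀ hq0, one_mul]
    exact_mod_cast hqx
  have hΘp : 0 ≤ Θ := by linarith
  have hone : (1 : ℝ) ≤ (x : ℝ) ^ ε * ((x : ℝ) / q) ^ Θ := by
    have h1 := Real.one_le_rpow hx1 hε.le
    have h2 := Real.one_le_rpow hxq hΘp
    nlinarith
  obtain ⟨R, hR⟩ : ∃ R : ℝ, R = (x : ℝ) ^ ε * ((x : ℝ) / q) ^ Θ := ⟨_, rfl⟩
  rw [← hR] at hone ⊢
  rcases lt_or_ge x x0 with hlt | hge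
  · -- small `x`
    have h1 : |∑ n ∈ Ioc 0 x, ff q a (T n) n| ≤ 2 * x0 * (T x0 + 1) := by
      calc |∑ n ∈ Ioc 0 x, ff q a (T n) n| ≤ ∑ n ∈ Ioc 0 x, ((T x0 : ℝ) + 1) := by
            refine (Finset.abs_sum_le_sum_abs _ _).trans (Finset.sum_le_sum ?_)
            intro n hn
            rw [mem_Ioc] at hn
            exact (ff_abs q a (T n) n hq).trans ((W_mono (hTm (hn.2.trans hlt.le))).trans (W_le' _))
        _ = x * ((T x0 : ℝ) + 1) := by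
            rw [Finset.sum_const, Nat.card_Ioc, nsmul_eq_mul, Nat.sub_zero]
        _ ≤ x0 * ((T x0 : ℝ) + 1) := by
            apply mul_le_mul_of_nonneg_right _ (by positivity)
            exact_mod_cast hlt.le
        _ ≤ _ := by
            have : (0 : ℝ) ≤ x0 * ((T x0 : ℝ) + 1) := by positivity
            linarith
    calc |∑ n ∈ Ioc 0 x, ff q a (T n) n| ≤ 2 * x0 * (T x0 + 1) := h1
      _ ≤ 2 * x0 * (T x0 + 1) + 2 * (2 + 2 * C1) := by linarith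
      _ = (2 * x0 * (T x0 + 1) + 2 * (2 + 2 * C1)) * 1 := by ring
      _ ≤ _ := mul_le_mul_of_nonneg_left hone (by positivity)
  · obtain ⟨k1, k2⟩ := hx0 x hge
    obtain ⟨σ, hσ⟩ : ∃ σ : ℝ, σ = Θ + ε / 4 := ⟨_, rfl⟩
    rw [← hσ] at k2
    have hσ0 : 0 ≤ σ := by rw [hσ]; linarith
    have hσ1 : σ < 1 := by rw [hσ]; linarith
    obtain ⟨G, hG⟩ : ∃ G : ℝ, G = C1 * (x : ℝ) ^ (ε / 8) := ⟨_, rfl⟩
    have hG0 : 0 ≤ G := by rw [hG]; positivity
    obtain ⟨B, hB⟩ : ∃ B : ℝ, B = (((T x + 1 : ℕ) : ℝ) + 1) * ((2 + 2 * G) * (((x : ℝ) / q * ((T x + 1 : ℕ) : ℝ)) ^ σ *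
      Real.exp ((((T x + 1 : ℕ) : ℝ)) ^ (1 - σ) / (1 - σ)))) := ⟨_, rfl⟩
    have h1 := fib T hTm (ff q a) x B (by
      intro y hy X hX
      rw [hB]
      apply level1 q a y X (T x + 1) hq ha (by omega) (by omega) G hG0 _ σ hσ0 hσ1
      · apply div_le_div_of_nonneg_right _ hq0.le
        exact_mod_cast hX
      · exact hxq
      · intro n h2 h3
        refine (hdiv n h2).trans ?_
        rw [hG]
        apply mul_le_mul_of_nonneg_left _ hC1.le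
        apply Real.rpow_le_rpow (Nat.cast_nonneg _) _ (by positivity)
        exact_mod_cast h3.trans hX)
    refine h1.trans ?_
    -- the powers of `x`
    obtain ⟨z, hz⟩ : ∃ z : ℝ, z = (x : ℝ) ^ (ε / 32) := ⟨_, rfl⟩
    have hz1 : 1 ≤ z := by rw [hz]; exact Real.one_le_rpow hx1 (by positivity)
    have hz0 : 0 < z := by linarith
    rw [← hz] at k1
    have hp : ∀ m : ℕ, z ^ m = (x : ℝ) ^ (ε / 32 * m) := by
      intro m
      rw [hz, ← Real.rpow_natCast, ← Real.rpow_mul hx00.le]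
    have e1 : (2 + 2 * G) ≤ (2 + 2 * C1) * z ^ 4 := by
      rw [hp, hG]
      have h2 : (x : ℝ) ^ (ε / 32 * ((4 : ℕ) : ℝ)) = (x : ℝ) ^ (ε / 8) := by
        congr 1; push_cast; ring
      rw [h2]
      have h3 := Real.one_le_rpow hx1 (show 0 ≤ ε / 8 by positivity)
      nlinarith
    have e2 : Real.exp ((((T x + 1 : ℕ) : ℝ)) ^ (1 - σ) / (1 - σ)) ≤ z ^ 8 := by
      rw [hp]
      refine k2.trans (le_of_eq ?_)
      congr 1; push_cast; ring
    have e3 : ((x : ℝ) / q) ^ σ ≤ ((x : ℝ) / q) ^ Θ * z ^ 8 := by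
      rw [hσ, Real.rpow_add (by linarith), hp]
      apply mul_le_mul_of_nonneg_left _ (by positivity)
      have h2 : ε / 32 * ((8 : ℕ) : ℝ) = ε / 4 := by push_cast; ring
      rw [h2]
      apply Real.rpow_le_rpow (by positivity) _ (by positivity)
      rw [div_le_iff₀ hq0]
      have : (1 : ℝ) ≤ q := by exact_mod_cast hq
      nlinarith
    have e4 : (((T x + 1 : ℕ) : ℝ)) ^ σ ≤ z := by
      have h2 : (1 : ℝ) ≤ ((T x + 1 : ℕ) : ℝ) := by push_cast; have : (0:ℝ) ≤ T x := Nat.cast_nonneg _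
                                                    linarith
      calc (((T x + 1 : ℕ) : ℝ)) ^ σ ≤ (((T x + 1 : ℕ) : ℝ)) ^ (1 : ℝ) :=
            Real.rpow_le_rpow_of_exponent_le h2 hσ1.le
        _ = (T x : ℝ) + 1 := by rw [Real.rpow_one]; push_cast; ring
        _ ≤ z := by linarith
    have e5 : (((T x + 1 : ℕ) : ℝ) + 1) ≤ z := by push_cast; linarith
    have e6 : 2 * ((T x : ℝ) + 1) ≤ 2 * z := by linarith
    have e7 : ((x : ℝ) / q * ((T x + 1 : ℕ) : ℝ)) ^ σ ≤ (((x : ℝ) / q) ^ Θ * z ^ 8) * z := by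
      rw [Real.mul_rpow (by positivity) (by positivity)]
      exact mul_le_mul e3 e4 (by positivity) (by positivity)
    have hQ : (0 : ℝ) ≤ ((x : ℝ) / q) ^ Θ := by positivity
    have e8 : B ≤ z * (((2 + 2 * C1) * z ^ 4) * ((((x : ℝ) / q) ^ Θ * z ^ 8 * z) * z ^ 8)) := by
      rw [hB]
      apply mul_le_mul e5 _ (by positivity) hz0.le
      apply mul_le_mul e1 _ (by positivity) (by positivity)
      apply mul_le_mul e7 e2 (Real.exp_pos _).le (by positivity)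
    have hB0 : 0 ≤ B := by rw [hB]; positivity
    have e9 : 2 * ((T x : ℝ) + 1) * B ≤ (2 * z) * (z * (((2 + 2 * C1) * z ^ 4) * ((((x : ℝ) / q) ^ Θ * z ^ 8 * z) * z ^ 8))) :=
      mul_le_mul e6 e8 hB0 (by positivity)
    refine e9.trans ?_
    have e10 : (2 * z) * (z * (((2 + 2 * C1) * z ^ 4) * ((((x : ℝ) / q) ^ Θ * z ^ 8 * z) * z ^ 8))) =
        2 * (2 + 2 * C1) * (z ^ 23 * ((x : ℝ) / q) ^ Θ) := by ring
    rw [e10]
    have e11 : z ^ 23 ≤ (x : ℝ) ^ ε := by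
      rw [hp]
      apply Real.rpow_le_rpow_of_exponent_le hx1
      push_cast
      linarith
    calc 2 * (2 + 2 * C1) * (z ^ 23 * ((x : ℝ) / q) ^ Θ) ≤ 2 * (2 + 2 * C1) * R := by
          apply mul_le_mul_of_nonneg_left _ (by positivity)
          rw [hR]
          exact mul_le_mul_of_nonneg_right e11 hQ
      _ ≤ _ := by
          apply mul_le_mul_of_nonneg_right _ (by linarith)
          have : (0 : ℝ) ≤ 2 * x0 * (T x0 + 1) := by positivity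
          linarith

end Pool.Agent.U746.RH
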