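import Pool.Agent.U746.RH.Mel

set_option autoImplicit false

/-! # The main inequality -/

open Finset Filter Topology MeasureTheory

namespace Pool.Agent.U746.RH

theorem int_low (c K X : ℝ) (hc : 0 < c) (hX : 0 < X) :
    IntegrableOn (fun x : ℝ => K * x ^ (c - 1)) (Set.Ioc 0 X) ∧
    ∫ x in Set.Ioc 0 X, K * x ^ (c - 1) = K * X ^ c / c := by
  have h1 : IntervalIntegrable (fun x : ℝ => x ^ (c - 1)) volume 0 X :=
    intervalIntegral.intervalIntegrable_rpow' (by linarith)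
  have h2 : IntegrableOn (fun x : ℝ => x ^ (c - 1)) (Set.Ioc 0 X) :=
    (intervalIntegrable_iff_integrableOn_Ioc_of_le hX.le).1 h1
  refine ⟨h2.const_mul K, ?_⟩
  rw [integral_const_mul, ← intervalIntegral.integral_of_le hX.le, integral_rpow (Or.inl (by linarith))]
  rw [sub_add_cancel, Real.zero_rpow hc.ne', sub_zero]
  ring

theorem int_mid (K X Y : ℝ) (hX : 0 < X) (hXY : X ≤ Y) :
    IntegrableOn (fun x : ℝ => K * x ^ (-1 : ℝ)) (Set.Ioc X Y) ∧
    ∫ x in Set.Ioc X Y, K * x ^ (-1 : ℝ) = K * Real.log (Y / X) := by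
  have hcont : ContinuousOn (fun x : ℝ => K * x ^ (-1 : ℝ)) (Set.Icc X Y) := by
    apply ContinuousOn.mul continuousOn_const
    apply ContinuousOn.rpow_const continuousOn_id
    intro x hx
    exact Or.inl (hX.trans_le hx.1).ne'
  refine ⟨hcont.integrableOn_Icc.mono_set Set.Ioc_subset_Icc_self, ?_⟩
  rw [integral_const_mul, ← intervalIntegral.integral_of_le hXY, ← integral_inv_of_pos hX (hX.trans_le hXY)]
  congr 1
  apply intervalIntegral.integral_congr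
  intro x _
  simp only [Real.rpow_neg_one]

theorem int_high (c K X : ℝ) (hc : 0 < c) (hX : 0 < X) :
    IntegrableOn (fun x : ℝ => K * x ^ (-c - 1)) (Set.Ioi X) ∧
    ∫ x in Set.Ioi X, K * x ^ (-c - 1) = K * X ^ (-c) / c := by
  refine ⟨(integrableOn_Ioi_rpow_of_lt (by linarith) hX).const_mul K, ?_⟩
  rw [integral_const_mul, integral_Ioi_rpow_of_lt (by linarith) hX]
  rw [sub_add_cancel]
  field_simp

theorem main_ineq (S : Finset ℕ) (hS : ∀ p ∈ S, 0 < p) (z : ℂ) (σ σ1 σ2 : ℝ) (hz : z.re = σ)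
    (h2 : 0 ≤ σ2) (h2σ : σ2 < σ) (hσ1 : σ < σ1) (h1 : σ1 ≤ 1) (X1 X2 M : ℝ) (hX1 : 0 < X1) (hX : X1 ≤ X2)
    (hM0 : 0 ≤ M) (hM : ∀ x, X1 < x → x ≤ X2 → |DD S x| ≤ M * x ^ σ) :
    ‖1 - Complex.exp (-(z * Real.log 2))‖ * (‖PP S z‖ * ‖mellin fr (-z)‖) ≤
      2 * Real.exp (Fs S σ1) * X1 ^ (σ1 - σ) / (σ1 - σ) + M * Real.log (X2 / X1) +
      2 * Real.exp (Fs S σ2) * X2 ^ (-(σ - σ2)) / (σ - σ2) := by
  have hX2 : 0 < X2 := hX1.trans_le hX
  obtain ⟨k1, k2⟩ := DD_conv S hS z (by rw [hz]; linarith) (by rw [hz]; linarith)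
  rw [← norm_mul, ← norm_mul, ← k2]
  obtain ⟨f, hf⟩ : ∃ f : ℝ → ℂ, f = fun x : ℝ => (x : ℂ) ^ (-z - 1) • (DD S x : ℂ) := ⟨_, rfl⟩
  have hfi : IntegrableOn f (Set.Ioi 0) := by rw [hf]; exact k1
  have hfe : mellin (fun x => (DD S x : ℂ)) (-z) = ∫ x in Set.Ioi 0, f x := by rw [hf]; rfl
  have hfn : ∀ x : ℝ, 0 < x → ‖f x‖ = x ^ (-σ - 1) * |DD S x| := by
    intro x hx
    rw [hf]
    simp only [norm_smul]
    rw [Complex.norm_cpow_eq_rpow_re_of_pos hx, Complex.norm_real, Real.norm_eq_abs]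
    congr 2
    simp [hz]
  have hsplit : ∫ x in Set.Ioi 0, f x = (∫ x in Set.Ioc 0 X1, f x) + ((∫ x in Set.Ioc X1 X2, f x) + ∫ x in Set.Ioi X2, f x) := by
    rw [← setIntegral_union (Set.Ioc_disjoint_Ioi le_rfl) measurableSet_Ioi
      (hfi.mono_set (fun x hx => hX1.trans hx.1)) (hfi.mono_set (fun x hx => hX2.trans hx)),
      Set.Ioc_union_Ioi_eq_Ioi hX,
      ← setIntegral_union (Set.Ioc_disjoint_Ioi le_rfl) measurableSet_Ioi
      (hfi.mono_set (fun x hx => hx.1)) (hfi.mono_set (fun x hx => hX1.trans hx)),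
      Set.Ioc_union_Ioi_eq_Ioi hX1.le]
  rw [hfe, hsplit]
  obtain ⟨i1, i2⟩ := int_low (σ1 - σ) (2 * Real.exp (Fs S σ1)) X1 (by linarith) hX1
  obtain ⟨i3, i4⟩ := int_mid M X1 X2 hX1 hX
  obtain ⟨i5, i6⟩ := int_high (σ - σ2) (2 * Real.exp (Fs S σ2)) X2 (by linarith) hX2
  have e1 : ‖∫ x in Set.Ioc 0 X1, f x‖ ≤ 2 * Real.exp (Fs S σ1) * X1 ^ (σ1 - σ) / (σ1 - σ) := by
    rw [← i2]
    apply norm_integral_le_of_norm_le i1
    filter_upwards [ae_restrict_mem measurableSet_Ioc] with x hx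
    rw [hfn x hx.1]
    have h3 := DD_abs S hS x σ1 hx.1.le (by linarith) h1
    calc x ^ (-σ - 1) * |DD S x| ≤ x ^ (-σ - 1) * (2 * (x ^ σ1 * Real.exp (Fs S σ1))) :=
          mul_le_mul_of_nonneg_left h3 (Real.rpow_nonneg hx.1.le _)
      _ = 2 * Real.exp (Fs S σ1) * (x ^ (-σ - 1) * x ^ σ1) := by ring
      _ = _ := by
          rw [← Real.rpow_add hx.1]
          congr 2
          ring
  have e2 : ‖∫ x in Set.Ioc X1 X2, f x‖ ≤ M * Real.log (X2 / X1) := by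
    rw [← i4]
    apply norm_integral_le_of_norm_le i3
    filter_upwards [ae_restrict_mem measurableSet_Ioc] with x hx
    have hx0 : 0 < x := hX1.trans hx.1
    rw [hfn x hx0]
    calc x ^ (-σ - 1) * |DD S x| ≤ x ^ (-σ - 1) * (M * x ^ σ) :=
          mul_le_mul_of_nonneg_left (hM x hx.1 hx.2) (Real.rpow_nonneg hx0.le _)
      _ = M * (x ^ (-σ - 1) * x ^ σ) := by ring
      _ = _ := by
          rw [← Real.rpow_add hx0]
          congr 2
          ring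
  have e3 : ‖∫ x in Set.Ioi X2, f x‖ ≤ 2 * Real.exp (Fs S σ2) * X2 ^ (-(σ - σ2)) / (σ - σ2) := by
    rw [← i6]
    apply norm_integral_le_of_norm_le i5
    filter_upwards [ae_restrict_mem measurableSet_Ioi] with x hx
    have hx0 : 0 < x := hX2.trans hx
    rw [hfn x hx0]
    have h3 := DD_abs S hS x σ2 hx0.le h2 (by linarith)
    calc x ^ (-σ - 1) * |DD S x| ≤ x ^ (-σ - 1) * (2 * (x ^ σ2 * Real.exp (Fs S σ2))) :=
          mul_le_mul_of_nonneg_left h3 (Real.rpow_nonneg hx0.le _)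
      _ = 2 * Real.exp (Fs S σ2) * (x ^ (-σ - 1) * x ^ σ2) := by ring
      _ = _ := by
          rw [← Real.rpow_add hx0]
          congr 2
          ring
  calc ‖(∫ x in Set.Ioc 0 X1, f x) + ((∫ x in Set.Ioc X1 X2, f x) + ∫ x in Set.Ioi X2, f x)‖
      ≤ ‖∫ x in Set.Ioc 0 X1, f x‖ + (‖∫ x in Set.Ioc X1 X2, f x‖ + ‖∫ x in Set.Ioi X2, f x‖) :=
        (norm_add_le _ _).trans (add_le_add le_rfl (norm_add_le _ _))
    _ ≤ _ := by linarith

end Pool.Agent.U746.RH
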