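import Pool.Agent.U746.RH.Exs
import Pool.Agent.U746.RH.Int

set_option autoImplicit false

/-! # The Euler product at the height `π / log y` is large -/

open Finset Filter Topology

namespace Pool.Agent.U746.RH

open Pool.Agent.U839.Sv (Pr mem_Pr)
open Pool.Agent.U839.Thin (tlog)

/-- the point -/
noncomputable def zz (σ : ℝ) (y : ℕ) : ℂ := (σ : ℂ) + ((Real.pi / Real.log y : ℝ) : ℂ) * Complex.I

theorem zz_re (σ : ℝ) (y : ℕ) : (zz σ y).re = σ := by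
  unfold zz
  rw [Complex.add_re, Complex.ofReal_re, Complex.re_ofReal_mul, Complex.I_re, mul_zero, add_zero]

theorem fac_eq (σ : ℝ) (y p : ℕ) (hp : 0 < p) :
    Complex.exp (-(zz σ y * Real.log p)) =
      (((p : ℝ) ^ (-σ) : ℝ) : ℂ) * Complex.exp (((-(Real.pi / Real.log y * Real.log p) : ℝ) : ℂ) * Complex.I) := by
  have hp0 : (0 : ℝ) < p := by exact_mod_cast hp
  rw [Real.rpow_def_of_pos hp0, Complex.ofReal_exp, ← Complex.exp_add]
  congr 1
  unfold zz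
  push_cast
  ring

theorem fac_norm (σ : ℝ) (y p : ℕ) (hp : 0 < p) :
    ‖Complex.exp (-(zz σ y * Real.log p))‖ = (p : ℝ) ^ (-σ) := by
  rw [fac_eq σ y p hp, norm_mul, Complex.norm_exp_ofReal_mul_I, mul_one, Complex.norm_real,
    Real.norm_of_nonneg (Real.rpow_nonneg (Nat.cast_nonneg _) _)]

theorem fac_re (σ : ℝ) (y p : ℕ) (hp : 0 < p) :
    (Complex.exp (-(zz σ y * Real.log p))).re = (p : ℝ) ^ (-σ) * Real.cos (Real.pi / Real.log y * Real.log p) := by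
  rw [fac_eq σ y p hp, Complex.re_ofReal_mul, Complex.exp_ofReal_mul_I_re, Real.cos_neg]

theorem small_fac (σ : ℝ) (h0 : 0 < σ) (y p : ℕ) (hp : 2 ≤ p) :
    Real.exp (-(1 / (1 - (2 : ℝ) ^ (-σ))) * (p : ℝ) ^ (-σ)) ≤ ‖1 - Complex.exp (-(zz σ y * Real.log p))‖ := by
  have hp0 : (0 : ℝ) < p := by exact_mod_cast (by omega : 0 < p)
  obtain ⟨w, hw⟩ : ∃ w : ℝ, w = (p : ℝ) ^ (-σ) := ⟨_, rfl⟩
  have hw0 : 0 < w := by rw [hw]; exact Real.rpow_pos_of_pos hp0 _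
  have hw1 : w ≤ (2 : ℝ) ^ (-σ) := by
    rw [hw]
    exact Real.rpow_le_rpow_of_nonpos (by norm_num) (by exact_mod_cast hp) (by linarith)
  have h2 : (2 : ℝ) ^ (-σ) < 1 := Real.rpow_lt_one_of_one_lt_of_neg (by norm_num) (by linarith)
  have h3 : 1 - w ≤ ‖1 - Complex.exp (-(zz σ y * Real.log p))‖ := by
    have h4 := norm_sub_norm_le (1 : ℂ) (Complex.exp (-(zz σ y * Real.log p)))
    rw [norm_one, fac_norm σ y p (by omega)] at h4
    rw [hw]
    exact h4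
  refine le_trans ?_ h3
  rw [← hw]
  -- `exp (-w/(1-w)) ≤ 1 - w`
  have h5 : 0 < 1 - w := by linarith
  have h6 : -(1 / (1 - (2 : ℝ) ^ (-σ))) * w ≤ -(w / (1 - w)) := by
    rw [neg_mul, neg_le_neg_iff, one_div_mul_eq_div]
    apply div_le_div_of_nonneg_left hw0.le (by linarith) (by linarith)
  refine (Real.exp_le_exp.2 h6).trans ?_
  have h7 := Real.one_sub_inv_le_log_of_pos h5
  have h8 : -(w / (1 - w)) = 1 - (1 - w)⁻¹ := by field_simp; ring
  rw [h8]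
  calc Real.exp (1 - (1 - w)⁻¹) ≤ Real.exp (Real.log (1 - w)) := Real.exp_le_exp.2 h7
    _ = 1 - w := Real.exp_log h5

theorem large_fac (σ : ℝ) (h0 : 0 < σ) (δ : ℝ) (hδ : 0 < δ) (hδ1 : δ ≤ 1 / 8) (y p : ℕ) (hy : 1 < y) (hp : p ∈ LP δ y)
    (hsm : (y : ℝ) ^ (-((1 - δ) * σ)) ≤ 2 * δ) :
    Real.exp ((1 - 6 * δ) * (p : ℝ) ^ (-σ)) ≤ ‖1 - Complex.exp (-(zz σ y * Real.log p))‖ := by
  have hy0 : (0 : ℝ) < y := by exact_mod_cast (by omega : 0 < y)
  have hL : 0 < Real.log y := Real.log_pos (by exact_mod_cast hy)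
  unfold LP at hp
  rw [mem_filter, mem_Pr, not_le] at hp
  have hpp : 0 < p := hp.1.1.pos
  have hp0 : (0 : ℝ) < p := by exact_mod_cast hpp
  obtain ⟨w, hw⟩ : ∃ w : ℝ, w = (p : ℝ) ^ (-σ) := ⟨_, rfl⟩
  have hw0 : 0 < w := by rw [hw]; exact Real.rpow_pos_of_pos hp0 _
  have hw1 : w ≤ 2 * δ := by
    refine le_trans ?_ hsm
    rw [hw, ← mul_neg, Real.rpow_mul hy0.le]
    exact Real.rpow_le_rpow_of_nonpos (Real.rpow_pos_of_pos hy0 _) hp.2.le (by linarith)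
  obtain ⟨θ, hθ⟩ : ∃ θ : ℝ, θ = Real.pi / Real.log y * Real.log p := ⟨_, rfl⟩
  have hlogp1 : (1 - δ) * Real.log y ≤ Real.log p := by
    rw [← Real.log_rpow hy0]
    exact Real.log_le_log (by positivity) hp.2.le
  have hlogp2 : Real.log p ≤ Real.log y := Real.log_le_log hp0 (by exact_mod_cast hp.1.2)
  have hpi := Real.pi_pos
  have hθ1 : Real.pi * (1 - δ) ≤ θ := by
    rw [hθ]
    calc Real.pi * (1 - δ) = Real.pi / Real.log y * ((1 - δ) * Real.log y) := by field_simp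
      _ ≤ _ := mul_le_mul_of_nonneg_left hlogp1 (by positivity)
  have hθ2 : θ ≤ Real.pi := by
    rw [hθ]
    calc Real.pi / Real.log y * Real.log p ≤ Real.pi / Real.log y * Real.log y :=
          mul_le_mul_of_nonneg_left hlogp2 (by positivity)
      _ = Real.pi := by field_simp
  have hcos : Real.cos θ ≤ -(1 - 5 * δ ^ 2) := by
    have h1 : Real.cos θ = -Real.cos (Real.pi - θ) := by
      rw [Real.cos_pi_sub, neg_neg]
    have h2 := Real.one_sub_sq_div_two_le_cos (x := Real.pi - θ)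
    have h3 : 0 ≤ Real.pi - θ := by linarith
    have h4 : Real.pi - θ ≤ Real.pi * δ := by linarith
    have h5 : (Real.pi - θ) ^ 2 ≤ (Real.pi * δ) ^ 2 := pow_le_pow_left₀ h3 h4 2
    have h6 : Real.pi ^ 2 ≤ 10 := by
      have := Real.pi_lt_d2
      nlinarith
    have h7 : (Real.pi * δ) ^ 2 ≤ 10 * δ ^ 2 := by
      rw [mul_pow]
      exact mul_le_mul_of_nonneg_right h6 (by positivity)
    rw [h1]
    linarith
  have hre : 1 + w * (1 - 5 * δ ^ 2) ≤ ‖1 - Complex.exp (-(zz σ y * Real.log p))‖ := by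
    refine le_trans ?_ (Complex.re_le_norm _)
    rw [Complex.sub_re, Complex.one_re, fac_re σ y p hpp, ← hθ, ← hw]
    nlinarith
  refine le_trans ?_ hre
  rw [← hw]
  obtain ⟨u, hu⟩ : ∃ u : ℝ, u = w * (1 - 5 * δ ^ 2) := ⟨_, rfl⟩
  have hδ2 : 5 * δ ^ 2 ≤ 5 / 8 * δ := by nlinarith
  have hu0 : 0 ≤ u := by
    rw [hu]
    apply mul_nonneg hw0.le
    nlinarith
  have hu1 : u ≤ w := by
    rw [hu]
    nlinarith [sq_nonneg δ]
  rw [← hu]
  have h1 := Real.le_log_one_add_of_nonneg hu0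
  have h2 : (1 - 6 * δ) * w ≤ 2 * u / (u + 2) := by
    rw [le_div_iff₀ (by linarith)]
    have h3 : w * (1 - 5 / 8 * δ) ≤ u := by
      rw [hu]
      apply mul_le_mul_of_nonneg_left _ hw0.le
      linarith
    have h4 : (1 - 6 * δ) * w * (u + 2) ≤ (1 - 6 * δ) * w * (2 * δ + 2) := by
      apply mul_le_mul_of_nonneg_left (by linarith)
      exact mul_nonneg (by linarith) hw0.le
    have h5 : (1 - 6 * δ) * w * (2 * δ + 2) ≤ 2 * (w * (1 - 5 / 8 * δ)) := by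
      have h6 : (1 - 6 * δ) * (2 * δ + 2) ≤ 2 * (1 - 5 / 8 * δ) := by nlinarith
      nlinarith
    linarith
  calc Real.exp ((1 - 6 * δ) * w) ≤ Real.exp (Real.log (1 + u)) := Real.exp_le_exp.2 (h2.trans h1)
    _ = 1 + u := Real.exp_log (by linarith)

theorem PP_low (σ : ℝ) (h0 : 0 < σ) (h1 : σ < 1) (δ : ℝ) (hδ : 0 < δ) (hδ1 : δ ≤ 1 / 8) :
    ∀ᶠ y : ℕ in atTop, Real.exp (Fs (Pr y) σ * (1 - (7 + 1 / (1 - (2 : ℝ) ^ (-σ))) * δ)) ≤ ‖PP (Pr y) (zz σ y)‖ := by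
  have hx : Tendsto (fun n : ℕ => (n : ℝ)) atTop atTop := tendsto_natCast_atTop_atTop
  have hz : Tendsto (fun y : ℕ => (y : ℝ) ^ (-((1 - δ) * σ))) atTop (𝓝 0) :=
    (tendsto_rpow_neg_atTop (by nlinarith)).comp hx
  filter_upwards [SP_small σ δ h0.le h1 hδ, eventually_gt_atTop 1, hz.eventually_le_const (show (0 : ℝ) < 2 * δ by positivity)]
    with y k1 k2 k3
  obtain ⟨C, hC⟩ : ∃ C : ℝ, C = 1 / (1 - (2 : ℝ) ^ (-σ)) := ⟨_, rfl⟩
  have hC0 : 0 ≤ C := by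
    rw [hC]
    have h2 : (2 : ℝ) ^ (-σ) < 1 := Real.rpow_lt_one_of_one_lt_of_neg (by norm_num) (by linarith)
    apply div_nonneg zero_le_one
    linarith
  rw [← hC]
  obtain ⟨F, hF⟩ : ∃ F : ℝ, F = Fs (Pr y) σ := ⟨_, rfl⟩
  obtain ⟨F1, hF1⟩ : ∃ F1 : ℝ, F1 = Fs (SP δ y) σ := ⟨_, rfl⟩
  obtain ⟨F2, hF2⟩ : ∃ F2 : ℝ, F2 = Fs (LP δ y) σ := ⟨_, rfl⟩
  have hFF : F = F1 + F2 := by
    rw [hF, hF1, hF2]
    exact SL δ y _
  have hF0 : 0 ≤ F := by rw [hF]; exact Fs_nonneg _ _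
  rw [← hF, ← hF1] at k1
  rw [← hF]
  unfold PP
  rw [norm_prod]
  have hprod : ∏ p ∈ Pr y, ‖1 - Complex.exp (-(zz σ y * Real.log p))‖ =
      (∏ p ∈ SP δ y, ‖1 - Complex.exp (-(zz σ y * Real.log p))‖) *
      ∏ p ∈ LP δ y, ‖1 - Complex.exp (-(zz σ y * Real.log p))‖ :=
    (Finset.prod_filter_mul_prod_filter_not _ _ _).symm
  rw [hprod]
  have e1 : Real.exp (-C * F1) ≤ ∏ p ∈ SP δ y, ‖1 - Complex.exp (-(zz σ y * Real.log p))‖ := by
    rw [hF1]
    unfold Fs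
    rw [Finset.mul_sum, Real.exp_sum]
    apply Finset.prod_le_prod
    · intro p _; exact (Real.exp_pos _).le
    · intro p hp
      unfold SP at hp
      rw [mem_filter, mem_Pr] at hp
      rw [hC]
      exact small_fac σ h0 y p hp.1.1.two_le
  have e2 : Real.exp ((1 - 6 * δ) * F2) ≤ ∏ p ∈ LP δ y, ‖1 - Complex.exp (-(zz σ y * Real.log p))‖ := by
    rw [hF2]
    unfold Fs
    rw [Finset.mul_sum, Real.exp_sum]
    apply Finset.prod_le_prod
    · intro p _; exact (Real.exp_pos _).le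
    · intro p hp
      exact large_fac σ h0 δ hδ hδ1 y p k2 hp k3
  calc Real.exp (F * (1 - (7 + C) * δ)) ≤ Real.exp (-C * F1 + (1 - 6 * δ) * F2) := by
        apply Real.exp_le_exp.2
        have h2 : F2 = F - F1 := by linarith
        rw [h2]
        have h3 : (1 - 6 * δ) * F1 ≤ 1 * (δ * F) := by
          calc (1 - 6 * δ) * F1 ≤ (1 - 6 * δ) * (δ * F) := mul_le_mul_of_nonneg_left k1 (by linarith)
            _ ≤ 1 * (δ * F) := mul_le_mul_of_nonneg_right (by linarith) (by positivity)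
        have h4 : C * F1 ≤ C * (δ * F) := mul_le_mul_of_nonneg_left k1 hC0
        nlinarith
    _ = Real.exp (-C * F1) * Real.exp ((1 - 6 * δ) * F2) := Real.exp_add _ _
    _ ≤ _ := mul_le_mul e1 e2 (Real.exp_pos _).le ((Real.exp_pos _).le.trans e1)

end Pool.Agent.U746.RH
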