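import Mathlib
import Pool.Agent.U839.Sv.Count

set_option autoImplicit false

/-! # Products of primes: Rankin's method over subsets of a set of primes -/

open Finset

namespace Pool.Agent.U746.RH

open Pool.Agent.U839.Sv (Pr mem_Pr)

/-- the product of a set of integers -/
def dd (s : Finset ℕ) : ℕ := ∏ p ∈ s, p

theorem dd_pos {s : Finset ℕ} (hs : ∀ p ∈ s, 0 < p) : 0 < dd s := Finset.prod_pos hs

theorem dd_posR {s : Finset ℕ} (hs : ∀ p ∈ s, 0 < p) : (0 : ℝ) < dd s := by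
  exact_mod_cast dd_pos hs

theorem dd_rpow (s : Finset ℕ) (σ : ℝ) : ((dd s : ℕ) : ℝ) ^ σ = ∏ p ∈ s, (p : ℝ) ^ σ := by
  unfold dd
  push_cast
  rw [Real.finset_prod_rpow _ _ (fun p _ => Nat.cast_nonneg p)]

/-- the exponent sum -/
noncomputable def Fs (S : Finset ℕ) (σ : ℝ) : ℝ := ∑ p ∈ S, (p : ℝ) ^ (-σ)

theorem Fs_nonneg (S : Finset ℕ) (σ : ℝ) : 0 ≤ Fs S σ :=
  Finset.sum_nonneg fun p _ => Real.rpow_nonneg (Nat.cast_nonneg p) _

theorem Fs_mono {S S' : Finset ℕ} (h : S ⊆ S') (σ : ℝ) : Fs S σ ≤ Fs S' σ :=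
  Finset.sum_le_sum_of_subset_of_nonneg h fun p _ _ => Real.rpow_nonneg (Nat.cast_nonneg p) _

theorem ran (S : Finset ℕ) (σ : ℝ) :
    ∑ s ∈ S.powerset, ((dd s : ℕ) : ℝ) ^ (-σ) ≤ Real.exp (Fs S σ) := by
  have h1 : ∑ s ∈ S.powerset, ((dd s : ℕ) : ℝ) ^ (-σ) = ∏ p ∈ S, (1 + (p : ℝ) ^ (-σ)) := by
    rw [Finset.prod_one_add]
    exact Finset.sum_congr rfl fun s _ => dd_rpow s _
  rw [h1]
  unfold Fs
  rw [Real.exp_sum]
  apply Finset.prod_le_prod
  · intro p _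
    have := Real.rpow_nonneg (Nat.cast_nonneg (α := ℝ) p) (-σ)
    linarith
  · intro p _
    have := Real.add_one_le_exp ((p : ℝ) ^ (-σ))
    linarith

/-- weights which are at most `(Y / d)^σ` -/
theorem ran_le (S : Finset ℕ) (hS : ∀ p ∈ S, 0 < p) (σ Y : ℝ) (hY : 0 ≤ Y) (A : Finset (Finset ℕ))
    (hA : A ⊆ S.powerset) (f : Finset ℕ → ℝ)
    (hf : ∀ s ∈ A, f s ≤ (Y / dd s) ^ σ) : ∑ s ∈ A, f s ≤ Y ^ σ * Real.exp (Fs S σ) := by
  calc ∑ s ∈ A, f s ≤ ∑ s ∈ A, Y ^ σ * ((dd s : ℕ) : ℝ) ^ (-σ) := by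
        apply Finset.sum_le_sum
        intro s hs
        refine (hf s hs).trans (le_of_eq ?_)
        have hpos : (0 : ℝ) ≤ dd s := Nat.cast_nonneg _
        rw [Real.div_rpow hY hpos, Real.rpow_neg hpos, div_eq_mul_inv]
    _ ≤ ∑ s ∈ S.powerset, Y ^ σ * ((dd s : ℕ) : ℝ) ^ (-σ) := by
        apply Finset.sum_le_sum_of_subset_of_nonneg hA
        intro s _ _
        exact mul_nonneg (Real.rpow_nonneg hY _) (Real.rpow_nonneg (Nat.cast_nonneg _) _)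
    _ = Y ^ σ * ∑ s ∈ S.powerset, ((dd s : ℕ) : ℝ) ^ (-σ) := by rw [Finset.mul_sum]
    _ ≤ Y ^ σ * Real.exp (Fs S σ) := by
        apply mul_le_mul_of_nonneg_left (ran S σ) (Real.rpow_nonneg hY _)

/-- number of the subsets with product at most `Y` -/
theorem ran_card (S : Finset ℕ) (hS : ∀ p ∈ S, 0 < p) (σ Y : ℝ) (hσ : 0 ≤ σ) (hY : 0 ≤ Y) :
    (((S.powerset).filter (fun s => ((dd s : ℕ) : ℝ) ≤ Y)).card : ℝ) ≤ Y ^ σ * Real.exp (Fs S σ) := by
  have h1 : (((S.powerset).filter (fun s => ((dd s : ℕ) : ℝ) ≤ Y)).card : ℝ) =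
      ∑ s ∈ (S.powerset).filter (fun s => ((dd s : ℕ) : ℝ) ≤ Y), (1 : ℝ) := by
    rw [Finset.sum_const, nsmul_eq_mul, mul_one]
  rw [h1]
  apply ran_le S hS σ Y hY _ (Finset.filter_subset _ _)
  intro s hs
  rw [mem_filter, mem_powerset] at hs
  have hp : (0 : ℝ) < dd s := dd_posR fun p hp => hS p (hs.1 hp)
  apply Real.one_le_rpow _ hσ
  rw [le_div_iff₀ hp]
  linarith [hs.2]

/-- a subset with product in a short range -/
theorem short (S : Finset ℕ) (hS : ∀ p ∈ S, 0 < p) (y : ℕ) (hy : ∀ p ∈ S, p ≤ y) (hy1 : 1 ≤ y) (Y : ℝ)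
    (hY0 : 0 ≤ Y)
    (h : Y < dd S) : ∃ s ⊆ S, Y < dd s ∧ ((dd s : ℕ) : ℝ) ≤ max Y 1 * y := by
  classical
  induction S using Finset.induction_on with
  | empty =>
    refine ⟨∅, subset_rfl, h, ?_⟩
    have h1 : ((dd ∅ : ℕ) : ℝ) = 1 := by simp [dd]
    rw [h1]
    have h2 : (1 : ℝ) ≤ y := by exact_mod_cast hy1
    calc (1 : ℝ) = 1 * 1 := by ring
      _ ≤ max Y 1 * y := mul_le_mul (le_max_right _ _) h2 zero_le_one (le_trans zero_le_one (le_max_right _ _))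
  | insert a s ha ih =>
    by_cases h1 : Y < dd s
    · obtain ⟨s', h2, h3, h4⟩ := ih (fun p hp => hS p (mem_insert_of_mem hp))
        (fun p hp => hy p (mem_insert_of_mem hp)) h1
      exact ⟨s', h2.trans (subset_insert _ _), h3, h4⟩
    · refine ⟨insert a s, subset_rfl, h, ?_⟩
      have h2 : dd (insert a s) = a * dd s := by
        unfold dd
        rw [Finset.prod_insert ha]
      rw [h2]
      push_cast
      have h3 : (a : ℝ) ≤ y := by exact_mod_cast hy a (mem_insert_self _ _)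
      have h4 : ((dd s : ℕ) : ℝ) ≤ max Y 1 := (not_lt.1 h1).trans (le_max_left _ _)
      calc (a : ℝ) * dd s ≤ y * max Y 1 :=
            mul_le_mul h3 h4 (Nat.cast_nonneg _) (Nat.cast_nonneg _)
        _ = _ := mul_comm _ _

end Pool.Agent.U746.RH
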