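import Pool.Agent.U746.RH.Ran

set_option autoImplicit false

/-! # The sieve in an arithmetic progression with an error of square root size -/

open Finset

namespace Pool.Agent.U746.RH

open Pool.Agent.U839.Sv (Pr mem_Pr)

theorem Ncount (m c X : ℕ) (hm : 0 < m) :
    |(((Ioc 0 X).filter (fun n => n ≡ c [MOD m])).card : ℝ) - X / m| ≤ 1 := by
  have h := Nat.Ioc_filter_modEq_card 0 X hm c
  have hm0 : (0 : ℚ) < m := by exact_mod_cast hm
  obtain ⟨A, hA⟩ : ∃ A : ℤ, A = ⌊((X : ℚ) - c) / m⌋ := ⟨_, rfl⟩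
  obtain ⟨B, hB⟩ : ∃ B : ℤ, B = ⌊(((0 : ℕ) : ℚ) - c) / m⌋ := ⟨_, rfl⟩
  rw [← hA, ← hB] at h
  have hAB : B ≤ A := by
    rw [hA, hB]
    apply Int.floor_le_floor
    apply div_le_div_of_nonneg_right _ hm0.le
    have : (0 : ℚ) ≤ X := Nat.cast_nonneg X
    push_cast
    linarith
  rw [max_eq_left (by omega)] at h
  have h1 := Int.floor_le (((X : ℚ) - c) / m)
  have h2 := Int.lt_floor_add_one (((X : ℚ) - c) / m)
  have h3 := Int.floor_le ((((0 : ℕ) : ℚ) - c) / m)
  have h4 := Int.lt_floor_add_one ((((0 : ℕ) : ℚ) - c) / m)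
  rw [← hA] at h1 h2
  rw [← hB] at h3 h4
  have h5 : ((X : ℚ) - c) / m - (((0 : ℕ) : ℚ) - c) / m = X / m := by
    push_cast
    ring
  have h6 : |(((Ioc 0 X).filter (fun n => n ≡ c [MOD m])).card : ℚ) - X / m| ≤ 1 := by
    have h7 : (((Ioc 0 X).filter (fun n => n ≡ c [MOD m])).card : ℚ) = A - B := by
      have : ((((Ioc 0 X).filter (fun n => n ≡ c [MOD m])).card : ℤ) : ℚ) = ((A - B : ℤ) : ℚ) := by rw [h]
      push_cast at this
      exact this
    rw [h7, abs_le]
    constructor <;> linarith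
  have h7 : ((|(((Ioc 0 X).filter (fun n => n ≡ c [MOD m])).card : ℚ) - X / m| : ℚ) : ℝ) ≤ ((1 : ℚ) : ℝ) := by
    exact_mod_cast h6
  push_cast at h7
  exact h7

theorem cop_of_sub {S s : Finset ℕ} {q : ℕ} (hS : ∀ p ∈ S, p.Prime ∧ ¬ p ∣ q) (hs : s ⊆ S) :
    q.Coprime (dd s) := by
  apply Nat.Coprime.prod_right
  intro p hp
  exact ((Nat.Prime.coprime_iff_not_dvd (hS p (hs hp)).1).2 (hS p (hs hp)).2).symm

theorem dd_dvd {S s : Finset ℕ} (hS : ∀ p ∈ S, p.Prime) (hs : s ⊆ S) (n : ℕ) :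
    dd s ∣ n ↔ ∀ p ∈ s, p ∣ n := by
  constructor
  · intro h p hp
    exact (Finset.dvd_prod_of_mem (fun p => p) hp).trans h
  · intro h
    exact Finset.prod_primes_dvd n (fun p hp => (hS p (hs hp)).prime) h

/-- the progression -/
def AP (q a X : ℕ) : Finset ℕ := (Ioc 0 X).filter (fun n => n ≡ a [MOD q])

theorem mem_AP {q a X n : ℕ} : n ∈ AP q a X ↔ (0 < n ∧ n ≤ X) ∧ n ≡ a [MOD q] := by
  unfold AP
  rw [mem_filter, mem_Ioc]

/-- the elements of the progression which are divisible by the product of `s` -/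
def NN (q a X : ℕ) (s : Finset ℕ) : ℕ := ((AP q a X).filter (fun n => dd s ∣ n)).card

theorem NN_bound {S s : Finset ℕ} (q a X : ℕ) (hq : 0 < q) (hS : ∀ p ∈ S, p.Prime ∧ ¬ p ∣ q) (hs : s ⊆ S) :
    |(NN q a X s : ℝ) - (X : ℝ) / q / dd s| ≤ 1 := by
  have hc := cop_of_sub hS hs
  have hd : 0 < dd s := dd_pos fun p hp => (hS p (hs hp)).1.pos
  obtain ⟨c, hc1, hc2⟩ := Nat.chineseRemainder hc a 0
  have h1 : NN q a X s = ((Ioc 0 X).filter (fun n => n ≡ c [MOD (q * dd s)])).card := by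
    unfold NN AP
    rw [Finset.filter_filter]
    congr 1
    apply Finset.filter_congr
    intro n _
    rw [← Nat.modEq_and_modEq_iff_modEq_mul hc]
    constructor
    · rintro ⟨h1, h2⟩
      exact ⟨h1.trans hc1.symm, ((Nat.modEq_zero_iff_dvd).2 h2).trans hc2.symm⟩
    · rintro ⟨h1, h2⟩
      exact ⟨h1.trans hc1, (Nat.modEq_zero_iff_dvd).1 (h2.trans hc2)⟩
  have h2 := Ncount (q * dd s) c X (Nat.mul_pos hq hd)
  rw [h1]
  have h3 : (X : ℝ) / q / dd s = X / ((q * dd s : ℕ) : ℝ) := by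
    push_cast
    rw [div_div]
  rw [h3]
  exact h2

/-- the sign of a set -/
def sg (s : Finset ℕ) : ℝ := (-1) ^ s.card

theorem sg_abs (s : Finset ℕ) : |sg s| = 1 := by
  unfold sg
  rw [abs_pow, abs_neg, abs_one, one_pow]

theorem ind {S : Finset ℕ} (hS : ∀ p ∈ S, p.Prime) (n : ℕ) :
    (if ∀ p ∈ S, ¬ p ∣ n then (1 : ℝ) else 0) =
      ∑ s ∈ S.powerset, if dd s ∣ n then sg s else 0 := by
  have h1 : (if ∀ p ∈ S, ¬ p ∣ n then (1 : ℝ) else 0) =
      ∏ p ∈ S, (1 + (if p ∣ n then (-1 : ℝ) else 0)) := by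
    split_ifs with h
    · symm
      apply Finset.prod_eq_one
      intro p hp
      rw [if_neg (h p hp), add_zero]
    · push Not at h
      obtain ⟨p, hp, hpn⟩ := h
      symm
      apply Finset.prod_eq_zero hp
      rw [if_pos hpn]
      norm_num
  rw [h1, Finset.prod_one_add]
  apply Finset.sum_congr rfl
  intro s hs
  rw [mem_powerset] at hs
  split_ifs with h
  · rw [dd_dvd hS hs] at h
    unfold sg
    rw [← Finset.prod_const]
    apply Finset.prod_congr rfl
    intro p hp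
    rw [if_pos (h p hp)]
  · rw [dd_dvd hS hs] at h
    push Not at h
    obtain ⟨p, hp, hpn⟩ := h
    apply Finset.prod_eq_zero hp
    rw [if_neg hpn]

/-- the number of the elements of the progression without factors in `S` -/
def cn (S : Finset ℕ) (q a X : ℕ) : ℕ := ((AP q a X).filter (fun n => ∀ p ∈ S, ¬ p ∣ n)).card

theorem cn_eq {S : Finset ℕ} (hS : ∀ p ∈ S, p.Prime) (q a X : ℕ) :
    (cn S q a X : ℝ) = ∑ s ∈ S.powerset, sg s * NN q a X s := by
  unfold cn
  rw [Finset.card_filter]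
  push_cast
  rw [Finset.sum_congr rfl (fun n _ => ind hS n), Finset.sum_comm]
  apply Finset.sum_congr rfl
  intro s _
  unfold NN
  rw [Finset.card_filter]
  push_cast
  rw [Finset.mul_sum]
  apply Finset.sum_congr rfl
  intro n _
  split_ifs <;> simp

theorem main_eq {S : Finset ℕ} (hS : ∀ p ∈ S, p.Prime) (Y : ℝ) :
    Y * ∏ p ∈ S, (1 - 1 / (p : ℝ)) = ∑ s ∈ S.powerset, sg s * (Y / dd s) := by
  have h1 : ∏ p ∈ S, (1 - 1 / (p : ℝ)) = ∏ p ∈ S, (1 + (-1) * (1 / (p : ℝ))) := by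
    apply Finset.prod_congr rfl
    intro p _
    ring
  rw [h1, Finset.prod_one_add, Finset.mul_sum]
  apply Finset.sum_congr rfl
  intro s _
  rw [Finset.prod_mul_distrib, Finset.prod_const]
  unfold sg dd
  have h2 : ∏ p ∈ s, (1 / (p : ℝ)) = 1 / ((∏ p ∈ s, p : ℕ) : ℝ) := by
    push_cast
    rw [Finset.prod_div_distrib, Finset.prod_const_one]
  rw [h2]
  ring

open Classical in
theorem sie {S : Finset ℕ} (q a X y : ℕ) (hq : 0 < q) (hy : 1 ≤ y)
    (hS : ∀ p ∈ S, p.Prime ∧ ¬ p ∣ q) (hSy : ∀ p ∈ S, p ≤ y) (G : ℝ)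
    (hG0 : 0 ≤ G) (hG : ∀ n, 1 ≤ n → n ≤ X → (2 : ℝ) ^ (S.filter (fun p => p ∣ n)).card ≤ G)
    (σ : ℝ) (hσ : 0 ≤ σ) (hσ1 : σ ≤ 1) :
    |(cn S q a X : ℝ) - (X : ℝ) / q * ∏ p ∈ S, (1 - 1 / (p : ℝ))| ≤
      (2 + 2 * G) * ((max ((X : ℝ) / q) 1 * y) ^ σ * Real.exp (Fs S σ)) := by
  have hSp : ∀ p ∈ S, p.Prime := fun p hp => (hS p hp).1
  have hS0 : ∀ p ∈ S, 0 < p := fun p hp => (hS p hp).1.pos
  obtain ⟨Y, hY⟩ : ∃ Y : ℝ, Y = (X : ℝ) / q := ⟨_, rfl⟩
  have hY0 : 0 ≤ Y := by rw [hY]; positivity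
  obtain ⟨Y1, hY1⟩ : ∃ Y1 : ℝ, Y1 = max Y 1 * y := ⟨_, rfl⟩
  have hy1 : (1 : ℝ) ≤ y := by exact_mod_cast hy
  have hYY : Y ≤ Y1 := by
    rw [hY1]
    calc Y ≤ max Y 1 := le_max_left _ _
      _ = max Y 1 * 1 := (mul_one _).symm
      _ ≤ max Y 1 * y := mul_le_mul_of_nonneg_left hy1 (le_trans zero_le_one (le_max_right _ _))
  have hY10 : 0 ≤ Y1 := hY0.trans hYY
  obtain ⟨R, hR⟩ : ∃ R : ℝ, R = Y1 ^ σ * Real.exp (Fs S σ) := ⟨_, rfl⟩
  rw [← hY, ← hY1, ← hR]
  have hexp := Real.exp_pos (Fs S σ)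
  have hRY : Y ^ σ * Real.exp (Fs S σ) ≤ R := by
    rw [hR]
    exact mul_le_mul_of_nonneg_right (Real.rpow_le_rpow hY0 hYY hσ) hexp.le
  rw [cn_eq hSp, main_eq hSp, ← Finset.sum_sub_distrib]
  rw [← Finset.sum_filter_add_sum_filter_not S.powerset (fun s => ((dd s : ℕ) : ℝ) ≤ Y)]
  -- small products
  have k1 : |∑ s ∈ S.powerset.filter (fun s => ((dd s : ℕ) : ℝ) ≤ Y),
      (sg s * (NN q a X s : ℝ) - sg s * (Y / dd s))| ≤ R := by
    refine le_trans ?_ hRY
    calc |∑ s ∈ S.powerset.filter (fun s => ((dd s : ℕ) : ℝ) ≤ Y),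
          (sg s * (NN q a X s : ℝ) - sg s * (Y / dd s))|
        ≤ ∑ s ∈ S.powerset.filter (fun s => ((dd s : ℕ) : ℝ) ≤ Y), (1 : ℝ) := by
          refine (Finset.abs_sum_le_sum_abs _ _).trans (Finset.sum_le_sum ?_)
          intro s hs
          rw [mem_filter, mem_powerset] at hs
          rw [← mul_sub, abs_mul, sg_abs, one_mul, hY]
          exact NN_bound q a X hq hS hs.1
      _ = ((S.powerset.filter (fun s => ((dd s : ℕ) : ℝ) ≤ Y)).card : ℝ) := by
          rw [Finset.sum_const, nsmul_eq_mul, mul_one]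
      _ ≤ _ := ran_card S hS0 σ Y hσ hY0
  -- the main terms with large products
  have k2 : |∑ s ∈ S.powerset.filter (fun s => ¬ ((dd s : ℕ) : ℝ) ≤ Y), sg s * (Y / dd s)| ≤ R := by
    refine le_trans ?_ hRY
    refine (Finset.abs_sum_le_sum_abs _ _).trans ?_
    apply ran_le S hS0 σ Y hY0 _ (Finset.filter_subset _ _)
    intro s hs
    rw [mem_filter, mem_powerset, not_le] at hs
    have hp : (0 : ℝ) < dd s := dd_posR fun p hp => hS0 p (hs.1 hp)
    rw [abs_mul, sg_abs, one_mul, abs_of_nonneg (div_nonneg hY0 hp.le)]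
    have h1 : Y / dd s ≤ 1 := by
      rw [div_le_one hp]; exact hs.2.le
    calc Y / dd s = (Y / dd s) ^ (1 : ℝ) := (Real.rpow_one _).symm
      _ ≤ (Y / dd s) ^ σ := by
          rcases (div_nonneg hY0 hp.le).lt_or_eq with h2 | h2
          · exact Real.rpow_le_rpow_of_exponent_ge h2 h1 hσ1
          · rw [← h2]
            rw [Real.zero_rpow one_ne_zero]
            exact Real.rpow_nonneg le_rfl _
  -- the numbers with large products
  have k3 : |∑ s ∈ S.powerset.filter (fun s => ¬ ((dd s : ℕ) : ℝ) ≤ Y), sg s * (NN q a X s : ℝ)| ≤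
      2 * G * R := by
    obtain ⟨B, hB⟩ : ∃ B, B = S.powerset.filter (fun s => ¬ ((dd s : ℕ) : ℝ) ≤ Y) := ⟨_, rfl⟩
    obtain ⟨D, hD⟩ : ∃ D, D = B.filter (fun s => ((dd s : ℕ) : ℝ) ≤ Y1) := ⟨_, rfl⟩
    rw [← hB]
    have h1 : ∑ s ∈ B, sg s * (NN q a X s : ℝ) =
        ∑ n ∈ AP q a X, ∑ s ∈ B, (if dd s ∣ n then sg s else 0) := by
      rw [Finset.sum_comm]
      apply Finset.sum_congr rfl
      intro s _
      unfold NN
      rw [Finset.card_filter]
      push_cast
      rw [Finset.mul_sum]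
      apply Finset.sum_congr rfl
      intro n _
      split_ifs <;> simp
    have h2 : ∀ n ∈ AP q a X, |∑ s ∈ B, (if dd s ∣ n then sg s else (0 : ℝ))| ≤
        G * ∑ s ∈ D, (if dd s ∣ n then (1 : ℝ) else 0) := by
      intro n hn
      rw [mem_AP] at hn
      have hGn := hG n hn.1.1 hn.1.2
      by_cases hex : ∃ s ∈ B, dd s ∣ n
      · -- some large product divides
        obtain ⟨s, hs, hsn⟩ := hex
        rw [hB, mem_filter, mem_powerset, not_le] at hs
        have h3 : Y < dd (S.filter (fun p => p ∣ n)) := by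
          refine hs.2.trans_le ?_
          have h4 : s ⊆ S.filter (fun p => p ∣ n) := by
            intro p hp
            rw [mem_filter]
            exact ⟨hs.1 hp, ((dd_dvd hSp hs.1 n).1 hsn) p hp⟩
          have h5 : dd s ∣ dd (S.filter (fun p => p ∣ n)) := Finset.prod_dvd_prod_of_subset _ _ _ h4
          have h6 : 0 < dd (S.filter (fun p => p ∣ n)) := dd_pos fun p hp => hS0 p (mem_filter.1 hp).1
          exact_mod_cast Nat.le_of_dvd h6 h5
        obtain ⟨t, ht1, ht2, ht3⟩ := short (S.filter (fun p => p ∣ n)) (fun p hp => hS0 p (mem_filter.1 hp).1) y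
          (fun p hp => hSy p (mem_filter.1 hp).1) hy Y hY0 h3
        have ht4 : t ⊆ S := fun p hp => (mem_filter.1 (ht1 hp)).1
        have ht5 : dd t ∣ n := (dd_dvd hSp ht4 n).2 fun p hp => (mem_filter.1 (ht1 hp)).2
        have ht6 : t ∈ D := by
          rw [hD, mem_filter, hB, mem_filter, mem_powerset, not_le, hY1]
          exact ⟨⟨ht4, ht2⟩, ht3⟩
        have h7 : (1 : ℝ) ≤ ∑ s ∈ D, (if dd s ∣ n then (1 : ℝ) else 0) := by
          calc (1 : ℝ) = if dd t ∣ n then (1 : ℝ) else 0 := by rw [if_pos ht5]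
            _ ≤ _ := Finset.single_le_sum (f := fun s => if dd s ∣ n then (1 : ℝ) else 0)
                (fun s _ => by split_ifs <;> norm_num) ht6
        have h8 : |∑ s ∈ B, (if dd s ∣ n then sg s else (0 : ℝ))| ≤
            (2 : ℝ) ^ (S.filter (fun p => p ∣ n)).card := by
          calc |∑ s ∈ B, (if dd s ∣ n then sg s else (0 : ℝ))|
              ≤ ∑ s ∈ B, (if dd s ∣ n then (1 : ℝ) else 0) := by
                refine (Finset.abs_sum_le_sum_abs _ _).trans (Finset.sum_le_sum ?_)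
                intro s _
                split_ifs
                · rw [sg_abs]
                · rw [abs_zero]
            _ = ((B.filter (fun s => dd s ∣ n)).card : ℝ) := by
                rw [Finset.card_filter]; push_cast; rfl
            _ ≤ (((S.filter (fun p => p ∣ n)).powerset).card : ℝ) := by
                have : B.filter (fun s => dd s ∣ n) ⊆ (S.filter (fun p => p ∣ n)).powerset := by
                  intro s hs
                  rw [mem_filter, hB, mem_filter, mem_powerset] at hs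
                  rw [mem_powerset]
                  intro p hp
                  rw [mem_filter]
                  exact ⟨hs.1.1 hp, ((dd_dvd hSp hs.1.1 n).1 hs.2) p hp⟩
                exact_mod_cast Finset.card_le_card this
            _ = _ := by rw [Finset.card_powerset]; push_cast; rfl
        calc |∑ s ∈ B, (if dd s ∣ n then sg s else (0 : ℝ))| ≤ G := h8.trans hGn
          _ = G * 1 := (mul_one _).symm
          _ ≤ _ := mul_le_mul_of_nonneg_left h7 hG0
      · push Not at hex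
        have h3 : ∑ s ∈ B, (if dd s ∣ n then sg s else (0 : ℝ)) = 0 := by
          apply Finset.sum_eq_zero
          intro s hs
          rw [if_neg (hex s hs)]
        rw [h3, abs_zero]
        apply mul_nonneg hG0
        apply Finset.sum_nonneg
        intro s _
        split_ifs <;> norm_num
    rw [h1]
    calc |∑ n ∈ AP q a X, ∑ s ∈ B, (if dd s ∣ n then sg s else (0 : ℝ))|
        ≤ ∑ n ∈ AP q a X, G * ∑ s ∈ D, (if dd s ∣ n then (1 : ℝ) else 0) :=
          (Finset.abs_sum_le_sum_abs _ _).trans (Finset.sum_le_sum h2)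
      _ = G * ∑ s ∈ D, (NN q a X s : ℝ) := by
          rw [← Finset.mul_sum, Finset.sum_comm]
          congr 1
          apply Finset.sum_congr rfl
          intro s _
          unfold NN
          rw [Finset.card_filter]
          push_cast
          rfl
      _ ≤ G * ∑ s ∈ D, (2 : ℝ) := by
          apply mul_le_mul_of_nonneg_left _ hG0
          apply Finset.sum_le_sum
          intro s hs
          rw [hD, mem_filter, hB, mem_filter, mem_powerset, not_le] at hs
          have h3 := NN_bound q a X hq hS hs.1.1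
          have hp : (0 : ℝ) < dd s := dd_posR fun p hp => hS0 p (hs.1.1 hp)
          have h4 : (X : ℝ) / q / dd s ≤ 1 := by
            rw [← hY, div_le_one hp]; exact hs.1.2.le
          have := (abs_le.1 h3).2
          linarith
      _ = 2 * G * (D.card : ℝ) := by
          rw [Finset.sum_const, nsmul_eq_mul]; ring
      _ ≤ 2 * G * R := by
          apply mul_le_mul_of_nonneg_left _ (by positivity)
          have h3 : D ⊆ S.powerset.filter (fun s => ((dd s : ℕ) : ℝ) ≤ Y1) := by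
            intro s hs
            rw [hD, mem_filter, hB, mem_filter] at hs
            rw [mem_filter]
            exact ⟨hs.1.1, hs.2⟩
          have h4 : (D.card : ℝ) ≤ ((S.powerset.filter (fun s => ((dd s : ℕ) : ℝ) ≤ Y1)).card : ℝ) := by
            exact_mod_cast Finset.card_le_card h3
          rw [hR]
          exact h4.trans (ran_card S hS0 σ Y1 hσ hY10)
  have k4 : ∑ s ∈ S.powerset.filter (fun s => ¬ ((dd s : ℕ) : ℝ) ≤ Y),
      (sg s * (NN q a X s : ℝ) - sg s * (Y / dd s)) =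
      ∑ s ∈ S.powerset.filter (fun s => ¬ ((dd s : ℕ) : ℝ) ≤ Y), sg s * (NN q a X s : ℝ) -
      ∑ s ∈ S.powerset.filter (fun s => ¬ ((dd s : ℕ) : ℝ) ≤ Y), sg s * (Y / dd s) :=
    Finset.sum_sub_distrib _ _
  rw [k4]
  rw [abs_le] at k1 k2 k3 ⊢
  constructor <;> nlinarith [k1.1, k1.2, k2.1, k2.2, k3.1, k3.2]

end Pool.Agent.U746.RH
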